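import Mathlib

set_option autoImplicit false

namespace Pool.Agent.P.MP_ebe746_co.Cl

/-- lower Beatty condition -/
def LoB (k K : ℕ) (ρ : ℝ) : Prop := ∀ a b : ℕ, a + b = k → (K : ℤ) ≤ ⌊ρ * a⌋ + ⌊ρ * b⌋

/-- upper Beatty condition -/
def UpB (k K : ℕ) (ρ : ℝ) : Prop := ∀ a b : ℕ, a + b + 1 = k → ⌈ρ * a⌉ + ⌈ρ * b⌉ + 1 ≤ (K : ℤ)

/-- the arithmetic condition -/
def Cond (k K : ℕ) : Prop :=
  3 * k ≤ K + 1 ∨ ∃ t, K + 1 + t = 3 * k ∧ (t ∣ k - 1 ∨ t ∣ k ∨ t ∣ 2 * k - 1)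

lemma floor_three (τ : ℝ) (a : ℕ) : ⌊(3 - τ) * a⌋ = 3 * (a : ℤ) - ⌈τ * a⌉ := by
  have : (3 - τ) * a = -(τ * a) + ((3 * (a : ℤ) : ℤ) : ℝ) := by push_cast; ring
  rw [this, Int.floor_add_intCast, Int.floor_neg]; ring

lemma ceil_three (τ : ℝ) (a : ℕ) : ⌈(3 - τ) * a⌉ = 3 * (a : ℤ) - ⌊τ * a⌋ := by
  have : (3 - τ) * a = -(τ * a) + ((3 * (a : ℤ) : ℤ) : ℝ) := by push_cast; ring
  rw [this, Int.ceil_add_intCast, Int.ceil_neg]; ring

lemma floor_div_nat (A q : ℕ) : ⌊((A : ℝ) / q)⌋ = ((A / q : ℕ) : ℤ) := by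
  rw [← Nat.floor_div_eq_div (K := ℝ), Int.natCast_floor_eq_floor (by positivity)]

lemma ceil_sum_le (A B q t : ℕ) (hq : 0 < q) (h : A + B ≤ t * q + 1) :
    ⌈((A : ℝ) / q)⌉ + ⌈((B : ℝ) / q)⌉ ≤ (t : ℤ) + 1 := by
  have hq' : (0 : ℝ) < q := by exact_mod_cast hq
  have key : ∀ C : ℕ, ⌈((C : ℝ) / q)⌉ * (q : ℤ) ≤ C + q - 1 := by
    intro C
    have h1 := Int.ceil_lt_add_one ((C : ℝ) / q)
    have h2 : (⌈((C : ℝ) / q)⌉ : ℝ) * q < C + q := by
      have := mul_lt_mul_of_pos_right h1 hq'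
      rwa [add_mul, div_mul_cancel₀ _ hq'.ne', one_mul] at this
    have h3 : ⌈((C : ℝ) / q)⌉ * (q : ℤ) < C + q := by exact_mod_cast h2
    omega
  have h1 := key A
  have h2 := key B
  have h3 : (A : ℤ) + B ≤ t * q + 1 := by exact_mod_cast h
  by_contra hc
  push Not at hc
  have h4 : ((t : ℤ) + 2) * q ≤ (⌈((A : ℝ) / q)⌉ + ⌈((B : ℝ) / q)⌉) * q :=
    mul_le_mul_of_nonneg_right (by omega) (by positivity)
  nlinarith

lemma floor_sum_ge (A B q t : ℕ) (hq : 0 < q) (h : t * q ≤ A + B + 1) :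
    (t : ℤ) - 1 ≤ ⌊((A : ℝ) / q)⌋ + ⌊((B : ℝ) / q)⌋ := by
  have hq' : (0 : ℝ) < q := by exact_mod_cast hq
  have key : ∀ C : ℕ, (C : ℤ) - q + 1 ≤ ⌊((C : ℝ) / q)⌋ * (q : ℤ) := by
    intro C
    have h1 := Int.sub_one_lt_floor ((C : ℝ) / q)
    have h2 : (C : ℝ) - q < (⌊((C : ℝ) / q)⌋ : ℝ) * q := by
      have := mul_lt_mul_of_pos_right h1 hq'
      rwa [sub_mul, div_mul_cancel₀ _ hq'.ne', one_mul] at this
    have h3 : (C : ℤ) - q < ⌊((C : ℝ) / q)⌋ * (q : ℤ) := by exact_mod_cast h2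
    omega
  have h1 := key A
  have h2 := key B
  have h3 : (t : ℤ) * q ≤ A + B + 1 := by exact_mod_cast h
  by_contra hc
  push Not at hc
  have h4 : (⌊((A : ℝ) / q)⌋ + ⌊((B : ℝ) / q)⌋) * q ≤ ((t : ℤ) - 2) * q :=
    mul_le_mul_of_nonneg_right (by omega) (by positivity)
  nlinarith

lemma beatty_frac (k K t c q : ℕ) (hq : 0 < q) (hc : c ≤ 2) (ht : K + 1 + t = 3 * k)
    (h1 : c * k ≤ t * q + 1) (h2 : t * q + c ≤ c * k + 1) :
    ∃ ρ : ℝ, 1 ≤ ρ ∧ LoB k K ρ ∧ UpB k K ρ := by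
  have hq' : (1 : ℝ) ≤ q := by exact_mod_cast hq
  have hc' : (c : ℝ) ≤ 2 := by exact_mod_cast hc
  have e : ∀ a : ℕ, (c : ℝ) / q * a = ((c * a : ℕ) : ℝ) / q := by
    intro a; push_cast; ring
  refine ⟨3 - (c : ℝ) / q, ?_, ?_, ?_⟩
  · have : (c : ℝ) / q ≤ 2 := by
      rw [div_le_iff₀ (by linarith)]; nlinarith
    linarith
  · intro a b hab
    rw [floor_three, floor_three, e, e]
    have := ceil_sum_le (c * a) (c * b) q t hq (by rw [← mul_add, hab]; exact h1)
    omega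
  · intro a b hab
    rw [ceil_three, ceil_three, e, e]
    have := floor_sum_ge (c * a) (c * b) q t hq (by
      have : c * k = c * a + c * b + c := by rw [← hab]; ring
      omega)
    omega

theorem beatty_of_cond (k K : ℕ) (hk : 1 ≤ k) (hK : 1 ≤ K) (h : Cond k K) :
    ∃ ρ : ℝ, 1 ≤ ρ ∧ LoB k K ρ ∧ UpB k K ρ := by
  by_cases hk1 : k = 1
  · subst hk1
    refine ⟨K, by exact_mod_cast hK, ?_, ?_⟩
    · intro a b hab
      have e1 : ⌊(K : ℝ) * a⌋ = (K : ℤ) * a := by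
        rw [← Int.floor_intCast (R := ℝ) ((K : ℤ) * a)]; push_cast; rfl
      have e2 : ⌊(K : ℝ) * b⌋ = (K : ℤ) * b := by
        rw [← Int.floor_intCast (R := ℝ) ((K : ℤ) * b)]; push_cast; rfl
      rw [e1, e2, ← mul_add]
      have : (a : ℤ) + b = 1 := by exact_mod_cast hab
      rw [this, mul_one]
    · intro a b hab
      obtain rfl : a = 0 := by omega
      obtain rfl : b = 0 := by omega
      simp; omega
  rcases h with h | ⟨t, ht, h | h | h⟩
  · have hk' : (0 : ℝ) < k := by exact_mod_cast hk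
    have h3 : (3 : ℝ) ≤ (K + 1) / k := by
      rw [le_div_iff₀ hk']; exact_mod_cast h
    have e : ((K : ℝ) + 1) / k * k = K + 1 := div_mul_cancel₀ _ hk'.ne'
    refine ⟨(K + 1) / k, by linarith, ?_, ?_⟩
    · intro a b hab
      have h1 := Int.sub_one_lt_floor (((K : ℝ) + 1) / k * a)
      have h2 := Int.sub_one_lt_floor (((K : ℝ) + 1) / k * b)
      have h4 : (k : ℝ) = a + b := by exact_mod_cast hab.symm
      have h5 : ((K : ℝ) + 1) / k * a + ((K : ℝ) + 1) / k * b = K + 1 := by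
        rw [← mul_add, ← h4, e]
      have h6 : (K : ℝ) - 1 < (⌊((K : ℝ) + 1) / k * a⌋ : ℝ) + ⌊((K : ℝ) + 1) / k * b⌋ := by linarith
      have h7 : (K : ℤ) - 1 < ⌊((K : ℝ) + 1) / k * a⌋ + ⌊((K : ℝ) + 1) / k * b⌋ := by
        exact_mod_cast h6
      omega
    · intro a b hab
      have h1 := Int.ceil_lt_add_one (((K : ℝ) + 1) / k * a)
      have h2 := Int.ceil_lt_add_one (((K : ℝ) + 1) / k * b)
      have h4 : (k : ℝ) = a + b + 1 := by exact_mod_cast hab.symm
      have h5 : ((K : ℝ) + 1) / k * a + ((K : ℝ) + 1) / k * b + ((K : ℝ) + 1) / k = K + 1 := by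
        have : ((K : ℝ) + 1) / k * (a + b + 1) = K + 1 := by rw [← h4, e]
        linarith
      have h6 : (⌈((K : ℝ) + 1) / k * a⌉ : ℝ) + ⌈((K : ℝ) + 1) / k * b⌉ < K := by linarith
      have h7 : ⌈((K : ℝ) + 1) / k * a⌉ + ⌈((K : ℝ) + 1) / k * b⌉ < (K : ℤ) := by
        exact_mod_cast h6
      omega
  · obtain ⟨q, hq⟩ := h
    have hq0 : 0 < q := by
      rcases Nat.eq_zero_or_pos q with rfl | h
      · omega
      · exact h
    exact beatty_frac k K t 1 q hq0 (by omega) ht (by omega) (by omega)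
  · obtain ⟨q, hq⟩ := h
    have hq0 : 0 < q := by
      rcases Nat.eq_zero_or_pos q with rfl | h
      · omega
      · exact h
    exact beatty_frac k K t 1 q hq0 (by omega) ht (by omega) (by omega)
  · obtain ⟨q, hq⟩ := h
    have hq0 : 0 < q := by
      rcases Nat.eq_zero_or_pos q with rfl | h
      · omega
      · exact h
    exact beatty_frac k K t 2 q hq0 (by omega) ht (by omega) (by omega)

lemma exists_first (τ x : ℝ) (n : ℕ) (hx : 0 ≤ x) (hn : x < τ * n) :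
    ∃ a : ℕ, a + 1 ≤ n ∧ τ * a ≤ x ∧ x < τ * (a + 1) := by
  induction n with
  | zero => simp at hn; linarith
  | succ n ih =>
    by_cases h : x < τ * n
    · obtain ⟨a, h1, h2, h3⟩ := ih h
      exact ⟨a, by omega, h2, h3⟩
    · exact ⟨n, le_rfl, not_lt.mp h, by exact_mod_cast hn⟩

theorem cond_of_beatty (k K : ℕ) (hk : 1 ≤ k) (ρ : ℝ) (hL : LoB k K ρ) (hU : UpB k K ρ) :
    Cond k K := by
  by_cases h3 : 3 * k ≤ K + 1
  · exact Or.inl h3
  right
  obtain ⟨t, ht⟩ : ∃ t, K + 1 + t = 3 * k := ⟨3 * k - (K + 1), by omega⟩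
  refine ⟨t, ht, ?_⟩
  by_cases ht1 : t = 1
  · subst ht1; exact Or.inl (one_dvd _)
  by_cases hk1 : k = 1
  · subst hk1; exact Or.inl (by simp)
  have ht2 : 2 ≤ t := by omega
  obtain ⟨j, rfl⟩ : ∃ j, k = j + 1 := ⟨k - 1, by omega⟩
  obtain ⟨τ, rfl⟩ : ∃ τ, ρ = 3 - τ := ⟨3 - ρ, by ring⟩
  have L : ∀ a b : ℕ, a + b = j + 1 → ⌈τ * a⌉ + ⌈τ * b⌉ ≤ (t : ℤ) + 1 := by
    intro a b hab
    have := hL a b hab
    rw [floor_three, floor_three] at this
    omega
  have U : ∀ a b : ℕ, a + b = j → (t : ℤ) - 1 ≤ ⌊τ * a⌋ + ⌊τ * b⌋ := by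
    intro a b hab
    have := hU a b (by omega)
    rw [ceil_three, ceil_three] at this
    omega
  have ht' : (2 : ℝ) ≤ t := by exact_mod_cast ht2
  have U0 : (t : ℝ) - 1 ≤ τ * j := by
    have h := U 0 j (by omega)
    simp only [Nat.cast_zero, mul_zero, Int.floor_zero, zero_add] at h
    have := Int.le_floor.mp h
    push_cast at this
    exact this
  have L0 : τ * (j + 1) ≤ t + 1 := by
    have h := L 0 (j + 1) (by omega)
    simp only [Nat.cast_zero, mul_zero, Int.ceil_zero, zero_add] at h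
    have := Int.ceil_le.mp h
    push_cast at this
    exact this
  have hτ : 0 < τ := by
    by_contra hc
    push Not at hc
    have : τ * j ≤ 0 := mul_nonpos_of_nonpos_of_nonneg hc (by positivity)
    linarith
  -- no point just below an integer
  have U' : ∀ (a : ℕ) (n : ℤ), a ≤ j → τ * a < n → τ * a - n ≤ τ * j - t := by
    intro a n ha hn
    obtain ⟨b, rfl⟩ : ∃ b, j = a + b := ⟨j - a, by omega⟩
    have h1 := U a b rfl
    have h2 : ⌊τ * a⌋ < n := Int.floor_lt.mpr hn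
    have h4 : (t : ℤ) - n ≤ ⌊τ * b⌋ := by omega
    have h5 := Int.le_floor.mp h4
    push_cast at h5 ⊢
    linarith
  -- no point just above an integer
  have L' : ∀ (a : ℕ) (n : ℤ), a ≤ j + 1 → (n : ℝ) < τ * a → τ * (j + 1) - t ≤ τ * a - n := by
    intro a n ha hn
    obtain ⟨b, hb⟩ : ∃ b, j + 1 = a + b := ⟨j + 1 - a, by omega⟩
    have h1 := L a b hb.symm
    have h2 : n < ⌈τ * a⌉ := Int.lt_ceil.mpr hn
    have h4 : ⌈τ * b⌉ ≤ (t : ℤ) - n := by omega
    have h5 := Int.ceil_le.mp h4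
    have h6 : (j : ℝ) + 1 = a + b := by exact_mod_cast hb
    rw [h6]
    push_cast at h5 ⊢
    linarith
  have first1 : ∃ q : ℕ, q + 1 ≤ j ∧ τ * q < 1 ∧ 1 ≤ τ * (q + 1) := by
    have : ∀ n : ℕ, 1 ≤ τ * n → ∃ q : ℕ, q + 1 ≤ n ∧ τ * q < 1 ∧ 1 ≤ τ * (q + 1) := by
      intro n
      induction n with
      | zero => intro h; simp at h; linarith
      | succ n ih =>
        intro h
        by_cases h' : 1 ≤ τ * n
        · obtain ⟨q, h1, h2⟩ := ih h'
          exact ⟨q, by omega, h2⟩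
        · exact ⟨n, le_rfl, not_le.mp h', by exact_mod_cast h⟩
    exact this j (by linarith)
  by_cases hα : τ * (j + 1) ≤ t
  · right; left
    obtain ⟨q, hq1, hq2, hq3⟩ := first1
    have h1 := U' q 1 (by omega) (by exact_mod_cast hq2)
    push_cast at h1
    have e1 : τ * (q + 1) = 1 := by nlinarith
    have e2 : τ * (j + 1) = t := by nlinarith
    refine ⟨q + 1, ?_⟩
    have : ((j : ℝ) + 1) = t * (q + 1) := by
      calc ((j : ℝ) + 1) = (j + 1) * (τ * (q + 1)) := by rw [e1, mul_one]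
        _ = (τ * (j + 1)) * (q + 1) := by ring
        _ = _ := by rw [e2]
    exact_mod_cast this
  push Not at hα
  by_cases hβ : (t : ℝ) ≤ τ * j
  · left
    obtain ⟨q, hq1, hq2, hq3⟩ := first1
    have h0 := L' 1 0 (by omega) (by simpa using hτ)
    push_cast at h0
    have e2 : τ * j = t := by nlinarith
    have e1 : τ * (q + 1) = 1 := by
      by_contra hc
      have h1 := L' (q + 1) 1 (by omega) (by push_cast; exact lt_of_le_of_ne hq3 (Ne.symm hc))
      push_cast at h1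
      nlinarith
    refine ⟨q + 1, ?_⟩
    have : (j : ℝ) = t * (q + 1) := by
      calc (j : ℝ) = j * (τ * (q + 1)) := by rw [e1, mul_one]
        _ = (τ * j) * (q + 1) := by ring
        _ = _ := by rw [e2]
    simp only [Nat.add_sub_cancel]
    exact_mod_cast this
  push Not at hβ
  right; right
  obtain ⟨a, ha1, ha2, ha3⟩ := exists_first τ (1 - (t - τ * j)) j (by linarith) (by linarith)
  have hge : 1 ≤ τ * (a + 1) := by
    by_contra hc
    push Not at hc
    have := U' (a + 1) 1 ha1 (by push_cast; exact hc)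
    push_cast at this
    linarith
  have hne : τ * (a + 1) ≠ 1 := by
    intro e1
    have h1 : (t : ℝ) * (a + 1) < j + 1 := by
      have := mul_lt_mul_of_pos_right hα (show (0 : ℝ) < a + 1 by positivity)
      calc (t : ℝ) * (a + 1) < τ * (j + 1) * (a + 1) := this
        _ = (j + 1) * (τ * (a + 1)) := by ring
        _ = _ := by rw [e1, mul_one]
    have h2 : (j : ℝ) < t * (a + 1) := by
      have := mul_lt_mul_of_pos_right hβ (show (0 : ℝ) < a + 1 by positivity)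
      calc (j : ℝ) = j * (τ * (a + 1)) := by rw [e1, mul_one]
        _ = τ * j * (a + 1) := by ring
        _ < _ := this
    have h1' : t * (a + 1) < j + 1 := by exact_mod_cast h1
    have h2' : j < t * (a + 1) := by exact_mod_cast h2
    omega
  have h4 := L' (a + 1) 1 (by omega) (by push_cast; exact lt_of_le_of_ne hge (Ne.symm hne))
  push_cast at h4
  have e1 : τ * (a + 1) = 1 + (τ * (j + 1) - t) := by nlinarith
  have e0 : τ * a = 1 - (t - τ * j) := by nlinarith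
  have e2 : τ * (2 * a + 1) = 2 + (τ * (j + 1) - t) - (t - τ * j) := by nlinarith
  have hlt : 2 * a + 1 ≤ j := by
    by_contra hc
    have h5 : (j : ℝ) + 1 ≤ 2 * a + 1 := by exact_mod_cast (show j + 1 ≤ 2 * a + 1 by omega)
    have := mul_le_mul_of_nonneg_left h5 hτ.le
    linarith
  have e3 : τ * (2 * a + 1) = 2 := by
    rcases lt_trichotomy (τ * (2 * a + 1)) 2 with h | h | h
    · have := U' (2 * a + 1) 2 hlt (by push_cast; exact h)
      push_cast at this
      linarith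
    · exact h
    · have := L' (2 * a + 1) 2 (by omega) (by push_cast; exact h)
      push_cast at this
      linarith
  have e4 : τ * (2 * j + 1) = 2 * t := by nlinarith
  refine ⟨2 * a + 1, ?_⟩
  have : (2 * (j : ℝ) + 1) = t * (2 * a + 1) := by
    have : 2 * (2 * (j : ℝ) + 1) = 2 * (t * (2 * a + 1)) := by
      calc 2 * (2 * (j : ℝ) + 1) = (τ * (2 * a + 1)) * (2 * j + 1) := by rw [e3]
        _ = (τ * (2 * j + 1)) * (2 * a + 1) := by ring
        _ = _ := by rw [e4]; ring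
    linarith
  have h6 : 2 * j + 1 = t * (2 * a + 1) := by exact_mod_cast this
  omega

end Pool.Agent.P.MP_ebe746_co.Cl
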