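import Pool.Agent.P.MP_ebe746_co.Tree

set_option autoImplicit false

namespace Pool.Agent.P.MP_ebe746_co.Cl

open SimpleGraph

variable {V : Type} {T : SimpleGraph V} {K : ℕ}

/-- two sets share two points at distance at least `K` -/
def WinK (T : SimpleGraph V) (K : ℕ) (A B : Set V) : Prop :=
  ∃ y z, y ∈ A ∧ y ∈ B ∧ z ∈ A ∧ z ∈ B ∧ K ≤ T.dist y z

lemma winK_iff [Finite V] (hT : T.IsTree) {A B : Set V} (hA : Cvx T A) (hB : Cvx T B)
    (hcol : Col T A) : K + 1 ≤ (A ∩ B).ncard ↔ WinK T K A B := by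
  constructor
  · intro h
    by_contra hw
    have hne : (A ∩ B).Nonempty := by
      rw [Set.nonempty_iff_ne_empty]; intro h0; rw [h0] at h; simp at h
    have hcol' : Col T (A ∩ B) := fun a b c ha hb hc => hcol a b c ha.1 hb.1 hc.1
    obtain ⟨e, he, hend⟩ := exists_end hT hcol' hne
    have hle : (A ∩ B).ncard ≤ (Set.Iio K : Set ℕ).ncard := by
      apply Set.ncard_le_ncard_of_injOn (fun y => T.dist e y)
      · intro y hy
        simp only [Set.mem_Iio]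
        by_contra hc
        exact hw ⟨e, y, he.1, he.2, hy.1, hy.2, by omega⟩
      · intro y hy z hz hyz
        simp only at hyz
        have := hend y hy z hz
        have s3 : T.dist z y = T.dist y z := dist_comm
        have : T.dist y z = 0 := by unfold Btw at *; omega
        exact hT.connected.dist_eq_zero_iff.mp this
    have : (Set.Iio K : Set ℕ).ncard = K := by simp
    omega
  · rintro ⟨y, z, hyA, hyB, hzA, hzB, hd⟩
    have hex : ∀ k : Fin (K + 1), ∃ w, T.dist y w = k ∧ Btw T y w z := fun k =>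
      exists_point hT k y z (by omega)
    choose f hf1 hf2 using hex
    have hinj : Function.Injective f := by
      intro i j hij
      apply Fin.ext
      rw [← hf1 i, ← hf1 j, hij]
    have hsub : Set.range f ⊆ A ∩ B := by
      rintro _ ⟨k, rfl⟩
      exact ⟨hA y _ z hyA hzA (hf2 k), hB y _ z hyB hzB (hf2 k)⟩
    have h1 := Set.ncard_le_ncard hsub (Set.toFinite _)
    rw [Set.ncard_range_of_injective hinj] at h1
    simpa using h1

lemma hellyK (hT : T.IsTree) {A B C : Set V} (hA : Cvx T A) (hB : Cvx T B) (hC : Cvx T C)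
    (hAB : WinK T K A B) (hBC : WinK T K B C) (hAC : WinK T K A C) :
    ∃ m, m ∈ A ∧ m ∈ B ∧ m ∈ C := by
  obtain ⟨a, -, h1, h2, -⟩ := hAB
  obtain ⟨b, -, h3, h4, -⟩ := hBC
  obtain ⟨c, -, h5, h6, -⟩ := hAC
  obtain ⟨m, m1, m2, m3⟩ := exists_median hT a b c
  exact ⟨m, hA a m c h1 h5 m3, hB a m b h2 h3 m1, hC b m c h4 h6 m2⟩

lemma strictMono_gap {n : ℕ} {f : Fin n → ℕ} (hf : StrictMono f) (i : ℕ) :
    ∀ (j : ℕ) (h : i + j < n), f ⟨i, by omega⟩ + j ≤ f ⟨i + j, h⟩ := by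
  intro j
  induction j with
  | zero => intro h; simp
  | succ j ih =>
    intro h
    have h1 := ih (by omega)
    have h2 : f ⟨i + j, by omega⟩ < f ⟨i + (j + 1), h⟩ := hf (by simp [Fin.lt_def])
    omega

lemma nat_gadgetK (hK : 1 ≤ K) (A : Fin (3 * K + 1) → Set ℕ) (hA : ∀ i, (A i).OrdConnected)
    (s : Fin (3 * K + 1) → ℕ) (hs : ∀ i, s i ∈ A i ∧ s i + K ∈ A i)
    (hd : ∀ i j, i ≠ j → ∀ t, t ∈ A i → t + K ∈ A i → t ∈ A j → t + K ∈ A j → False) :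
    ∃ t, ∀ B : Set ℕ, B.OrdConnected → (∀ i, ∃ x ∈ A i, x ∈ B) →
      t ∈ B ∧ t + K ∈ B ∧ t + 2 * K ∈ B := by
  have hinj : Function.Injective s := by
    intro i j hij
    by_contra hne
    exact hd i j hne (s i) (hs i).1 (hs i).2 (hij ▸ (hs j).1) (hij ▸ (hs j).2)
  let σ := Tuple.sort s
  have hmono : StrictMono (s ∘ σ) :=
    (Tuple.monotone_sort s).strictMono_of_injective (hinj.comp σ.injective)
  let i0 : Fin (3 * K + 1) := ⟨0, by omega⟩
  let i1 : Fin (3 * K + 1) := ⟨1, by omega⟩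
  let i2 : Fin (3 * K + 1) := ⟨1 + (3 * K - 2), by omega⟩
  let i3 : Fin (3 * K + 1) := ⟨3 * K, by omega⟩
  have h0 : s (σ i0) < s (σ i1) := hmono (by simp [i0, i1, Fin.lt_def])
  have h1 : s (σ i1) + (3 * K - 2) ≤ s (σ i2) := strictMono_gap hmono 1 (3 * K - 2) (by omega)
  have h2 : s (σ i2) < s (σ i3) := hmono (by simp only [i2, i3, Fin.lt_def]; omega)
  have n01 : i0 ≠ i1 := by simp [i0, i1]
  have n23 : i3 ≠ i2 := by simp only [i2, i3, ne_eq, Fin.mk.injEq]; omega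
  refine ⟨s (σ i1) + (K - 1), ?_⟩
  intro B hB hmeet
  obtain ⟨x, hxA, hxB⟩ := hmeet (σ i0)
  obtain ⟨y, hyA, hyB⟩ := hmeet (σ i3)
  have hx : x ≤ s (σ i1) + (K - 1) := by
    by_contra hc
    refine hd (σ i0) (σ i1) (σ.injective.ne n01) (s (σ i1)) ?_ ?_ (hs _).1 (hs _).2
    · exact (hA _).out (hs _).1 hxA ⟨by omega, by omega⟩
    · exact (hA _).out (hs _).1 hxA ⟨by omega, by omega⟩
  have hy : s (σ i2) < y := by
    by_contra hc
    refine hd (σ i3) (σ i2) (σ.injective.ne n23) (s (σ i2)) ?_ ?_ (hs _).1 (hs _).2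
    · exact (hA _).out hyA (hs _).2 ⟨by omega, by omega⟩
    · exact (hA _).out hyA (hs _).2 ⟨by omega, by omega⟩
  exact ⟨hB.out hxB hyB ⟨by omega, by omega⟩, hB.out hxB hyB ⟨by omega, by omega⟩,
    hB.out hxB hyB ⟨by omega, by omega⟩⟩

lemma gadgetK [Finite V] (hK : 1 ≤ K) (hT : T.IsTree) (Q : Set V) (U : Fin (3 * K + 1) → Set V)
    (hQ : Cvx T Q) (hQc : Col T Q) (hU : ∀ i, Cvx T (U i)) (hQU : ∀ i, WinK T K Q (U i))
    (hUU : ∀ i j, i ≠ j → ¬ WinK T K (U i) (U j)) :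
    ∃ u p v, u ∈ Q ∧ p ∈ Q ∧ v ∈ Q ∧ T.dist u p = K ∧ T.dist p v = K ∧ T.dist u v = 2 * K ∧
      ∀ P, Cvx T P → WinK T K P Q → (∀ i, WinK T K P (U i)) → u ∈ P ∧ p ∈ P ∧ v ∈ P := by
  have hne : Q.Nonempty := by
    obtain ⟨y, -, h, -⟩ := hQU 0
    exact ⟨y, h⟩
  obtain ⟨e, he, hend⟩ := exists_end hT hQc hne
  have hoc : ∀ P, Cvx T P → ((fun y => T.dist e y) '' (P ∩ Q)).OrdConnected := by
    intro P hP
    constructor
    rintro _ ⟨y, hy, rfl⟩ _ ⟨z, hz, rfl⟩ t ⟨ht1, ht2⟩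
    simp only at ht1 ht2
    have hyz := hend y hy.2 z hz.2
    have s1 : T.dist z y = T.dist y z := dist_comm
    obtain ⟨w, hw1, hw2⟩ := exists_point hT (t - T.dist e y) y z (by unfold Btw at *; omega)
    refine ⟨w, ⟨hP y w z hy.1 hz.1 hw2, hQ y w z hy.2 hz.2 hw2⟩, ?_⟩
    have t1 := hT.connected.dist_triangle (u := e) (v := y) (w := w)
    have t2 := hT.connected.dist_triangle (u := e) (v := w) (w := z)
    simp only
    unfold Btw at *
    omega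
  have hs : ∀ i, ∃ s, s ∈ (fun y => T.dist e y) '' (U i ∩ Q) ∧
      s + K ∈ (fun y => T.dist e y) '' (U i ∩ Q) := by
    intro i
    obtain ⟨y, z, h1, h2, h3, h4, h5⟩ := hQU i
    have hyz := hend y h1 z h3
    have s1 : T.dist z y = T.dist y z := dist_comm
    rcases hyz with h | h
    · refine ⟨T.dist e y, ⟨y, ⟨h2, h1⟩, rfl⟩, ?_⟩
      exact (hoc _ (hU i)).out ⟨y, ⟨h2, h1⟩, rfl⟩ ⟨z, ⟨h4, h3⟩, rfl⟩
        ⟨by simp, by unfold Btw at h; simp only; omega⟩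
    · refine ⟨T.dist e z, ⟨z, ⟨h4, h3⟩, rfl⟩, ?_⟩
      exact (hoc _ (hU i)).out ⟨z, ⟨h4, h3⟩, rfl⟩ ⟨y, ⟨h2, h1⟩, rfl⟩
        ⟨by simp, by unfold Btw at h; simp only; omega⟩
  choose s hs1 hs2 using hs
  have hcoord : ∀ y ∈ Q, ∀ z ∈ Q, ∀ k, T.dist e z = T.dist e y + k → T.dist y z = k := by
    intro y hy z hz k hk
    have hyz := hend y hy z hz
    have s1 : T.dist z y = T.dist y z := dist_comm
    unfold Btw at *
    omega
  have hinj : ∀ y ∈ Q, ∀ z ∈ Q, T.dist e z = T.dist e y → y = z := fun y hy z hz h =>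
    hT.connected.dist_eq_zero_iff.mp (hcoord y hy z hz 0 (by omega))
  obtain ⟨t, ht⟩ := nat_gadgetK hK (fun i => (fun y => T.dist e y) '' (U i ∩ Q))
    (fun i => hoc _ (hU i)) s (fun i => ⟨hs1 i, hs2 i⟩) (by
      rintro i j hij t ⟨y, hy, hy'⟩ ⟨z, hz, hz'⟩ ⟨y2, hy2, hy2'⟩ ⟨z2, hz2, hz2'⟩
      simp only at hy' hz' hy2' hz2'
      have e1 : y = y2 := hinj y hy.2 y2 hy2.2 (by omega)
      have e2 : z = z2 := hinj z hz.2 z2 hz2.2 (by omega)
      subst e1 e2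
      exact hUU i j hij ⟨y, z, hy.1, hy2.1, hz.1, hz2.1,
        (hcoord y hy.2 z hz.2 K (by omega)).ge⟩)
  obtain ⟨⟨u, hu, hu'⟩, ⟨p, hp, hp'⟩, ⟨v, hv, hv'⟩⟩ := ht _ (hoc Q hQ) (by
    intro i
    obtain ⟨y, hy, hy'⟩ := hs1 i
    exact ⟨_, ⟨y, hy, rfl⟩, ⟨y, ⟨hy.2, hy.2⟩, rfl⟩⟩)
  simp only at hu' hp' hv'
  refine ⟨u, p, v, hu.1, hp.1, hv.1, hcoord u hu.1 p hp.1 K (by omega),
    hcoord p hp.1 v hv.1 K (by omega), hcoord u hu.1 v hv.1 (2 * K) (by omega), ?_⟩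
  intro P hP hPQ hPU
  obtain ⟨⟨u2, hu2, hu2'⟩, ⟨p2, hp2, hp2'⟩, ⟨v2, hv2, hv2'⟩⟩ := ht _ (hoc P hP) (by
    intro i
    obtain ⟨m, m1, m2, m3⟩ := hellyK hT hP hQ (hU i) hPQ (hQU i) (hPU i)
    exact ⟨_, ⟨m, ⟨m3, m2⟩, rfl⟩, ⟨m, ⟨m1, m2⟩, rfl⟩⟩)
  simp only at hu2' hp2' hv2'
  rw [hinj u hu.1 u2 hu2.2 (by omega), hinj p hp.1 p2 hp2.2 (by omega),
    hinj v hv.1 v2 hv2.2 (by omega)]
  exact ⟨hu2.1, hp2.1, hv2.1⟩

lemma privacyK (hT : T.IsTree) {P Q R : Set V} {u p v : V} (hPc : Col T P) (hQ : Cvx T Q)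
    (hR : Cvx T R) (hu : u ∈ Q) (hp : p ∈ Q) (hv : v ∈ Q) (hup : T.dist u p = K)
    (hpv : T.dist p v = K) (huv : T.dist u v = 2 * K) (huP : u ∈ P) (hvP : v ∈ P)
    (hPR : WinK T K P R) (hQR : ¬ WinK T K Q R) : p ∉ R := by
  intro hpR
  have huR : u ∉ R := fun h => hQR ⟨u, p, hu, h, hp, hpR, hup.ge⟩
  have hvR : v ∉ R := fun h => hQR ⟨p, v, hp, hpR, hv, h, hpv.ge⟩
  have key : ∀ w ∈ P, w ∈ R → w ∈ Q := by
    intro w hwP hwR
    have t1 := hT.connected.dist_triangle (u := w) (v := u) (w := p)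
    have t2 := hT.connected.dist_triangle (u := w) (v := p) (w := v)
    have t3 := hT.connected.dist_triangle (u := p) (v := v) (w := w)
    have t4 := hT.connected.dist_triangle (u := u) (v := p) (w := w)
    rcases hPc u w v huP hwP hvP with h | h | h
    · exact hQ u w v hu hv h
    · exact absurd (hR w u p hwR hpR (by unfold Btw at *; omega)) huR
    · exact absurd (hR p v w hpR hwR (by unfold Btw at *; omega)) hvR
  obtain ⟨y, z, h1, h2, h3, h4, h5⟩ := hPR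
  exact hQR ⟨y, z, key y h1 h2, h2, key z h3 h4, h4, h5⟩

lemma upperK (hK : 1 ≤ K) (hT : T.IsTree) {A B : Set V} {X Y Z W : V} (hA : Cvx T A)
    (hB : Cvx T B) (hX : X ∈ A) (hZ : Z ∈ A) (hY : Y ∈ B) (hW : W ∈ B) (hn : ¬ WinK T K A B) :
    T.dist X Z + T.dist Y W + 1 ≤ T.dist X Y + T.dist Z W + 2 * K := by
  by_contra hc
  obtain ⟨m, m1, m2, m3⟩ := exists_median hT X Y Z
  obtain ⟨n, n1, n2, n3⟩ := exists_median hT X Z W
  have t1 := hT.connected.dist_triangle (u := Y) (v := m) (w := W)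
  have t2 := hT.connected.dist_triangle (u := Y) (v := n) (w := W)
  have t3 := hT.connected.dist_triangle (u := X) (v := n) (w := Z)
  have t4 := hT.connected.dist_triangle (u := m) (v := n) (w := Z)
  have t5 := hT.connected.dist_triangle (u := m) (v := n) (w := W)
  have s1 : T.dist Y m = T.dist m Y := dist_comm
  have s2 : T.dist W m = T.dist m W := dist_comm
  have s3 : T.dist W Z = T.dist Z W := dist_comm
  have s4 : T.dist Z n = T.dist n Z := dist_comm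
  have s5 : T.dist Y n = T.dist n Y := dist_comm
  have hm : Btw T Y m W := by
    rcases btw_split hT W m2 with h | h
    · exact h
    · unfold Btw at *; omega
  have hn' : Btw T Y n W := by
    rcases btw_split hT Y n3 with h | h
    · unfold Btw at *; omega
    · exact h
  exact hn ⟨m, n, hA X m Z hX hZ m3, hB Y m W hY hW hm, hA X n Z hX hZ n1, hB Y n W hY hW hn',
    by unfold Btw at *; omega⟩

lemma lowerK (hT : T.IsTree) {X Y Z W y z : V} (h1 : Btw T X y Z) (h2 : Btw T X z Z)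
    (h3 : Btw T Y y W) (h4 : Btw T Y z W) (hd : K ≤ T.dist y z) :
    T.dist X Y + T.dist Z W + 2 * K ≤ T.dist X Z + T.dist Y W ∨
    T.dist X W + T.dist Y Z + 2 * K ≤ T.dist X Z + T.dist Y W := by
  have a1 := btw_split hT y h2
  have a2 := btw_split hT y h4
  have t1 := hT.connected.dist_triangle (u := X) (v := y) (w := Y)
  have t2 := hT.connected.dist_triangle (u := X) (v := z) (w := Y)
  have t3 := hT.connected.dist_triangle (u := Z) (v := y) (w := W)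
  have t4 := hT.connected.dist_triangle (u := Z) (v := z) (w := W)
  have t5 := hT.connected.dist_triangle (u := X) (v := y) (w := W)
  have t6 := hT.connected.dist_triangle (u := X) (v := z) (w := W)
  have t7 := hT.connected.dist_triangle (u := Y) (v := y) (w := Z)
  have t8 := hT.connected.dist_triangle (u := Y) (v := z) (w := Z)
  have s1 : T.dist y Y = T.dist Y y := dist_comm
  have s2 : T.dist z Y = T.dist Y z := dist_comm
  have s3 : T.dist Z y = T.dist y Z := dist_comm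
  have s4 : T.dist Z z = T.dist z Z := dist_comm
  have s5 : T.dist z y = T.dist y z := dist_comm
  unfold Btw at *
  omega

theorem coreK [Finite V] {L : Type} (o : L) (hK : 1 ≤ K) (hT : T.IsTree) (P : L → L → Set V)
    (Q : L → Set V) (U : L → Fin (3 * K + 1) → Set V) (hsym : ∀ X Y, P X Y = P Y X)
    (cP : ∀ X Y, Cvx T (P X Y)) (lP : ∀ X Y, Col T (P X Y))
    (cQ : ∀ X, Cvx T (Q X)) (lQ : ∀ X, Col T (Q X)) (cU : ∀ X i, Cvx T (U X i))
    (hQU : ∀ X i, WinK T K (Q X) (U X i))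
    (hUU : ∀ X i j, i ≠ j → ¬ WinK T K (U X i) (U X j))
    (hPQ : ∀ X Y, X ≠ Y → WinK T K (P X Y) (Q X))
    (hPU : ∀ X Y i, X ≠ Y → WinK T K (P X Y) (U X i))
    (hQR : ∀ X Y W, X ≠ Y → X ≠ W → Y ≠ W → ¬ WinK T K (Q X) (P Y W))
    (hPP : ∀ X Y W, X ≠ Y → X ≠ W → Y ≠ W → WinK T K (P X Y) (P Y W)) :
    ∃ h : L → L → ℕ, (∀ i j, h i j = h j i) ∧ (∀ i j k, h i j ≤ h i k ∨ h j k ≤ h i k) ∧
      (∀ i, h i o = 0) ∧
      (∀ X Y Z W, X ≠ Y → X ≠ Z → X ≠ W → Y ≠ Z → Y ≠ W → Z ≠ W →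
        WinK T K (P X Z) (P Y W) → WinK T K (P X W) (P Y Z) →
        h X Z + h Y W + K ≤ h X Y + h Z W) ∧
      (∀ X Y Z W, X ≠ Z → Y ≠ W → ¬ WinK T K (P X Z) (P Y W) →
        h X Y + h Z W + 1 ≤ h X Z + h Y W + K) := by
  have hex : ∀ X, ∃ p, (∀ Y, X ≠ Y → p ∈ P X Y) ∧
      ∀ Y W, X ≠ Y → X ≠ W → Y ≠ W → p ∉ P Y W := by
    intro X
    obtain ⟨u, p, v, hu, hp, hv, h1, h2, h3, h4⟩ :=
      gadgetK hK hT (Q X) (U X) (cQ X) (lQ X) (cU X) (hQU X) (hUU X)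
    have h5 : ∀ Y, X ≠ Y → u ∈ P X Y ∧ p ∈ P X Y ∧ v ∈ P X Y := fun Y hY =>
      h4 _ (cP X Y) (hPQ X Y hY) (fun i => hPU X Y i hY)
    refine ⟨p, fun Y hY => (h5 Y hY).2.1, fun Y W hY hW hYW => ?_⟩
    exact privacyK hT (lP X Y) (cQ X) (cP Y W) hu hp hv h1 h2 h3 (h5 Y hY).1 (h5 Y hY).2.2
      (hPP X Y W hY hW hYW) (hQR X Y W hY hW hYW)
  choose p hp1 hp2 using hex
  have hp1' : ∀ X Y, X ≠ Y → p Y ∈ P X Y := fun X Y h => hsym X Y ▸ hp1 Y X h.symm
  have hbtw : ∀ X Y Z W, X ≠ Y → X ≠ Z → X ≠ W → Y ≠ Z → Y ≠ W → Z ≠ W →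
      ∀ o, o ∈ P X Z → o ∈ P Y W → Btw T (p X) o (p Z) := by
    intro X Y Z W h1 h2 h3 h4 h5 h6 o ho1 ho2
    rcases lP X Z (p X) o (p Z) (hp1 X Z h2) ho1 (hp1' X Z h2) with h | h | h
    · exact h
    · exfalso
      rcases btw_split hT (p W) h with h' | h'
      · exact hp2 X Y W h1 h3 h5 (cP Y W _ _ _ ho2 (hp1' Y W h5) h')
      · exact hp2 X W Z h3 h2 h6.symm (cP W Z _ _ _ (hp1 W Z h6.symm) (hp1' W Z h6.symm) h')
    · exfalso
      rcases btw_split hT (p W) h with h' | h'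
      · exact hp2 Z X W h2.symm h6 h3 (cP X W _ _ _ (hp1 X W h3) (hp1' X W h3) h')
      · exact hp2 Z Y W h4.symm h6 h5 (cP Y W _ _ _ (hp1' Y W h5) ho2 h')
  have hlow : ∀ X Y Z W, X ≠ Y → X ≠ Z → X ≠ W → Y ≠ Z → Y ≠ W → Z ≠ W →
      WinK T K (P X Z) (P Y W) →
      T.dist (p X) (p Y) + T.dist (p Z) (p W) + 2 * K ≤ T.dist (p X) (p Z) + T.dist (p Y) (p W) ∨
      T.dist (p X) (p W) + T.dist (p Y) (p Z) + 2 * K ≤
        T.dist (p X) (p Z) + T.dist (p Y) (p W) := by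
    rintro X Y Z W h1 h2 h3 h4 h5 h6 ⟨y, z, k1, k2, k3, k4, k5⟩
    exact lowerK hT (hbtw X Y Z W h1 h2 h3 h4 h5 h6 y k1 k2)
      (hbtw X Y Z W h1 h2 h3 h4 h5 h6 z k3 k4)
      (hbtw Y X W Z h1.symm h5 h4 h3 h2 h6.symm y k2 k1)
      (hbtw Y X W Z h1.symm h5 h4 h3 h2 h6.symm z k4 k3) k5
  have hh : ∀ i j, ∃ k, T.dist (p o) (p i) + T.dist (p o) (p j) = T.dist (p i) (p j) + 2 * k := by
    intro i j
    obtain ⟨m, m1, m2, m3⟩ := exists_median hT (p o) (p i) (p j)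
    have s1 : T.dist (p i) m = T.dist m (p i) := dist_comm
    exact ⟨T.dist (p o) m, by unfold Btw at *; omega⟩
  choose h hh using hh
  have hc : ∀ i j, T.dist (p i) (p j) = T.dist (p j) (p i) := fun i j => dist_comm
  refine ⟨h, ?_, ?_, ?_, ?_, ?_⟩
  · intro i j
    have := hh i j; have := hh j i; have := hc i j
    omega
  · intro i j k
    have := four_point hT (p i) (p k) (p j) (p o)
    have := hh i j; have := hh i k; have := hh j k
    have := hc j o; have := hc k o; have := hc i o; have := hc k j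
    omega
  · intro i
    have := hh i o; have := hc i o
    have : T.dist (p o) (p o) = 0 := SimpleGraph.dist_self
    omega
  · intro X Y Z W h1 h2 h3 h4 h5 h6 k1 k2
    have a1 := hlow X Y Z W h1 h2 h3 h4 h5 h6 k1
    have a2 := hlow X Y W Z h1 h3 h2 h5 h4 h6.symm k2
    have := hc W Z
    have := hh X Y; have := hh Z W; have := hh X Z; have := hh Y W
    omega
  · intro X Y Z W h1 h2 hn
    have := upperK hK hT (cP X Z) (cP Y W) (hp1 X Z h1) (hp1' X Z h1) (hp1 Y W h2)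
      (hp1' Y W h2) hn
    have := hh X Y; have := hh Z W; have := hh X Z; have := hh Y W
    omega

end Pool.Agent.P.MP_ebe746_co.Cl
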