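import Mathlib

set_option autoImplicit false

namespace Pool.Agent.P.MP_ebe746_co.Cl

/-- `G` has an (h,s,p)-subtree representation: a host tree `T` of maximum degree at most `h`,
subtrees `S v` of maximum degree at most `s`, and distinct `u, v` are adjacent exactly when
`S u` and `S v` have at least `p` vertices in common. -/
def HasRep (h s : ℕ∞) (p : ℕ) {n : ℕ} (G : SimpleGraph (Fin n)) : Prop :=
  ∃ (m : ℕ) (T : SimpleGraph (Fin m)) (S : Fin n → Set (Fin m)),
    T.IsTree ∧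
    (∀ w, ((T.neighborSet w).ncard : ℕ∞) ≤ h) ∧
    (∀ v, (S v).Nonempty ∧ (T.induce (S v)).Connected) ∧
    (∀ v, ∀ w ∈ S v, ((T.neighborSet w ∩ S v).ncard : ℕ∞) ≤ s) ∧
    (∀ u v, u ≠ v → (G.Adj u v ↔ p ≤ (S u ∩ S v).ncard))

end Pool.Agent.P.MP_ebe746_co.Cl
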