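import Pool.Agent.P.MP_ebe746_co.ClArith

set_option autoImplicit false

namespace Pool.Agent.P.MP_ebe746_co.Cl

def Agree (X Y : ℕ → Bool) (n : ℕ) : Prop := ∀ i < n, X i = Y i

lemma Agree.refl (X : ℕ → Bool) (n : ℕ) : Agree X X n := fun _ _ => rfl
lemma Agree.symm {X Y : ℕ → Bool} {n : ℕ} (h : Agree X Y n) : Agree Y X n :=
  fun i hi => (h i hi).symm
lemma Agree.trans {X Y Z : ℕ → Bool} {n : ℕ} (h : Agree X Y n) (h' : Agree Y Z n) :
    Agree X Z n := fun i hi => (h i hi).trans (h' i hi)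
lemma Agree.mono {X Y : ℕ → Bool} {n m : ℕ} (h : Agree X Y n) (hm : m ≤ n) : Agree X Y m :=
  fun i hi => h i (by omega)
lemma agree_update (X : ℕ → Bool) (n : ℕ) (c : Bool) : Agree (Function.update X n c) X n :=
  fun i hi => Function.update_of_ne (by omega) _ _

/-- heights of the branch points of a binary tree, with the two threshold conditions -/
structure Pot (k K R : ℕ) (H : ℕ → (ℕ → Bool) → ℤ) : Prop where
  loc : ∀ n X Y, Agree X Y n → H n X = H n Y
  mono : ∀ n X, n + 1 ≤ R → H n X ≤ H (n + 1) X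
  lo : ∀ d X Y a b, Agree X Y d → X d ≠ Y d → a + b = k → d + k ≤ R →
    K + 2 * H d X ≤ H (d + a) X + H (d + b) Y
  up : ∀ d X Y a b, Agree X Y d → X d ≠ Y d → a + b + 1 = k → d + k ≤ R →
    H (d + a) X + H (d + b) Y + 1 ≤ K + 2 * H d X

section game

variable (k : ℕ) (Ψ : ℕ → (ℕ → Bool) → ℤ)

def Low (d : ℕ) (X : ℕ → Bool) (c : Bool) : Prop :=
  ∃ Y, Agree Y X d ∧ Y d = c ∧ ∀ a, 1 ≤ a → a ≤ k → Ψ (d + a) Y < Ψ d Y

def Rec (d : ℕ) (X : ℕ → Bool) : Prop := ∀ e ≤ d, Ψ e X ≤ Ψ d X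

def InZ (n : ℕ) (X : ℕ → Bool) : Prop := ∀ d < n, Rec Ψ d X → ¬ Low k Ψ d X (X d)

variable {k Ψ}

lemma Low.congr {d : ℕ} {X X' : ℕ → Bool} {c : Bool} (h : Low k Ψ d X c) (hX : Agree X X' d) :
    Low k Ψ d X' c := by
  obtain ⟨Y, h1, h2, h3⟩ := h
  exact ⟨Y, h1.trans hX, h2, h3⟩

lemma Rec.congr (hloc : ∀ n X Y, Agree X Y n → Ψ n X = Ψ n Y) {d : ℕ} {X X' : ℕ → Bool}
    (h : Rec Ψ d X) (hX : Agree X X' d) : Rec Ψ d X' := by
  intro e he
  rw [← hloc e X X' (hX.mono he), ← hloc d X X' hX]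
  exact h e he

lemma InZ.congr (hloc : ∀ n X Y, Agree X Y n → Ψ n X = Ψ n Y) {n : ℕ} {X X' : ℕ → Bool}
    (h : InZ k Ψ n X) (hX : Agree X X' n) : InZ k Ψ n X' := by
  intro d hd hr hl
  refine h d hd (hr.congr hloc (hX.symm.mono hd.le)) ?_
  rw [hX d hd]
  exact hl.congr (hX.symm.mono hd.le)

lemma InZ.mono {n m : ℕ} {X : ℕ → Bool} (h : InZ k Ψ n X) (hm : m ≤ n) : InZ k Ψ m X :=
  fun d hd => h d (by omega)

lemma InZ.step (hloc : ∀ n X Y, Agree X Y n → Ψ n X = Ψ n Y) {n : ℕ} {X : ℕ → Bool}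
    (h : InZ k Ψ n X) (c : Bool) (hc : Rec Ψ n X → ¬ Low k Ψ n X c) :
    InZ k Ψ (n + 1) (Function.update X n c) := by
  intro d hd
  rcases Nat.lt_succ_iff_lt_or_eq.mp hd with hd | rfl
  · exact h.congr hloc (agree_update X n c).symm d hd
  · intro hr hl
    rw [Function.update_self] at hl
    exact hc (hr.congr hloc (agree_update X d c)) (hl.congr (agree_update X d c))

lemma InZ.extend (hloc : ∀ n X Y, Agree X Y n → Ψ n X = Ψ n Y) {R : ℕ}
    (hα : ∀ d X, d + k ≤ R → ∃ c, ¬ Low k Ψ d X c) (j : ℕ) {n : ℕ} {X : ℕ → Bool}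
    (h : InZ k Ψ n X) (hn : n + j + k ≤ R) : ∃ X', Agree X' X n ∧ InZ k Ψ (n + j) X' := by
  induction j with
  | zero => exact ⟨X, Agree.refl _ _, h⟩
  | succ j ih =>
    obtain ⟨X', h1, h2⟩ := ih (by omega)
    obtain ⟨c, hc⟩ := hα (n + j) X' (by omega)
    exact ⟨_, ((agree_update X' (n + j) c).mono (by omega)).trans h1,
      h2.step hloc c (fun _ => hc)⟩

lemma InZ.last_rec (hk : 1 ≤ k) {n : ℕ} {X : ℕ → Bool} (h : InZ k Ψ n X) :
    ∃ e ≤ n, n < e + k ∧ Ψ 0 X ≤ Ψ e X := by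
  classical
  have h0 : Rec Ψ 0 X := by
    intro e he
    obtain rfl : e = 0 := by omega
    exact le_rfl
  set e := Nat.findGreatest (fun d => Rec Ψ d X) n with he
  have he1 : e ≤ n := Nat.findGreatest_le n
  have he2 : Rec Ψ e X := Nat.findGreatest_spec (P := fun d => Rec Ψ d X) (Nat.zero_le n) h0
  have he3 : ∀ m, e < m → m ≤ n → Ψ m X < Ψ e X := by
    intro m
    induction m using Nat.strong_induction_on with
    | _ m ih =>
      intro h1 h2
      by_contra hc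
      push Not at hc
      refine Nat.findGreatest_is_greatest (P := fun d => Rec Ψ d X) h1 h2 ?_
      intro f hf
      by_cases hfe : f ≤ e
      · exact (he2 f hfe).trans hc
      · rcases eq_or_lt_of_le hf with rfl | hf'
        · exact le_rfl
        · exact ((ih f hf' (by omega) (by omega)).le).trans hc
  refine ⟨e, he1, ?_, he2 0 (Nat.zero_le _)⟩
  by_contra hc
  exact h e (by omega) he2 ⟨X, Agree.refl _ _, rfl, fun a h1 h2 => he3 _ (by omega) (by omega)⟩

end game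

lemma Pot.mono' {k K R : ℕ} {H : ℕ → (ℕ → Bool) → ℤ} (h : Pot k K R H) (X : ℕ → Bool) (e n : ℕ)
    (h1 : e ≤ n) (h2 : n ≤ R) : H e X ≤ H n X := by
  induction n, h1 using Nat.le_induction with
  | base => exact le_rfl
  | succ n _ ih => exact (ih (by omega)).trans (h.mono n X h2)

lemma Pot.vert {k K R : ℕ} {H : ℕ → (ℕ → Bool) → ℤ} (h : Pot k K R H) (X : ℕ → Bool) (d a : ℕ)
    (ha : a + 1 = k) (hd : d + k ≤ R) : H (d + a) X + 1 ≤ K + H d X := by
  have h1 := h.up d X (Function.update X d (!X d)) a 0 (agree_update _ _ _).symm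
    (by rw [Function.update_self]; cases X d <;> simp) (by omega) hd
  have h2 := h.loc d _ _ (agree_update X d (!X d))
  rw [add_zero] at h1
  omega

lemma le_floor_of (D i a : ℕ) (S : ℤ) (hD : 0 < D) (hi : 1 ≤ i) (ha : a ∣ D)
    (h : (D : ℤ) * S < i * a) : S ≤ ⌊(((i - 1 : ℕ) : ℝ) / D) * a⌋ := by
  obtain ⟨c, rfl⟩ := ha
  have ha0 : 0 < a := Nat.pos_of_mul_pos_right hD
  have h1 : (c : ℤ) * S < i := by
    by_contra hc
    push Not at hc
    have := mul_le_mul_of_nonneg_left hc (show (0 : ℤ) ≤ a by positivity)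
    push_cast at h
    nlinarith
  have h2 : (c : ℤ) * S ≤ (i - 1 : ℕ) := by omega
  have h3 : (c : ℝ) * S ≤ (i - 1 : ℕ) := by exact_mod_cast h2
  have hD' : (0 : ℝ) < ((a * c : ℕ) : ℝ) := by exact_mod_cast hD
  rw [Int.le_floor, div_mul_eq_mul_div, le_div_iff₀ hD']
  have := mul_le_mul_of_nonneg_left h3 (show (0 : ℝ) ≤ a by positivity)
  push_cast at this ⊢
  nlinarith

lemma ceil_le_of (D i a : ℕ) (S : ℤ) (hD : 0 < D) (h : (i : ℤ) * a ≤ D * S) :
    ⌈((i : ℝ) / D) * a⌉ ≤ S := by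
  have hD' : (0 : ℝ) < D := by exact_mod_cast hD
  rw [Int.ceil_le, div_mul_eq_mul_div, div_le_iff₀ hD']
  have : (i : ℝ) * a ≤ D * S := by exact_mod_cast h
  linarith

/-- depth needed for the game -/
def rad (k K : ℕ) : ℕ := k * (k.factorial * K + k * (K * k.factorial)) + 5 * k

theorem game {k K : ℕ} {H : ℕ → (ℕ → Bool) → ℤ} (hk : 1 ≤ k) (h : Pot k K (rad k K) H) (i : ℕ)
    (hi1 : 1 ≤ i) (hi : i ≤ K * k.factorial) :
    LoB k K (((i - 1 : ℕ) : ℝ) / k.factorial) ∨ UpB k K ((i : ℝ) / k.factorial) := by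
  set D := k.factorial with hD
  have hD0 : 0 < D := Nat.factorial_pos k
  set Ψ : ℕ → (ℕ → Bool) → ℤ := fun n X => D * H n X - i * n with hΨ
  have hloc : ∀ n X Y, Agree X Y n → Ψ n X = Ψ n Y := by
    intro n X Y hXY
    simp only [hΨ, h.loc n X Y hXY]
  by_cases hα : ∃ d X, d + k ≤ rad k K ∧ Low k Ψ d X false ∧ Low k Ψ d X true
  · left
    obtain ⟨d, X, hd, ⟨Y, hY1, hY2, hY3⟩, ⟨Z, hZ1, hZ2, hZ3⟩⟩ := hα
    have key : ∀ (W : ℕ → Bool) (a : ℕ), a ≤ k →
        (∀ a, 1 ≤ a → a ≤ k → Ψ (d + a) W < Ψ d W) →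
        H (d + a) W - H d W ≤ ⌊(((i - 1 : ℕ) : ℝ) / D) * a⌋ := by
      intro W a ha hW
      rcases Nat.eq_zero_or_pos a with rfl | ha0
      · simp
      · refine le_floor_of D i a _ hD0 hi1 (Nat.dvd_factorial ha0 ha) ?_
        have := hW a ha0 ha
        simp only [hΨ] at this
        push_cast at this
        linarith
    intro a b hab
    have h1 := h.lo d Y Z a b (hY1.trans hZ1.symm) (by rw [hY2, hZ2]; simp) hab hd
    have h2 := key Y a (by omega) hY3
    have h3 := key Z b (by omega) hZ3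
    have h4 := h.loc d Y Z (hY1.trans hZ1.symm)
    omega
  right
  have hα' : ∀ d X, d + k ≤ rad k K → ∃ c, ¬ Low k Ψ d X c := by
    intro d X hd
    by_contra hc
    push Not at hc
    exact hα ⟨d, X, hd, hc false, hc true⟩
  obtain ⟨j, rfl⟩ : ∃ j, k = j + 1 := ⟨k - 1, by omega⟩
  set B := (j + 1) * (D * K + (j + 1) * (K * D)) with hB
  have hrad : rad (j + 1) K = B + 5 * (j + 1) := rfl
  set c0 : ℤ := H 0 (fun _ => false) with hc0
  have h00 : ∀ X, H 0 X = c0 := fun X => h.loc 0 _ _ (fun i hi => by omega)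
  have hiz : (i : ℤ) ≤ K * D := by exact_mod_cast hi
  have hlow : ∀ n X, n ≤ rad (j + 1) K → InZ (j + 1) Ψ n X →
      D * c0 - (j + 1) * (K * D) ≤ Ψ n X := by
    intro n X hn hX
    obtain ⟨e, he1, he2, he3⟩ := hX.last_rec hk
    have h1 := h.mono' X e n he1 hn
    simp only [hΨ, h00] at he3 ⊢
    have h2 := mul_le_mul_of_nonneg_left h1 (show (0 : ℤ) ≤ D by positivity)
    have h3 : (n : ℤ) ≤ e + (j + 1) := by omega
    have h4 := mul_le_mul_of_nonneg_left h3 (show (0 : ℤ) ≤ i by positivity)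
    have h5 := mul_le_mul_of_nonneg_left hiz (show (0 : ℤ) ≤ j + 1 by positivity)
    push_cast at he3
    nlinarith
  obtain ⟨X0, -, hX0⟩ := InZ.extend hloc hα' j (n := 0) (X := fun _ => false)
    (fun d hd => by omega) (by omega)
  rw [zero_add] at hX0
  have hX0' : Ψ j X0 ≤ D * c0 + D * K := by
    have h1 := h.vert X0 0 j rfl (by omega)
    rw [zero_add, h00] at h1
    simp only [hΨ]
    have h2 : H j X0 ≤ K + c0 := by omega
    have h3 := mul_le_mul_of_nonneg_left h2 (show (0 : ℤ) ≤ D by positivity)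
    have h4 : (0 : ℤ) ≤ i * j := by positivity
    nlinarith
  obtain ⟨v, ⟨n, X, hn1, hn2, hX, rfl⟩, hmin⟩ := Int.exists_least_of_bdd
    (P := fun v => ∃ n X, j ≤ n ∧ n ≤ rad (j + 1) K ∧ InZ (j + 1) Ψ n X ∧
      v = (j + 1) * Ψ n X + n)
    ⟨(j + 1) * (D * c0 - (j + 1) * (K * D)), by
      rintro v ⟨n, X, -, hn, hX, rfl⟩
      have := mul_le_mul_of_nonneg_left (hlow n X hn hX) (show (0 : ℤ) ≤ j + 1 by positivity)
      omega⟩
    ⟨_, j, X0, le_rfl, by omega, hX0, rfl⟩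
  have hnB : n ≤ B + j := by
    have h1 := hmin _ ⟨j, X0, le_rfl, by omega, hX0, rfl⟩
    have h2 := mul_le_mul_of_nonneg_left (hlow n X hn2 hX) (show (0 : ℤ) ≤ j + 1 by positivity)
    have h3 := mul_le_mul_of_nonneg_left hX0' (show (0 : ℤ) ≤ j + 1 by positivity)
    have h4 : (B : ℤ) = (j + 1) * (D * K + (j + 1) * (K * D)) := by rw [hB]; push_cast; ring
    have : (n : ℤ) ≤ B + j := by nlinarith
    exact_mod_cast this
  have hhigh : ∀ X', Agree X' X n → InZ (j + 1) Ψ (n + j) X' → ∀ a ≤ j,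
      ⌈((i : ℝ) / D) * a⌉ ≤ H (n + a) X' - H n X' := by
    intro X' h1 h2 a ha
    refine ceil_le_of D i a _ hD0 ?_
    have h3 := hmin _ ⟨n + a, X', by omega, by omega, h2.mono (by omega), rfl⟩
    rw [← hloc n X' X h1] at h3
    have h4 : Ψ n X' ≤ Ψ (n + a) X' := by
      by_contra hc
      have h5 : Ψ (n + a) X' + 1 ≤ Ψ n X' := by omega
      have h6 := mul_le_mul_of_nonneg_left h5 (show (0 : ℤ) ≤ j + 1 by positivity)
      push_cast at h3
      have : (a : ℤ) ≤ j := by exact_mod_cast ha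
      nlinarith
    simp only [hΨ] at h4
    push_cast at h4
    linarith
  intro a b hab
  by_cases hr : Rec Ψ n X
  · obtain ⟨X', h1, h2⟩ := hX.extend hloc hα' j (by omega)
    obtain ⟨d, rfl⟩ : ∃ d, n = d + a := ⟨n - a, by omega⟩
    have h3 := h.vert X' d (a + b) hab (by omega)
    have h4 := hhigh X' h1 h2 b (by omega)
    have h5 : ⌈((i : ℝ) / D) * a⌉ ≤ H (d + a) X' - H d X' := by
      refine ceil_le_of D i a _ hD0 ?_
      have := (hr.congr hloc h1.symm) d (by omega)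
      simp only [hΨ] at this
      push_cast at this
      linarith
    rw [← add_assoc] at h3
    omega
  · have hc : ∀ c, ∃ X', Agree X' X n ∧ X' n = c ∧ InZ (j + 1) Ψ (n + j) X' := by
      intro c
      obtain ⟨X', h1, h2⟩ := (hX.step hloc c (fun h => absurd h hr)).extend hloc hα' j (by omega)
      refine ⟨X', (h1.mono (by omega)).trans (agree_update X n c), ?_, h2.mono (by omega)⟩
      rw [h1 n (by omega), Function.update_self]
    obtain ⟨Y, hY1, hY2, hY3⟩ := hc false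
    obtain ⟨Z, hZ1, hZ2, hZ3⟩ := hc true
    have h1 := h.up n Y Z a b (hY1.trans hZ1.symm) (by rw [hY2, hZ2]; simp) hab (by omega)
    have h2 := hhigh Y hY1 hY3 a (by omega)
    have h3 := hhigh Z hZ1 hZ3 b (by omega)
    have h4 := h.loc n Y Z (hY1.trans hZ1.symm)
    omega

theorem cond_of_pot {k K : ℕ} {H : ℕ → (ℕ → Bool) → ℤ} (hk : 1 ≤ k) (hK : 1 ≤ K)
    (h : Pot k K (rad k K) H) : Cond k K := by
  classical
  have hD : (0 : ℝ) < k.factorial := by exact_mod_cast Nat.factorial_pos k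
  have htop : LoB k K (((K * k.factorial : ℕ) : ℝ) / k.factorial) := by
    intro a b hab
    have e : (((K * k.factorial : ℕ) : ℝ) / k.factorial) = K := by
      push_cast; field_simp
    have e1 : ∀ a : ℕ, ⌊(K : ℝ) * a⌋ = (K : ℤ) * a := by
      intro a
      rw [← Int.floor_intCast (R := ℝ) ((K : ℤ) * a)]; push_cast; rfl
    rw [e, e1, e1, ← mul_add]
    have : (1 : ℤ) ≤ a + b := by omega
    nlinarith
  have hex : ∃ i : ℕ, LoB k K ((i : ℝ) / k.factorial) := ⟨_, htop⟩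
  have h1 := Nat.find_spec hex
  have h2 : Nat.find hex ≤ K * k.factorial := Nat.find_min' hex htop
  have h3 : 1 ≤ Nat.find hex := by
    by_contra hc
    have h0 : Nat.find hex = 0 := by omega
    rw [h0] at h1
    have := h1 0 k (by omega)
    simp at this
    omega
  rcases game hk h _ h3 h2 with h4 | h4
  · exact absurd h4 (Nat.find_min hex (by omega))
  · exact cond_of_beatty k K hk _ h1 h4

end Pool.Agent.P.MP_ebe746_co.Cl
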