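import Pool.Agent.P.MP_ebe746_co.ClPar
import Pool.Agent.P.MP_ebe746_co.ClGame

set_option autoImplicit false

namespace Pool.Agent.P.MP_ebe746_co.Cl

open SimpleGraph

/-- the vertex at depth `n` on the ray `X` -/
def node (X : ℕ → Bool) : ℕ → List Bool
  | 0 => []
  | n + 1 => X n :: node X n

lemma node_length (X : ℕ → Bool) (n : ℕ) : (node X n).length = n := by
  induction n with
  | zero => rfl
  | succ n ih => simp [node, ih]

lemma node_eq_iff (X Y : ℕ → Bool) (n : ℕ) : node X n = node Y n ↔ Agree X Y n := by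
  induction n with
  | zero => exact ⟨fun _ i hi => by omega, fun _ => rfl⟩
  | succ n ih =>
    simp only [node, List.cons.injEq, ih]
    constructor
    · rintro ⟨h1, h2⟩ i hi
      rcases Nat.lt_succ_iff_lt_or_eq.mp hi with h | rfl
      · exact h2 i h
      · exact h1
    · intro h
      exact ⟨h n (by omega), h.mono (by omega)⟩

lemma node_inj {X Y : ℕ → Bool} {n m : ℕ} (h : node X n = node Y m) : n = m ∧ Agree X Y n := by
  have h1 : n = m := by rw [← node_length X n, h, node_length]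
  subst h1
  exact ⟨rfl, (node_eq_iff X Y n).mp h⟩

/-- vertices of the binary tree of depth `M` -/
abbrev BT (M : ℕ) : Type := {l : List Bool // l.length ≤ M}

instance (M : ℕ) : Finite (BT M) := (List.finite_length_le Bool M).to_subtype

def bRoot (M : ℕ) : BT M := ⟨[], Nat.zero_le _⟩

def bPar {M : ℕ} (w : BT M) : BT M := ⟨w.1.tail, by have := w.2; rw [List.length_tail]; omega⟩

def bTree (M : ℕ) : SimpleGraph (BT M) := parG (bRoot M) bPar

lemma bPar_lt {M : ℕ} (w : BT M) (h : w ≠ bRoot M) : (bPar w).1.length < w.1.length := by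
  obtain ⟨l, hl⟩ := w
  cases l with
  | nil => exact absurd rfl h
  | cons a l => simp [bPar]

lemma bTree_isTree (M : ℕ) : (bTree M).IsTree := par_isTree (fun w => w.1.length) bPar_lt

lemma bTree_adj {M : ℕ} {w x : BT M} (h : (bTree M).Adj w x) :
    (∃ c, w.1 = c :: x.1) ∨ ∃ c, x.1 = c :: w.1 := by
  obtain ⟨-, ⟨h0, h⟩ | ⟨h0, h⟩⟩ := h
  · left
    obtain ⟨l, hl⟩ := w
    cases l with
    | nil => exact absurd rfl h0
    | cons a l => exact ⟨a, by rw [← h]; rfl⟩
  · right
    obtain ⟨l, hl⟩ := x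
    cases l with
    | nil => exact absurd rfl h0
    | cons a l => exact ⟨a, by rw [← h]; rfl⟩

lemma ncard_le_list {M : ℕ} (A : Set (BT M)) (l : List (List Bool)) (h : ∀ x ∈ A, x.1 ∈ l) :
    A.ncard ≤ l.length := by
  have h1 : A.ncard ≤ (l.toFinset : Set (List Bool)).ncard :=
    Set.ncard_le_ncard_of_injOn Subtype.val (fun x hx => by simpa using h x hx)
      Subtype.val_injective.injOn
  rw [Set.ncard_coe_finset] at h1
  exact h1.trans (List.toFinset_card_le l)

lemma bTree_deg {M : ℕ} (w : BT M) : ((bTree M).neighborSet w).ncard ≤ 3 := by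
  refine ncard_le_list _ [w.1.tail, false :: w.1, true :: w.1] ?_
  intro x hx
  rcases bTree_adj hx with ⟨c, h⟩ | ⟨c, h⟩
  · simp [h]
  · cases c <;> simp [h]

/-- the part of a ray between two depths -/
def chain (M : ℕ) (X : ℕ → Bool) (a b : ℕ) : Set (BT M) :=
  {w | ∃ n, a ≤ n ∧ n ≤ b ∧ w.1 = node X n}

lemma chain_card {M : ℕ} (X : ℕ → Bool) (a : ℕ) {b : ℕ} (hb : b ≤ M) :
    (chain M X a b).ncard = b + 1 - a := by
  have h1 : chain M X a b = Subtype.val ⁻¹' (node X '' Set.Icc a b) := by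
    ext w
    constructor
    · rintro ⟨n, h1, h2, h3⟩; exact ⟨n, ⟨h1, h2⟩, h3.symm⟩
    · rintro ⟨n, ⟨h1, h2⟩, h3⟩; exact ⟨n, h1, h2, h3.symm⟩
  rw [h1, Set.ncard_preimage_of_injective_subset_range Subtype.val_injective,
    Set.ncard_image_of_injective _ (fun _ _ h => (node_inj h).1)]
  · simp
  · rintro _ ⟨n, ⟨-, h2⟩, rfl⟩
    exact ⟨⟨node X n, by rw [node_length]; omega⟩, rfl⟩

lemma chain_mono {M : ℕ} {X Y : ℕ → Bool} {a b a' b' : ℕ} (h : Agree X Y b) (ha : a' ≤ a)
    (hb : b ≤ b') : chain M X a b ⊆ chain M Y a' b' := by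
  rintro w ⟨n, h1, h2, h3⟩
  exact ⟨n, by omega, by omega, by rw [h3]; exact (node_eq_iff X Y n).mpr (h.mono h2)⟩

lemma vee_conn {M : ℕ} {X Y : ℕ → Bool} {d e f : ℕ} (h : Agree X Y d) (he : d ≤ e) (hM : d ≤ M) :
    (chain M X d e ∪ chain M Y d f).Nonempty ∧
      ((bTree M).induce (chain M X d e ∪ chain M Y d f)).Connected := by
  let t : BT M := ⟨node X d, by rw [node_length]; exact hM⟩
  have ht : t ∈ chain M X d e ∪ chain M Y d f := Or.inl ⟨d, le_rfl, he, rfl⟩
  refine ⟨⟨t, ht⟩, par_conn (fun w => w.1.length) bPar_lt _ t ht ?_⟩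
  have key : ∀ (Z : ℕ → Bool) (g : ℕ), Agree X Z d → ∀ w ∈ chain M Z d g, w ≠ t →
      w ≠ bRoot M ∧ bPar w ∈ chain M Z d g := by
    rintro Z g hZ w ⟨n, h1, h2, h3⟩ hw
    have hn : n ≠ d := by
      rintro rfl
      exact hw (Subtype.ext (h3.trans ((node_eq_iff X Z n).mpr hZ).symm))
    obtain ⟨m, rfl⟩ : ∃ m, n = m + 1 := ⟨n - 1, by omega⟩
    refine ⟨?_, m, by omega, by omega, ?_⟩
    · rintro rfl
      simp [bRoot, node] at h3
    · simp [bPar, h3, node]
  rintro w (hw | hw) hwt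
  · exact ⟨(key X e (Agree.refl _ _) w hw hwt).1, Or.inl (key X e (Agree.refl _ _) w hw hwt).2⟩
  · exact ⟨(key Y f h w hw hwt).1, Or.inr (key Y f h w hw hwt).2⟩

lemma vee_deg {M : ℕ} {X Y : ℕ → Bool} {d e f : ℕ} (h : X d ≠ Y d ∨ X = Y) (w : BT M)
    (hw : w ∈ chain M X d e ∪ chain M Y d f) :
    ((bTree M).neighborSet w ∩ (chain M X d e ∪ chain M Y d f)).ncard ≤ 2 := by
  have hlen : ∀ x ∈ chain M X d e ∪ chain M Y d f, d ≤ x.1.length ∧
      (x.1 = node X x.1.length ∨ x.1 = node Y x.1.length) := by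
    rintro x (⟨n, h1, h2, h3⟩ | ⟨n, h1, h2, h3⟩)
    · rw [h3, node_length]; exact ⟨h1, Or.inl rfl⟩
    · rw [h3, node_length]; exact ⟨h1, Or.inr rfl⟩
  by_cases hd : w.1.length = d
  · refine ncard_le_list _ [false :: w.1, true :: w.1] ?_
    rintro x ⟨hx, hx2⟩
    rcases bTree_adj hx with ⟨c, h⟩ | ⟨c, h⟩
    · have := (hlen x hx2).1
      rw [h, List.length_cons] at hd
      omega
    · cases c <;> simp [h]
  · have key : ∀ Z : ℕ → Bool, (Z = X ∨ Z = Y) → w.1 = node Z w.1.length →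
        ((bTree M).neighborSet w ∩ (chain M X d e ∪ chain M Y d f)).ncard ≤ 2 := by
      intro Z hZ hwZ
      refine ncard_le_list _ [w.1.tail, node Z (w.1.length + 1)] ?_
      rintro x ⟨hx, hx2⟩
      rcases bTree_adj hx with ⟨c, h'⟩ | ⟨c, h'⟩
      · simp [h']
      · have hl : x.1.length = w.1.length + 1 := by rw [h', List.length_cons]
        have k2 : ∀ Z' : ℕ → Bool, (Z' = X ∨ Z' = Y) → x.1 = node Z' (w.1.length + 1) →
            x.1 = node Z (w.1.length + 1) := by
          intro Z' hZ' hx'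
          have e1 : w.1 = node Z' w.1.length := by
            rw [h', node] at hx'
            exact (List.cons.inj hx').2
          have e2 : Agree Z Z' w.1.length := (node_eq_iff _ _ _).mp (hwZ.symm.trans e1)
          have e3 : Z d = Z' d := e2 d (lt_of_le_of_ne (hlen w hw).1 (Ne.symm hd))
          have e4 : Z = Z' := by
            rcases h with h | h
            · rcases hZ with rfl | rfl <;> rcases hZ' with rfl | rfl
              · rfl
              · exact absurd e3 h
              · exact absurd e3.symm h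
              · rfl
            · subst h
              rcases hZ with rfl | rfl <;> rcases hZ' with rfl | rfl <;> rfl
          rw [e4]; exact hx'
        have := (hlen x hx2).2
        rw [hl] at this
        rcases this with h1 | h1
        · simp [k2 X (Or.inl rfl) h1]
        · simp [k2 Y (Or.inr rfl) h1]
    rcases (hlen w hw).2 with h1 | h1
    · exact key X (Or.inl rfl) h1
    · exact key Y (Or.inr rfl) h1

/-- leaves -/
abbrev Lf (N : ℕ) : Type := Fin N → Bool

def ray {N : ℕ} (x : Lf N) : ℕ → Bool := fun i => if h : i < N then x ⟨i, h⟩ else false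

lemma eq_of_agree {N : ℕ} {x y : Lf N} (h : Agree (ray x) (ray y) N) : x = y := by
  funext i
  have := h i i.2
  simpa [ray] using this

open Classical in
/-- depth at which two leaves separate -/
noncomputable def dv {N : ℕ} (x y : Lf N) : ℕ :=
  Nat.findGreatest (fun n => Agree (ray x) (ray y) n) N

lemma dv_le {N : ℕ} (x y : Lf N) : dv x y ≤ N := by
  classical
  exact Nat.findGreatest_le N

lemma dv_agree {N : ℕ} (x y : Lf N) : Agree (ray x) (ray y) (dv x y) := by
  classical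
  exact Nat.findGreatest_spec (P := fun n => Agree (ray x) (ray y) n) (Nat.zero_le N)
    (fun i hi => by omega)

lemma le_dv {N : ℕ} {x y : Lf N} (hxy : x ≠ y) {n : ℕ} (h : Agree (ray x) (ray y) n) :
    n ≤ dv x y := by
  classical
  have hn : n ≤ N := by
    by_contra hc
    exact hxy (eq_of_agree (h.mono (by omega)))
  exact Nat.le_findGreatest hn h

lemma dv_ne {N : ℕ} {x y : Lf N} (hxy : x ≠ y) : ray x (dv x y) ≠ ray y (dv x y) := by
  intro h
  have : dv x y + 1 ≤ dv x y := by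
    refine le_dv hxy ?_
    intro i hi
    rcases Nat.lt_succ_iff_lt_or_eq.mp hi with h' | rfl
    · exact dv_agree x y i h'
    · exact h
  omega

lemma dv_eq {N : ℕ} {x y : Lf N} {d : ℕ} (h1 : Agree (ray x) (ray y) d)
    (h2 : ray x d ≠ ray y d) : x ≠ y ∧ dv x y = d := by
  have hne : x ≠ y := by rintro rfl; exact h2 rfl
  refine ⟨hne, le_antisymm ?_ (le_dv hne h1)⟩
  by_contra hc
  exact h2 (dv_agree x y d (by omega))

lemma dv_comm {N : ℕ} (x y : Lf N) : dv x y = dv y x := by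
  by_cases h : x = y
  · rw [h]
  · exact le_antisymm (le_dv (Ne.symm h) (dv_agree x y).symm) (le_dv h (dv_agree y x).symm)

/-- the long path between the ends of two legs -/
noncomputable def sP (M : ℕ) {N : ℕ} (x y : Lf N) : Set (BT M) :=
  chain M (ray x) (dv x y) M ∪ chain M (ray y) (dv x y) M

lemma sP_comm (M : ℕ) {N : ℕ} (x y : Lf N) : sP M x y = sP M y x := by
  rw [sP, sP, dv_comm x y, Set.union_comm]

lemma low_card {M N : ℕ} {x y z w : Lf N} {d u v : ℕ} (hxz : x ≠ z) (h1 : dv x z = d)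
    (h2 : dv y w ≤ d) (h3 : Agree (ray x) (ray y) u) (h4 : v = d ∨ Agree (ray z) (ray w) v)
    (hu : d ≤ u) (hu' : u ≤ M) (hv : d ≤ v) (hv' : v ≤ M) :
    u + v + 1 ≤ (sP M x z ∩ sP M y w).ncard + 2 * d := by
  have hsub : chain M (ray x) d u ∪ chain M (ray z) (d + 1) v ⊆ sP M x z ∩ sP M y w := by
    rintro a (ha | ha)
    · exact ⟨Or.inl (chain_mono (Agree.refl _ _) h1.le hu' ha), Or.inl (chain_mono h3 h2 hu' ha)⟩
    · rcases h4 with rfl | h4
      · obtain ⟨n, k1, k2, -⟩ := ha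
        omega
      · exact ⟨Or.inr (chain_mono (Agree.refl _ _) (by omega) hv' ha),
          Or.inr (chain_mono h4 (by omega) hv' ha)⟩
  have hdis : Disjoint (chain M (ray x) d u) (chain M (ray z) (d + 1) v) := by
    rw [Set.disjoint_left]
    rintro a ⟨n, k1, k2, k3⟩ ⟨m, k4, k5, k6⟩
    obtain ⟨rfl, k7⟩ := node_inj (k3.symm.trans k6)
    have := le_dv hxz k7
    omega
  have := Set.ncard_le_ncard hsub (Set.toFinite _)
  rw [Set.ncard_union_eq hdis, chain_card _ _ hu', chain_card _ _ hv'] at this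
  omega

lemma up_card {M N : ℕ} {x y z w : Lf N} {d u v : ℕ} (hxy : x ≠ y) (hxw : x ≠ w) (hzy : z ≠ y)
    (hzw : z ≠ w) (h1 : dv x z = d) (h2 : dv x y ≤ u) (h3 : dv x w ≤ d) (h4 : dv z y ≤ d)
    (h5 : dv z w ≤ v) (hu : d ≤ u) (hu' : u ≤ M) (hv : d ≤ v) (hv' : v ≤ M) :
    (sP M x z ∩ sP M y w).ncard + 2 * d ≤ u + v + 1 := by
  have hsub : sP M x z ∩ sP M y w ⊆ chain M (ray x) d u ∪ chain M (ray z) (d + 1) v := by
    have hz : ∀ (a : BT M) n, d ≤ n → n ≤ v → a.1 = node (ray z) n →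
        a ∈ chain M (ray x) d u ∪ chain M (ray z) (d + 1) v := by
      intro a n k1 k2 k3
      rcases eq_or_lt_of_le k1 with rfl | k1
      · exact Or.inl ⟨d, le_rfl, hu, k3.trans
          ((node_eq_iff _ _ _).mpr (h1 ▸ dv_agree x z)).symm⟩
      · exact Or.inr ⟨n, k1, k2, k3⟩
    rintro a ⟨⟨n, k1, k2, k3⟩ | ⟨n, k1, k2, k3⟩, ⟨m, k4, k5, k6⟩ | ⟨m, k4, k5, k6⟩⟩
    all_goals obtain ⟨rfl, k7⟩ := node_inj (k3.symm.trans k6)
    · have := le_dv hxy k7
      exact Or.inl ⟨n, by omega, by omega, k3⟩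
    · have := le_dv hxw k7
      exact Or.inl ⟨n, by omega, by omega, k3⟩
    · have := le_dv hzy k7
      exact hz a n (by omega) (by omega) k3
    · have := le_dv hzw k7
      exact hz a n (by omega) (by omega) k3
  have := (Set.ncard_le_ncard hsub (Set.toFinite _)).trans (Set.ncard_union_le _ _)
  rw [chain_card _ _ hu', chain_card _ _ hv'] at this
  omega

end Pool.Agent.P.MP_ebe746_co.Cl
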