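import Pool.Agent.P.MP_ebe746_co.ClHost
import Pool.Agent.P.MP_ebe746_co.ClCore

set_option autoImplicit false

namespace Pool.Agent.P.MP_ebe746_co.Cl

open SimpleGraph

/-- the data extracted from a representation with threshold `K + 1` -/
structure Met (M N k K : ℕ) (h : Lf N → Lf N → ℕ) : Prop where
  sym : ∀ i j, h i j = h j i
  ult : ∀ i j l, h i j ≤ h i l ∨ h j l ≤ h i l
  zero : ∀ i, h i (fun _ => true) = 0
  low : ∀ X Y Z W, X ≠ Y → X ≠ Z → X ≠ W → Y ≠ Z → Y ≠ W → Z ≠ W →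
    k + 1 ≤ (sP M X Z ∩ sP M Y W).ncard → k + 1 ≤ (sP M X W ∩ sP M Y Z).ncard →
    h X Z + h Y W + K ≤ h X Y + h Z W
  up : ∀ X Y Z W, X ≠ Y → X ≠ Z → X ≠ W → Y ≠ W → (sP M X Z ∩ sP M Y W).ncard ≤ k →
    h X Y + h Z W + 1 ≤ h X Z + h Y W + K

variable {M N k K : ℕ} {h : Lf N → Lf N → ℕ}

lemma dv_top (hN : 1 ≤ N) {x : Lf N} (hx : ray x 0 = false) :
    x ≠ (fun _ => true) ∧ dv x (fun _ => true) = 0 := by
  refine dv_eq (fun i hi => by omega) ?_
  rw [hx]
  simp only [ray]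
  rw [dif_pos (by omega)]
  simp

lemma agree_le {x y : Lf N} (hxy : x ≠ y) {u : ℕ} (hu : Agree (ray x) (ray y) u) : u ≤ N :=
  (le_dv hxy hu).trans (dv_le x y)

lemma Met.vlow (H : Met M N k K h) (hM : N ≤ M) (hk : 1 ≤ k) {x y z : Lf N} {d u : ℕ}
    (hxy : x ≠ y) (h1 : Agree (ray x) (ray y) u) (h2 : Agree (ray x) (ray z) d)
    (h3 : ray x d ≠ ray z d) (h4 : d + k ≤ u) (h5 : 1 ≤ d) (h6 : ray x 0 = false) :
    h x z + K ≤ h x y := by
  have hu := agree_le hxy h1
  obtain ⟨a1, a2⟩ := dv_eq h2 h3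
  obtain ⟨b1, b2⟩ := dv_eq ((h1.symm.mono (by omega)).trans h2)
    (by rw [← h1 d (by omega)]; exact h3)
  obtain ⟨c1, c2⟩ := dv_top (by omega) h6
  obtain ⟨d1, d2⟩ := dv_top (x := y) (by omega) (by rw [← h1 0 (by omega)]; exact h6)
  obtain ⟨e1, e2⟩ := dv_top (x := z) (by omega) (by rw [← h2 0 (by omega)]; exact h6)
  have k1 := low_card (M := M) (y := y) (w := fun _ => true) (u := u) (v := d) a1 a2 (by omega) h1
    (Or.inl rfl) (by omega) (by omega) le_rfl (by omega)
  have k2 := low_card (M := M) (y := x) (w := fun _ => true) (u := u) (v := d) b1 b2 (by omega)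
    h1.symm (Or.inl rfl) (by omega) (by omega) le_rfl (by omega)
  rw [Set.inter_comm] at k2
  have := H.low x y z (fun _ => true) hxy a1 c1 b1 d1 e1 (by omega) (by omega)
  rw [H.zero, H.zero] at this
  omega

lemma Met.vup (H : Met M N k K h) (hM : N ≤ M) {x y z : Lf N} {d u : ℕ}
    (h1 : Agree (ray x) (ray y) u) (h1' : ray x u ≠ ray y u) (h2 : Agree (ray x) (ray z) d)
    (h3 : ray x d ≠ ray z d) (h4 : u + 1 ≤ d + k) (h4' : d < u) (h5 : 1 ≤ d)
    (h6 : ray x 0 = false) : h x y + 1 ≤ h x z + K := by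
  obtain ⟨hxy, f2⟩ := dv_eq h1 h1'
  have hu := agree_le hxy h1
  obtain ⟨a1, a2⟩ := dv_eq h2 h3
  obtain ⟨b1, b2⟩ := dv_eq ((h1.symm.mono (by omega)).trans h2)
    (by rw [← h1 d (by omega)]; exact h3)
  obtain ⟨c1, c2⟩ := dv_top (by omega) h6
  obtain ⟨d1, d2⟩ := dv_top (x := y) (by omega) (by rw [← h1 0 (by omega)]; exact h6)
  obtain ⟨e1, e2⟩ := dv_top (x := z) (by omega) (by rw [← h2 0 (by omega)]; exact h6)
  have k1 := up_card (M := M) (u := u) (v := d) hxy c1 b1.symm e1 a2 f2.le (by omega)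
    (by rw [dv_comm]; omega) (by omega) (by omega) (by omega) le_rfl (by omega)
  have := H.up x y z (fun _ => true) hxy a1 c1 d1 (by omega)
  rw [H.zero, H.zero] at this
  omega

lemma Met.hlow (H : Met M N k K h) (hM : N ≤ M) {x y z w : Lf N} {d u v : ℕ}
    (hxy : x ≠ y) (hzw : z ≠ w) (h1 : Agree (ray x) (ray y) u) (h2 : Agree (ray z) (ray w) v)
    (h3 : Agree (ray x) (ray z) d) (h4 : ray x d ≠ ray z d) (hu : d < u) (hv : d < v)
    (h5 : 2 * d + k ≤ u + v) : h x z + h y w + K ≤ h x y + h z w := by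
  have hu' := agree_le hxy h1
  have hv' := agree_le hzw h2
  have e1 := h1 d hu
  have e2 := h2 d hv
  obtain ⟨a1, a2⟩ := dv_eq h3 h4
  obtain ⟨b1, b2⟩ := dv_eq ((h1.symm.mono hu.le).trans h3) (by rw [← e1]; exact h4)
  obtain ⟨c1, c2⟩ := dv_eq (h3.trans (h2.mono hv.le)) (by rw [← e2]; exact h4)
  obtain ⟨d1, d2⟩ := dv_eq (((h1.symm.mono hu.le).trans h3).trans (h2.mono hv.le))
    (by rw [← e1, ← e2]; exact h4)
  have k1 := low_card (M := M) (y := y) (w := w) a1 a2 d2.le h1 (Or.inr h2) hu.le (by omega) hv.le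
    (by omega)
  have k2 := low_card (M := M) (y := y) (w := z) c1 c2 b2.le h1 (Or.inr h2.symm) hu.le (by omega)
    hv.le (by omega)
  exact H.low x y z w hxy a1 c1 b1 d1 hzw (by omega) (by omega)

lemma Met.hup (H : Met M N k K h) (hM : N ≤ M) {x y z w : Lf N} {d u v : ℕ}
    (h1 : Agree (ray x) (ray y) u) (h1' : ray x u ≠ ray y u) (h2 : Agree (ray z) (ray w) v)
    (h2' : ray z v ≠ ray w v)
    (h3 : Agree (ray x) (ray z) d) (h4 : ray x d ≠ ray z d) (hu : d < u) (hv : d < v)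
    (h5 : u + v + 1 ≤ 2 * d + k) : h x y + h z w + 1 ≤ h x z + h y w + K := by
  obtain ⟨hxy, f1⟩ := dv_eq h1 h1'
  obtain ⟨hzw, f2⟩ := dv_eq h2 h2'
  have hu' := agree_le hxy h1
  have hv' := agree_le hzw h2
  have e1 := h1 d hu
  have e2 := h2 d hv
  obtain ⟨a1, a2⟩ := dv_eq h3 h4
  obtain ⟨b1, b2⟩ := dv_eq ((h1.symm.mono hu.le).trans h3) (by rw [← e1]; exact h4)
  obtain ⟨c1, c2⟩ := dv_eq (h3.trans (h2.mono hv.le)) (by rw [← e2]; exact h4)
  obtain ⟨d1, d2⟩ := dv_eq (((h1.symm.mono hu.le).trans h3).trans (h2.mono hv.le))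
    (by rw [← e1, ← e2]; exact h4)
  have k1 := up_card (M := M) (u := u) (v := v) hxy c1 b1.symm hzw a2 f1.le c2.le
    (by rw [dv_comm]; omega) f2.le hu.le (by omega) hv.le (by omega)
  exact H.up x y z w hxy a1 c1 d1 (by omega)

/-- the leaf that follows `X` down to depth `n` and then takes the branch `c` -/
def lf (N : ℕ) (X : ℕ → Bool) (n : ℕ) (c : Bool) : Lf N :=
  fun i => if i.1 < n then X i.1 else if i.1 = n then c else false

lemma lf_agree (X : ℕ → Bool) {n : ℕ} (c : Bool) (hn : n < N) : Agree (ray (lf N X n c)) X n := by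
  intro i hi
  simp only [ray, lf]
  rw [dif_pos (by omega), if_pos hi]

lemma lf_at (X : ℕ → Bool) {n : ℕ} (c : Bool) (hn : n < N) : ray (lf N X n c) n = c := by
  simp only [ray, lf]
  rw [dif_pos hn]
  simp

lemma lf_congr {X Y : ℕ → Bool} {n : ℕ} (c : Bool) (hn : Agree X Y n) :
    lf N X n c = lf N Y n c := by
  funext i
  simp only [lf]
  split_ifs with h1
  · exact hn i h1
  · rfl
  · rfl

lemma agree_succ {X Y : ℕ → Bool} {n : ℕ} (h1 : Agree X Y n) (h2 : X n = Y n) :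
    Agree X Y (n + 1) := by
  intro i hi
  rcases Nat.lt_succ_iff_lt_or_eq.mp hi with h' | rfl
  · exact h1 i h'
  · exact h2

lemma Met.step1 (H : Met M N k K h) (hM : N ≤ M) (hk : 2 ≤ k) {x x' z : Lf N} {d : ℕ}
    (hxx : x ≠ x') (h1 : Agree (ray x) (ray x') (d + 1)) (h2 : Agree (ray x) (ray z) d)
    (h3 : ray x d ≠ ray z d) (hd : k ≤ d) (h0 : ray x 0 = false) : h x z + 1 ≤ h x x' := by
  have hN := agree_le hxx h1
  obtain ⟨e, he⟩ : ∃ e, e + k = d + 1 := ⟨d + 1 - k, by omega⟩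
  have y1 := (lf_agree (N := N) (ray x) (n := e) (!ray x e) (by omega)).symm
  have y2 : ray x e ≠ ray (lf N (ray x) e (!ray x e)) e := by
    rw [lf_at _ _ (by omega)]; cases ray x e <;> simp
  have k1 := H.vlow hM (by omega) hxx h1 y1 y2 (by omega) (by omega) h0
  have k2 := H.vup hM h2 h3 y1 y2 (by omega) (by omega) (by omega) h0
  omega

lemma Met.step2 (H : Met M N k K h) (hM : N ≤ M) (hk : 2 ≤ k) {x x' z : Lf N} {d : ℕ}
    (h1 : Agree (ray x) (ray x') (d + 1)) (h2 : Agree (ray x) (ray z) d)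
    (h3 : ray x d ≠ ray z d) (hd : k ≤ d) (h0 : ray x 0 = false) : h x z = h x' z := by
  by_cases hxx : x = x'
  · rw [hxx]
  have k1 := H.step1 hM hk hxx h1 h2 h3 hd h0
  have k2 := H.step1 hM hk (Ne.symm hxx) h1.symm ((h1.symm.mono (by omega)).trans h2)
    (by rw [← h1 d (by omega)]; exact h3) hd (by rw [← h1 0 (by omega)]; exact h0)
  have k3 := H.ult x x' z
  have k4 := H.ult x' x z
  have k5 := H.sym x x'
  omega

/-- height of the branch point at depth `n` on the ray `X` -/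
def hraw (h : Lf N → Lf N → ℕ) (n : ℕ) (X : ℕ → Bool) : ℕ := h (lf N X n false) (lf N X n true)

lemma hraw_congr {X Y : ℕ → Bool} {n : ℕ} (hn : Agree X Y n) : hraw h n X = hraw h n Y := by
  rw [hraw, hraw, lf_congr false hn, lf_congr true hn]

lemma Met.step3 (H : Met M N k K h) (hM : N ≤ M) (hk : 2 ≤ k) {x z : Lf N} {d : ℕ}
    {X : ℕ → Bool} (h1 : Agree (ray x) X d) (h2 : Agree (ray z) X d) (h3 : ray x d ≠ ray z d)
    (hd : k ≤ d) (hN : d < N) (h0 : X 0 = false) : h x z = hraw h d X := by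
  have key : ∀ x z : Lf N, Agree (ray x) X d → Agree (ray z) X d → ray x d = false →
      ray z d = true → h x z = hraw h d X := by
    intro x z h1 h2 h3 h4
    have a1 := lf_agree (N := N) X false hN
    have a2 := lf_agree (N := N) X true hN
    have b1 := lf_at (N := N) X false hN
    have b2 := lf_at (N := N) X true hN
    have k1 := H.step2 hM hk (x' := lf N X d false) (z := z)
      (agree_succ (h1.trans a1.symm) (h3.trans b1.symm)) (h1.trans h2.symm)
      (by rw [h3, h4]; simp) hd (by rw [h1 0 (by omega)]; exact h0)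
    have k2 := H.step2 hM hk (x' := lf N X d true) (z := lf N X d false)
      (agree_succ (h2.trans a2.symm) (h4.trans b2.symm)) (h2.trans a1.symm)
      (by rw [h4, b1]; simp) hd (by rw [h2 0 (by omega)]; exact h0)
    rw [k1, H.sym, k2, H.sym, hraw]
  cases hx : ray x d
  · exact key x z h1 h2 hx (by rw [hx] at h3; cases hz : ray z d <;> simp_all)
  · rw [H.sym]
    exact key z x h2 h1 (by rw [hx] at h3; cases hz : ray z d <;> simp_all) hx

lemma exists_side (X : ℕ → Bool) {d : ℕ} (hN : d < N) :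
    ∃ z : Lf N, Agree (ray z) X d ∧ X d ≠ ray z d :=
  ⟨lf N X d (!X d), lf_agree X _ hN, by rw [lf_at _ _ hN]; cases X d <;> simp⟩

lemma exists_pair (h : Lf N → Lf N → ℕ) (X : ℕ → Bool) {u : ℕ} (hN : u < N) :
    ∃ x y : Lf N, Agree (ray x) X u ∧ Agree (ray y) X u ∧ ray x u ≠ ray y u ∧
      h x y = hraw h u X :=
  ⟨lf N X u false, lf N X u true, lf_agree X _ hN, lf_agree X _ hN,
    by rw [lf_at _ _ hN, lf_at _ _ hN]; simp, rfl⟩

lemma Met.rmono (H : Met M N k K h) (hM : N ≤ M) (hk : 2 ≤ k) {X : ℕ → Bool} {n : ℕ}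
    (hd : k ≤ n) (hN : n + 1 < N) (h0 : X 0 = false) : hraw h n X ≤ hraw h (n + 1) X := by
  obtain ⟨x, y, a1, a2, -, a4⟩ := exists_pair h X hN
  obtain ⟨z, b1, b2⟩ := exists_side (N := N) X (d := n) (by omega)
  have k1 := H.step3 hM hk (a1.mono (by omega)) b1 (by rw [a1 n (by omega)]; exact b2) hd
    (by omega) h0
  have k2 := H.step3 hM hk (a2.mono (by omega)) b1 (by rw [a2 n (by omega)]; exact b2) hd
    (by omega) h0
  have k3 := H.ult x z y
  have k4 := H.sym z y
  omega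

lemma Met.rvlow (H : Met M N k K h) (hM : N ≤ M) (hk : 2 ≤ k) {X : ℕ → Bool} {d : ℕ}
    (hd : k ≤ d) (hN : d + k < N) (h0 : X 0 = false) : hraw h d X + K ≤ hraw h (d + k) X := by
  obtain ⟨x, y, a1, a2, a3, a4⟩ := exists_pair h X hN
  obtain ⟨z, b1, b2⟩ := exists_side (N := N) X (d := d) (by omega)
  have c1 : ray x d ≠ ray z d := by rw [a1 d (by omega)]; exact b2
  have k1 := H.step3 hM hk (a1.mono (by omega)) b1 c1 hd (by omega) h0
  have k2 := H.vlow hM (by omega) (dv_eq (a1.trans a2.symm) a3).1 (a1.trans a2.symm)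
    ((a1.mono (by omega)).trans b1.symm) c1 le_rfl (by omega) (by rw [a1 0 (by omega)]; exact h0)
  omega

lemma Met.rvup (H : Met M N k K h) (hM : N ≤ M) (hk : 2 ≤ k) {X : ℕ → Bool} {d a : ℕ}
    (ha : a + 1 = k) (hd : k ≤ d) (hN : d + k < N) (h0 : X 0 = false) :
    hraw h (d + a) X + 1 ≤ hraw h d X + K := by
  obtain ⟨x, y, a1, a2, a3, a4⟩ := exists_pair h X (u := d + a) (by omega)
  obtain ⟨z, b1, b2⟩ := exists_side (N := N) X (d := d) (by omega)
  have c1 : ray x d ≠ ray z d := by rw [a1 d (by omega)]; exact b2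
  have k1 := H.step3 hM hk (a1.mono (by omega)) b1 c1 hd (by omega) h0
  have k2 := H.vup hM (a1.trans a2.symm) a3 ((a1.mono (by omega)).trans b1.symm) c1 (by omega)
    (by omega) (by omega) (by rw [a1 0 (by omega)]; exact h0)
  omega

lemma Met.rhor (H : Met M N k K h) (hM : N ≤ M) (hk : 2 ≤ k) {X Y : ℕ → Bool} {d a b : ℕ}
    (h1 : Agree X Y d) (h2 : X d ≠ Y d) (ha : 1 ≤ a) (hb : 1 ≤ b) (hd : k ≤ d)
    (hN : d + a + b < N) (h0 : X 0 = false) :
    (k ≤ a + b → 2 * hraw h d X + K ≤ hraw h (d + a) X + hraw h (d + b) Y) ∧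
    (a + b + 1 ≤ k → hraw h (d + a) X + hraw h (d + b) Y + 1 ≤ 2 * hraw h d X + K) := by
  obtain ⟨x, y, a1, a2, a3, a4⟩ := exists_pair h X (u := d + a) (by omega)
  obtain ⟨z, w, b1, b2, b3, b4⟩ := exists_pair h Y (u := d + b) (by omega)
  have c1 : ray x d ≠ ray z d := by rw [a1 d (by omega), b1 d (by omega)]; exact h2
  have c2 : ray y d ≠ ray w d := by rw [a2 d (by omega), b2 d (by omega)]; exact h2
  have d1 : Agree (ray z) X d := (b1.mono (by omega)).trans h1.symm
  have d2 : Agree (ray w) X d := (b2.mono (by omega)).trans h1.symm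
  have k1 := H.step3 hM hk (a1.mono (by omega)) d1 c1 hd (by omega) h0
  have k2 := H.step3 hM hk (a2.mono (by omega)) d2 c2 hd (by omega) h0
  constructor
  · intro hab
    have := H.hlow hM (dv_eq (a1.trans a2.symm) a3).1 (dv_eq (b1.trans b2.symm) b3).1
      (a1.trans a2.symm) (b1.trans b2.symm) ((a1.mono (by omega)).trans d1.symm) c1 (by omega)
      (by omega) (by omega)
    omega
  · intro hab
    have := H.hup hM (a1.trans a2.symm) a3 (b1.trans b2.symm) b3
      ((a1.mono (by omega)).trans d1.symm) c1 (by omega) (by omega) (by omega)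
    omega

/-- shift a ray down by `k` steps -/
def sh (k : ℕ) (X : ℕ → Bool) : ℕ → Bool := fun i => if i < k then false else X (i - k)

lemma sh_agree {X Y : ℕ → Bool} {n : ℕ} (hn : Agree X Y n) : Agree (sh k X) (sh k Y) (k + n) := by
  intro i hi
  simp only [sh]
  split_ifs with h1
  · rfl
  · exact hn _ (by omega)

lemma sh_at (X : ℕ → Bool) (d : ℕ) : sh k X (k + d) = X d := by simp [sh]

theorem Met.cond (H : Met M N k K h) (hM : N ≤ M) (hk : 2 ≤ k) (hK : 1 ≤ K)
    (hN : rad k K + k + 2 ≤ N) : Cond k K := by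
  have h0 : ∀ X, sh k X 0 = false := fun X => by simp only [sh]; rw [if_pos (by omega)]
  refine cond_of_pot (H := fun n X => (hraw h (k + n) (sh k X) : ℤ)) (by omega) hK ⟨?_, ?_, ?_, ?_⟩
  · intro n X Y hn
    rw [hraw_congr (sh_agree hn)]
  · intro n X hn
    have := H.rmono hM hk (n := k + n) (by omega) (by omega) (h0 X)
    exact_mod_cast this
  · intro d X Y a b h1 h2 h3 h4
    have e := hraw_congr (h := h) (sh_agree (k := k) h1)
    rcases Nat.eq_zero_or_pos a with rfl | ha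
    · obtain rfl : b = k := by omega
      have := H.rvlow hM hk (d := b + d) (by omega) (by omega) (h0 Y)
      rw [add_zero, ← add_assoc]
      omega
    rcases Nat.eq_zero_or_pos b with rfl | hb
    · obtain rfl : a = k := by omega
      have := H.rvlow hM hk (d := a + d) (by omega) (by omega) (h0 X)
      rw [add_zero, ← add_assoc]
      omega
    have := (H.rhor hM hk (sh_agree h1) (by rw [sh_at, sh_at]; exact h2) ha hb (by omega)
      (by omega) (h0 X)).1 (by omega)
    rw [← add_assoc, ← add_assoc]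
    omega
  · intro d X Y a b h1 h2 h3 h4
    have e := hraw_congr (h := h) (sh_agree (k := k) h1)
    rcases Nat.eq_zero_or_pos a with rfl | ha
    · have := H.rvup hM hk (d := k + d) (a := b) (by omega) (by omega) (by omega) (h0 Y)
      rw [add_zero, ← add_assoc]
      omega
    rcases Nat.eq_zero_or_pos b with rfl | hb
    · have := H.rvup hM hk (d := k + d) (a := a) (by omega) (by omega) (by omega) (h0 X)
      rw [add_zero, ← add_assoc]
      omega
    have := (H.rhor hM hk (sh_agree h1) (by rw [sh_at, sh_at]; exact h2) ha hb (by omega)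
      (by omega) (h0 X)).2 (by omega)
    rw [← add_assoc, ← add_assoc]
    omega

end Pool.Agent.P.MP_ebe746_co.Cl
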