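import Pool.Agent.P.MP_ebe746_co.ClNec

set_option autoImplicit false

namespace Pool.Agent.P.MP_ebe746_co.Cl

open SimpleGraph

/-- the vertices of the test graph -/
abbrev Ix (N K : ℕ) : Type := Sym2 (Lf N) ⊕ Lf N ⊕ Lf N × Fin (3 * K + 1)

/-- the paths of the test graph -/
noncomputable def src (M N k K : ℕ) : Ix N K → Set (BT M)
  | Sum.inl e => Sym2.lift ⟨fun x y => sP M x y, fun x y => sP_comm M x y⟩ e
  | Sum.inr (Sum.inl x) => chain M (ray x) N M
  | Sum.inr (Sum.inr (x, i)) => chain M (ray x) (N + i.1) (N + i.1 + k)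

lemma src_good {M N k K : ℕ} (hM : M = N + 3 * K + k) (a : Ix N K) :
    ((src M N k K a).Nonempty ∧ ((bTree M).induce (src M N k K a)).Connected) ∧
      ∀ w ∈ src M N k K a, ((bTree M).neighborSet w ∩ src M N k K a).ncard ≤ 2 := by
  have hch : ∀ (X : ℕ → Bool) (d e : ℕ), d ≤ e → d ≤ M →
      ((chain M X d e).Nonempty ∧ ((bTree M).induce (chain M X d e)).Connected) ∧
        ∀ w ∈ chain M X d e, ((bTree M).neighborSet w ∩ chain M X d e).ncard ≤ 2 := by
    intro X d e h1 h2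
    have k1 := vee_conn (M := M) (f := e) (Agree.refl X d) h1 h2
    have k2 := vee_deg (M := M) (X := X) (Y := X) (d := d) (e := e) (f := e) (Or.inr rfl)
    rw [Set.union_self] at k1 k2
    exact ⟨k1, k2⟩
  rcases a with e | x | ⟨x, i⟩
  · induction e using Sym2.ind with
    | _ x y =>
      have : dv x y ≤ M := (dv_le x y).trans (by omega)
      refine ⟨vee_conn (dv_agree x y) this this, vee_deg ?_⟩
      by_cases hxy : x = y
      · exact Or.inr (by rw [hxy])
      · exact Or.inl (dv_ne hxy)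
  · exact hch _ _ _ (by omega) (by omega)
  · have := i.2
    exact hch _ _ _ (by omega) (by omega)

theorem necessity {h : ℕ∞} (hh : 3 ≤ h) {k K : ℕ} (hk : 1 ≤ k) (hK : 1 ≤ K)
    (H : ∀ (n : ℕ) (G : SimpleGraph (Fin n)), HasRep h 2 (k + 1) G → HasRep h 2 (K + 1) G) :
    Cond k K := by
  rcases eq_or_lt_of_le hk with rfl | hk2
  · rcases eq_or_lt_of_le hK with rfl | hK2
    · exact Or.inr ⟨1, rfl, Or.inr (Or.inl dvd_rfl)⟩
    · exact Or.inl (by omega)
  obtain ⟨N, hN⟩ : ∃ N, N = rad k K + k + 2 := ⟨_, rfl⟩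
  obtain ⟨M, hM⟩ : ∃ M, M = N + 3 * K + k := ⟨_, rfl⟩
  obtain ⟨n, ⟨e⟩⟩ := Finite.exists_equiv_fin (Ix N K)
  let G : SimpleGraph (Fin n) :=
    { Adj := fun u v => u ≠ v ∧ k + 1 ≤ (src M N k K (e.symm u) ∩ src M N k K (e.symm v)).ncard
      symm := ⟨fun _ _ h => ⟨h.1.symm, by rw [Set.inter_comm]; exact h.2⟩⟩
      loopless := ⟨fun _ h => h.1 rfl⟩ }
  have hG : HasRep h 2 (k + 1) G := by
    refine hasRep_of_finite G (bTree M) (fun v => src M N k K (e.symm v)) (bTree_isTree M) ?_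
      (fun v => (src_good hM _).1) ?_ (fun u v huv => ⟨fun h => h.2, fun h => ⟨huv, h⟩⟩)
    · intro w
      refine le_trans ?_ hh
      exact_mod_cast bTree_deg w
    · intro v w hw
      exact_mod_cast (src_good hM _).2 w hw
  obtain ⟨m, T, S, hT, -, hS1, hS2, hS3⟩ := H n G hG
  have cS : ∀ a, Cvx T (S (e a)) := fun a => cvx_of_connected hT (hS1 _).2
  have lS : ∀ a, Col T (S (e a)) := fun a => col_of_deg hT (cS a) (fun w hw => by
    exact_mod_cast hS2 _ w hw)
  have tr : ∀ a b, a ≠ b → (WinK T K (S (e a)) (S (e b)) ↔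
      k + 1 ≤ (src M N k K a ∩ src M N k K b).ncard) := by
    intro a b hab
    have hne : e a ≠ e b := e.injective.ne hab
    rw [← winK_iff hT (cS a) (cS b) (lS a), ← hS3 _ _ hne]
    simp only [G, Equiv.symm_apply_apply]
    exact ⟨fun h => h.2, fun h => ⟨hne, h⟩⟩
  have big : ∀ (x : Lf N) (d : ℕ) (A B : Set (BT M)), d + k ≤ M →
      chain M (ray x) d (d + k) ⊆ A → chain M (ray x) d (d + k) ⊆ B → k + 1 ≤ (A ∩ B).ncard := by
    intro x d A B hd h1 h2
    have := Set.ncard_le_ncard (Set.subset_inter h1 h2) (Set.toFinite _)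
    rw [chain_card _ _ hd] at this
    omega
  have inP : ∀ (x y : Lf N) (a b : ℕ), N ≤ a → b ≤ M → chain M (ray x) a b ⊆ sP M x y :=
    fun x y a b h1 h2 => (chain_mono (Agree.refl _ _) ((dv_le x y).trans h1) h2).trans
      Set.subset_union_left
  have nPP : ∀ X Y Z W : Lf N, X ≠ Y → X ≠ W →
      (Sum.inl s(X, Z) : Ix N K) ≠ Sum.inl s(Y, W) := by
    intro X Y Z W h1 h2 h3
    have h4 := Sum.inl_injective h3
    rw [Sym2.eq_iff] at h4
    rcases h4 with ⟨h, -⟩ | ⟨h, -⟩
    · exact h1 h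
    · exact h2 h
  obtain ⟨g, g1, g2, g3, g4, g5⟩ := coreK (fun _ => true) hK hT
    (fun x y : Lf N => S (e (Sum.inl s(x, y)))) (fun x => S (e (Sum.inr (Sum.inl x))))
    (fun x i => S (e (Sum.inr (Sum.inr (x, i))))) (fun x y => by rw [Sym2.eq_swap])
    (fun _ _ => cS _) (fun _ _ => lS _) (fun _ => cS _) (fun _ => lS _) (fun _ _ => cS _)
    (by
      intro x i
      have := i.2
      rw [tr _ _ (by simp)]
      exact big x (N + i.1) _ _ (by omega) (chain_mono (Agree.refl _ _) (by omega) (by omega))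
        subset_rfl)
    (by
      intro x i j hij
      rw [tr _ _ (by simpa using hij)]
      have hij' : i.1 ≠ j.1 := fun h => hij (Fin.ext h)
      have hi := i.2
      have hj := j.2
      have hsub : src M N k K (Sum.inr (Sum.inr (x, i))) ∩ src M N k K (Sum.inr (Sum.inr (x, j)))
          ⊆ chain M (ray x) (N + max i.1 j.1) (N + min i.1 j.1 + k) := by
        rintro w ⟨⟨a, a1, a2, a3⟩, ⟨b, b1, b2, b3⟩⟩
        obtain ⟨rfl, -⟩ := node_inj (a3.symm.trans b3)
        exact ⟨a, by omega, by omega, a3⟩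
      have := Set.ncard_le_ncard hsub (Set.toFinite _)
      rw [chain_card _ _ (by omega)] at this
      omega)
    (by
      intro x y _
      rw [tr _ _ (by simp)]
      exact big x N _ _ (by omega) (inP x y _ _ le_rfl (by omega))
        (chain_mono (Agree.refl _ _) le_rfl (by omega)))
    (by
      intro x y i _
      have := i.2
      rw [tr _ _ (by simp)]
      exact big x (N + i.1) _ _ (by omega) (inP x y _ _ (by omega) (by omega)) subset_rfl)
    (by
      intro x y w h1 h2 _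
      rw [tr _ _ (by simp)]
      have hsub : src M N k K (Sum.inr (Sum.inl x)) ∩ src M N k K (Sum.inl s(y, w)) = ∅ := by
        rw [Set.eq_empty_iff_forall_notMem]
        rintro t ⟨⟨a, a1, a2, a3⟩, ⟨b, b1, b2, b3⟩ | ⟨b, b1, b2, b3⟩⟩
        · exact h1 (eq_of_agree ((node_inj (a3.symm.trans b3)).2.mono a1))
        · exact h2 (eq_of_agree ((node_inj (a3.symm.trans b3)).2.mono a1))
      rw [hsub]
      simp)
    (by
      intro x y w h1 h2 _
      rw [tr _ _ (nPP x y y w h1 h2)]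
      refine big y N _ _ (by omega) ?_ (inP y w _ _ le_rfl (by omega))
      have := inP y x N (N + k) le_rfl (by omega)
      rwa [sP_comm] at this)
  refine Met.cond (M := M) (N := N) (h := g) ⟨g1, g2, g3, ?_, ?_⟩ (by omega) hk2 hK (by omega)
  · intro X Y Z W h1 h2 h3 h4 h5 h6 k1 k2
    exact g4 X Y Z W h1 h2 h3 h4 h5 h6 ((tr _ _ (nPP X Y Z W h1 h3)).mpr k1)
      ((tr _ _ (nPP X Y W Z h1 h2)).mpr k2)
  · intro X Y Z W h1 h2 h3 h4 k1
    refine g5 X Y Z W h2 h4 ?_
    rw [tr _ _ (nPP X Y Z W h1 h3)]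
    exact not_le.mpr (Nat.lt_succ_of_le k1)

end Pool.Agent.P.MP_ebe746_co.Cl
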