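import Pool.Agent.P.MP_ebe746_co.ClDefs

set_option autoImplicit false

namespace Pool.Agent.P.MP_ebe746_co.Cl

open SimpleGraph

variable {W : Type}

/-- the graph of a parent function -/
def parG (r : W) (par : W → W) : SimpleGraph W where
  Adj a b := a ≠ b ∧ ((a ≠ r ∧ par a = b) ∨ (b ≠ r ∧ par b = a))
  symm := ⟨fun _ _ h => ⟨h.1.symm, h.2.symm⟩⟩
  loopless := ⟨fun _ h => h.1 rfl⟩

variable {r : W} {par : W → W}

lemma par_conn (rk : W → ℕ) (hrk : ∀ w, w ≠ r → rk (par w) < rk w) (S : Set W) (t : W)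
    (ht : t ∈ S) (h : ∀ w ∈ S, w ≠ t → w ≠ r ∧ par w ∈ S) :
    ((parG r par).induce S).Connected := by
  have key : ∀ k, ∀ w : W, rk w = k → ∀ hw : w ∈ S,
      ((parG r par).induce S).Reachable ⟨w, hw⟩ ⟨t, ht⟩ := by
    intro k
    induction k using Nat.strong_induction_on with
    | _ k ih =>
      intro w hk hw
      by_cases hwt : w = t
      · subst hwt; rfl
      obtain ⟨h0, h1⟩ := h w hw hwt
      have hlt := hrk w h0
      have hadj : ((parG r par).induce S).Adj ⟨w, hw⟩ ⟨par w, h1⟩ := by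
        refine ⟨?_, Or.inl ⟨h0, rfl⟩⟩
        intro he
        have : w = par w := he
        rw [← this] at hlt
        omega
      exact hadj.reachable.trans (ih (rk (par w)) (by omega) _ rfl h1)
  have : Nonempty S := ⟨⟨t, ht⟩⟩
  exact ⟨fun a b => (key _ a.1 rfl a.2).trans (key _ b.1 rfl b.2).symm⟩

lemma par_isTree [Finite W] (rk : W → ℕ) (hrk : ∀ w, w ≠ r → rk (par w) < rk w) :
    (parG r par).IsTree := by
  classical
  rw [isTree_iff_connected_and_card]
  refine ⟨(induceUnivIso (parG r par)).connected_iff.mp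
    (par_conn rk hrk Set.univ r (Set.mem_univ _) (fun w _ hw => ⟨hw, Set.mem_univ _⟩)), ?_⟩
  let f : {w // w ≠ r} → Sym2 W := fun w => s(w.1, par w.1)
  have hinj : Function.Injective f := by
    intro i j hij
    have hi := hrk i.1 i.2
    have hj := hrk j.1 j.2
    simp only [f, Sym2.eq_iff] at hij
    rcases hij with ⟨h1, -⟩ | ⟨h1, h2⟩
    · exact Subtype.ext h1
    · rw [h2] at hi
      rw [← h1] at hj
      omega
  have hr : (parG r par).edgeSet = Set.range f := by
    ext e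
    induction e using Sym2.ind with
    | _ a b =>
      simp only [mem_edgeSet, Set.mem_range]
      constructor
      · rintro ⟨-, ⟨h0, h⟩ | ⟨h0, h⟩⟩
        · exact ⟨⟨a, h0⟩, by simp only [f, h]⟩
        · exact ⟨⟨b, h0⟩, by simp only [f, h]; exact Sym2.eq_swap⟩
      · rintro ⟨i, hi⟩
        have hlt := hrk i.1 i.2
        have hadj : (parG r par).Adj i.1 (par i.1) := by
          refine ⟨?_, Or.inl ⟨i.2, rfl⟩⟩
          intro he
          rw [← he] at hlt
          omega
        have : f i ∈ (parG r par).edgeSet := hadj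
        rw [hi] at this
        exact this
  rw [hr, Nat.card_range_of_injective hinj, ← Finite.card_option]
  exact Nat.card_congr (Equiv.optionSubtypeNe r)

lemma hasRep_of_finite [Finite W] {h s : ℕ∞} {p n : ℕ} (G : SimpleGraph (Fin n))
    (T : SimpleGraph W) (S : Fin n → Set W) (h1 : T.IsTree)
    (h2 : ∀ w, ((T.neighborSet w).ncard : ℕ∞) ≤ h)
    (h3 : ∀ v, (S v).Nonempty ∧ (T.induce (S v)).Connected)
    (h4 : ∀ v, ∀ w ∈ S v, ((T.neighborSet w ∩ S v).ncard : ℕ∞) ≤ s)
    (h5 : ∀ u v, u ≠ v → (G.Adj u v ↔ p ≤ (S u ∩ S v).ncard)) : HasRep h s p G := by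
  obtain ⟨m, ⟨e⟩⟩ := Finite.exists_equiv_fin W
  have hc : ∀ A : Set W, (e.symm ⁻¹' A).ncard = A.ncard := fun A =>
    Set.ncard_preimage_of_injective_subset_range e.symm.injective
      (by rw [e.symm.surjective.range_eq]; exact Set.subset_univ _)
  have hn : ∀ w, (T.comap e.symm).neighborSet w = e.symm ⁻¹' T.neighborSet (e.symm w) :=
    fun w => rfl
  refine ⟨m, T.comap e.symm, fun v => e.symm ⁻¹' S v, ?_, ?_, ?_, ?_, ?_⟩
  · exact (Iso.comap e.symm T).isTree_iff.mpr h1
  · intro w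
    rw [hn, hc]; exact h2 _
  · intro v
    obtain ⟨⟨x, hx⟩, hcon⟩ := h3 v
    refine ⟨⟨e x, by simpa using hx⟩, ?_⟩
    let φ : T.induce (S v) →g (T.comap e.symm).induce (e.symm ⁻¹' S v) :=
      ⟨fun x => ⟨e x.1, by simp⟩, fun {a b} hab => by simpa using hab⟩
    refine hcon.map φ ?_
    rintro ⟨y, hy⟩
    exact ⟨⟨e.symm y, hy⟩, Subtype.ext (e.apply_symm_apply y)⟩
  · intro v w hw
    rw [hn, ← Set.preimage_inter, hc]; exact h4 v _ hw
  · intro u v huv
    rw [← Set.preimage_inter, hc]; exact h5 u v huv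

end Pool.Agent.P.MP_ebe746_co.Cl
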