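import Mathlib

set_option autoImplicit false

namespace Pool.Agent.P.MP_ebe746_co

open SimpleGraph

variable {V : Type} {T : SimpleGraph V}

/-- `m` lies on a geodesic from `a` to `b`. -/
def Btw (T : SimpleGraph V) (a m b : V) : Prop := T.dist a m + T.dist m b = T.dist a b

lemma btw_of_mem_support (hT : T.IsTree) {a b m : V} (p : T.Walk a b)
    (hp : p.length = T.dist a b) (hm : m ∈ p.support) : Btw T a m b := by
  classical
  have h1 := T.dist_le (p.takeUntil m hm)
  have h2 := T.dist_le (p.dropUntil m hm)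
  have h3 : (p.takeUntil m hm).length + (p.dropUntil m hm).length = p.length := by
    rw [← Walk.length_append, Walk.take_spec]
  have h4 := hT.connected.dist_triangle (u := a) (v := m) (w := b)
  unfold Btw
  omega

lemma mem_support_of_btw (hT : T.IsTree) {a b m : V} (h : Btw T a m b) (W : T.Walk a b) :
    m ∈ W.support := by
  classical
  obtain ⟨p1, hp1⟩ := hT.connected.exists_walk_length_eq_dist a m
  obtain ⟨p2, hp2⟩ := hT.connected.exists_walk_length_eq_dist m b
  have hpath : (p1.append p2).IsPath := by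
    apply Walk.isPath_of_length_eq_dist
    rw [Walk.length_append, hp1, hp2]; exact h
  have heq : W.bypass = p1.append p2 :=
    (hT.existsUnique_path a b).unique (Walk.bypass_isPath W) hpath
  apply Walk.support_bypass_subset_support W
  rw [heq, Walk.mem_support_append_iff]
  left; exact Walk.end_mem_support p1

/-- `[a,c] ⊆ [a,b] ∪ [b,c]` in a tree. -/
lemma btw_split (hT : T.IsTree) {a c m : V} (b : V) (h : Btw T a m c) :
    Btw T a m b ∨ Btw T b m c := by
  obtain ⟨p1, hp1⟩ := hT.connected.exists_walk_length_eq_dist a b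
  obtain ⟨p2, hp2⟩ := hT.connected.exists_walk_length_eq_dist b c
  have := mem_support_of_btw hT h (p1.append p2)
  rw [Walk.mem_support_append_iff] at this
  rcases this with h1 | h2
  · exact Or.inl (btw_of_mem_support hT p1 hp1 h1)
  · exact Or.inr (btw_of_mem_support hT p2 hp2 h2)

lemma exists_step (hT : T.IsTree) {a b : V} (hab : a ≠ b) :
    ∃ a', T.Adj a a' ∧ T.dist a' b + 1 = T.dist a b := by
  obtain ⟨p, hp⟩ := hT.connected.exists_walk_length_eq_dist a b
  cases p with
  | nil => exact absurd rfl hab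
  | cons h q =>
    rename_i v
    refine ⟨v, h, ?_⟩
    have h1 := T.dist_le q
    have h2 := hT.connected.dist_triangle (u := a) (v := v) (w := b)
    have h3 : T.dist a v = 1 := dist_eq_one_iff_adj.mpr h
    simp only [Walk.length_cons] at hp
    omega

lemma exists_point (hT : T.IsTree) (k : ℕ) : ∀ (a b : V), k ≤ T.dist a b →
    ∃ w, T.dist a w = k ∧ Btw T a w b := by
  induction k with
  | zero => intro a b _; exact ⟨a, by simp, by simp [Btw]⟩
  | succ k ih =>
    intro a b hk
    obtain ⟨w, hw1, hw2⟩ := ih a b (by omega)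
    have hwb : w ≠ b := by
      rintro rfl
      omega
    obtain ⟨w', hadj, hw'⟩ := exists_step hT hwb
    have h3 : T.dist w w' = 1 := dist_eq_one_iff_adj.mpr hadj
    have h4 := hT.connected.dist_triangle (u := a) (v := w) (w := w')
    have h5 := hT.connected.dist_triangle (u := a) (v := w') (w := b)
    unfold Btw at *
    exact ⟨w', by omega, by omega⟩

lemma exists_median (hT : T.IsTree) (a b c : V) :
    ∃ m, Btw T a m b ∧ Btw T b m c ∧ Btw T a m c := by
  classical
  have hex : ∃ k, ∃ m, Btw T a m b ∧ Btw T a m c ∧ T.dist m c = k :=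
    ⟨_, a, by simp [Btw], by simp [Btw], rfl⟩
  obtain ⟨m, h1, h2, h3⟩ := Nat.find_spec hex
  have hmin : ∀ m', Btw T a m' b → Btw T a m' c → T.dist m c ≤ T.dist m' c := by
    intro m' h1' h2'
    rw [h3]
    exact Nat.find_min' hex ⟨m', h1', h2', rfl⟩
  refine ⟨m, h1, ?_, h2⟩
  by_cases hmc : m = c
  · subst hmc; simp [Btw]
  obtain ⟨m', hadj, hm'⟩ := exists_step hT hmc
  have e1 : T.dist m m' = 1 := dist_eq_one_iff_adj.mpr hadj
  have t1 := hT.connected.dist_triangle (u := a) (v := m) (w := m')
  have t2 := hT.connected.dist_triangle (u := a) (v := m') (w := c)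
  have hb : Btw T a m' c := by unfold Btw at *; omega
  have hnb : ¬ Btw T a m' b := fun h => by
    have := hmin m' h hb
    omega
  have hb2 : Btw T b m' c := (btw_split hT b hb).resolve_left hnb
  have t3 := hT.connected.dist_triangle (u := a) (v := m') (w := b)
  have t4 := hT.dist_eq_dist_add_one_of_adj b hadj
  have c1 : T.dist m' b = T.dist b m' := dist_comm
  have c2 : T.dist m b = T.dist b m := dist_comm
  unfold Btw at *
  omega

/-- convex sets -/
def Cvx (T : SimpleGraph V) (S : Set V) : Prop :=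
  ∀ a m b, a ∈ S → b ∈ S → Btw T a m b → m ∈ S

/-- any three points are collinear -/
def Col (T : SimpleGraph V) (S : Set V) : Prop :=
  ∀ a b c, a ∈ S → b ∈ S → c ∈ S → Btw T a b c ∨ Btw T b a c ∨ Btw T a c b

/-- two sets share two points at distance at least 4 -/
def Win (T : SimpleGraph V) (A B : Set V) : Prop :=
  ∃ y z, y ∈ A ∧ y ∈ B ∧ z ∈ A ∧ z ∈ B ∧ 4 ≤ T.dist y z

lemma cvx_of_connected (hT : T.IsTree) {S : Set V} (hS : (T.induce S).Connected) : Cvx T S := by
  intro a m b ha hb hm
  obtain ⟨W⟩ := hS.preconnected ⟨a, ha⟩ ⟨b, hb⟩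
  have := mem_support_of_btw hT hm (W.map (Embedding.induce S).toHom)
  have h2 := Walk.support_map (Embedding.induce S).toHom W
  obtain ⟨x, -, hx⟩ := List.mem_map.mp (h2 ▸ this)
  rw [← hx]
  exact x.2

lemma col_of_deg [Finite V] (hT : T.IsTree) {S : Set V} (hc : Cvx T S)
    (hd : ∀ w ∈ S, (T.neighborSet w ∩ S).ncard ≤ 2) : Col T S := by
  intro a b c ha hb hc'
  obtain ⟨m, h1, h2, h3⟩ := exists_median hT a b c
  have hm : m ∈ S := hc a m b ha hb h1
  by_cases hma : m = a
  · subst hma; exact Or.inr (Or.inl h2)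
  by_cases hmb : m = b
  · subst hmb; exact Or.inl h3
  by_cases hmc : m = c
  · subst hmc; exact Or.inr (Or.inr h1)
  exfalso
  obtain ⟨a', ha1, ha2⟩ := exists_step hT hma
  obtain ⟨b', hb1, hb2⟩ := exists_step hT hmb
  obtain ⟨c', hc1, hc2⟩ := exists_step hT hmc
  have ea : T.dist m a' = 1 := dist_eq_one_iff_adj.mpr ha1
  have eb : T.dist m b' = 1 := dist_eq_one_iff_adj.mpr hb1
  have ec : T.dist m c' = 1 := dist_eq_one_iff_adj.mpr hc1
  have ma : a' ∈ S := hc m a' a hm ha (by unfold Btw; omega)
  have mb : b' ∈ S := hc m b' b hm hb (by unfold Btw; omega)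
  have mc : c' ∈ S := hc m c' c hm hc' (by unfold Btw; omega)
  have s1 : T.dist a m = T.dist m a := dist_comm
  have s2 : T.dist b m = T.dist m b := dist_comm
  have s3 : T.dist a a' = T.dist a' a := dist_comm
  have s4 : T.dist b b' = T.dist b' b := dist_comm
  have nab : a' ≠ b' := by
    rintro rfl
    have := hT.connected.dist_triangle (u := a) (v := a') (w := b)
    unfold Btw at *; omega
  have nac : a' ≠ c' := by
    rintro rfl
    have := hT.connected.dist_triangle (u := a) (v := a') (w := c)
    unfold Btw at *; omega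
  have nbc : b' ≠ c' := by
    rintro rfl
    have := hT.connected.dist_triangle (u := b) (v := b') (w := c)
    unfold Btw at *; omega
  have hsub : ({a', b', c'} : Set V) ⊆ T.neighborSet m ∩ S := by
    intro x hx
    simp only [Set.mem_insert_iff, Set.mem_singleton_iff] at hx
    rcases hx with rfl | rfl | rfl
    · exact ⟨ha1, ma⟩
    · exact ⟨hb1, mb⟩
    · exact ⟨hc1, mc⟩
  have h3c : ({a', b', c'} : Set V).ncard = 3 :=
    Set.ncard_eq_three.mpr ⟨a', b', c', nab, nac, nbc, rfl⟩
  have := Set.ncard_le_ncard hsub (Set.toFinite _)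
  have := hd m hm
  omega

lemma four_point (hT : T.IsTree) (a b c e : V) :
    T.dist a b + T.dist c e ≤ T.dist a c + T.dist b e ∨
    T.dist a b + T.dist c e ≤ T.dist a e + T.dist b c := by
  obtain ⟨m, m1, m2, m3⟩ := exists_median hT a b c
  have h := btw_split hT e m1
  have t := hT.connected.dist_triangle (u := c) (v := m) (w := e)
  have s1 : T.dist c m = T.dist m c := dist_comm
  have s2 : T.dist e m = T.dist m e := dist_comm
  have s3 : T.dist b m = T.dist m b := dist_comm
  have s4 : T.dist e b = T.dist b e := dist_comm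
  unfold Btw at *
  omega

/-- A finite nonempty collinear set has an end point from which distances are coordinates. -/
lemma exists_end [Finite V] (hT : T.IsTree) {K : Set V} (hK : Col T K) (hne : K.Nonempty) :
    ∃ e ∈ K, ∀ y ∈ K, ∀ z ∈ K, Btw T e y z ∨ Btw T e z y := by
  obtain ⟨⟨e, f⟩, ⟨he, hf⟩, hmax⟩ := Set.exists_max_image (K ×ˢ K)
    (fun p => T.dist p.1 p.2) (Set.toFinite _) (hne.prod hne)
  simp only at he hf hmax
  refine ⟨e, he, ?_⟩
  intro y hy z hz
  have m1 := hmax (y, f) ⟨hy, hf⟩
  have m2 := hmax (z, f) ⟨hz, hf⟩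
  have m3 := hmax (e, y) ⟨he, hy⟩
  have m4 := hmax (e, z) ⟨he, hz⟩
  have m5 := hmax (y, z) ⟨hy, hz⟩
  simp only at m1 m2 m3 m4 m5
  have c1 := hK e y f he hy hf
  have c2 := hK e z f he hz hf
  have c3 := hK e y z he hy hz
  have c4 := hK y z f hy hz hf
  have c5 := four_point hT e f y z
  have s1 : T.dist y e = T.dist e y := dist_comm
  have s2 : T.dist z e = T.dist e z := dist_comm
  have s3 : T.dist z y = T.dist y z := dist_comm
  have s4 : T.dist f y = T.dist y f := dist_comm
  have s5 : T.dist f z = T.dist z f := dist_comm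
  unfold Btw at *
  omega

lemma win_iff [Finite V] (hT : T.IsTree) {A B : Set V} (hA : Cvx T A) (hB : Cvx T B)
    (hcol : Col T A) : 5 ≤ (A ∩ B).ncard ↔ Win T A B := by
  constructor
  · intro h
    by_contra hw
    have hne : (A ∩ B).Nonempty := by
      rw [Set.nonempty_iff_ne_empty]; intro h0; rw [h0] at h; simp at h
    have hcol' : Col T (A ∩ B) := fun a b c ha hb hc => hcol a b c ha.1 hb.1 hc.1
    obtain ⟨e, he, hend⟩ := exists_end hT hcol' hne
    have hle : (A ∩ B).ncard ≤ (Set.Iio 4 : Set ℕ).ncard := by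
      apply Set.ncard_le_ncard_of_injOn (fun y => T.dist e y)
      · intro y hy
        simp only [Set.mem_Iio]
        by_contra hc
        exact hw ⟨e, y, he.1, he.2, hy.1, hy.2, by omega⟩
      · intro y hy z hz hyz
        simp only at hyz
        have := hend y hy z hz
        have s3 : T.dist z y = T.dist y z := dist_comm
        have : T.dist y z = 0 := by unfold Btw at *; omega
        exact hT.connected.dist_eq_zero_iff.mp this
    have : (Set.Iio 4 : Set ℕ).ncard = 4 := by simp
    omega
  · rintro ⟨y, z, hyA, hyB, hzA, hzB, hd⟩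
    have hex : ∀ k : Fin 5, ∃ w, T.dist y w = k ∧ Btw T y w z := fun k =>
      exists_point hT k y z (by omega)
    choose f hf1 hf2 using hex
    have hinj : Function.Injective f := by
      intro i j hij
      apply Fin.ext
      rw [← hf1 i, ← hf1 j, hij]
    have hsub : Set.range f ⊆ A ∩ B := by
      rintro _ ⟨k, rfl⟩
      exact ⟨hA y _ z hyA hzA (hf2 k), hB y _ z hyB hzB (hf2 k)⟩
    have h1 := Set.ncard_le_ncard hsub (Set.toFinite _)
    rw [Set.ncard_range_of_injective hinj] at h1
    simpa using h1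

lemma helly (hT : T.IsTree) {A B C : Set V} (hA : Cvx T A) (hB : Cvx T B) (hC : Cvx T C)
    (hAB : Win T A B) (hBC : Win T B C) (hAC : Win T A C) : ∃ m, m ∈ A ∧ m ∈ B ∧ m ∈ C := by
  obtain ⟨a, -, h1, h2, -⟩ := hAB
  obtain ⟨b, -, h3, h4, -⟩ := hBC
  obtain ⟨c, -, h5, h6, -⟩ := hAC
  obtain ⟨m, m1, m2, m3⟩ := exists_median hT a b c
  exact ⟨m, hA a m c h1 h5 m3, hB a m b h2 h3 m1, hC b m c h4 h6 m2⟩

end Pool.Agent.P.MP_ebe746_co
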