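import Pool.Agent.P.MP_ebe746_co.ClPar
import Pool.Agent.P.MP_ebe746_co.ClArith
import Pool.Agent.P.MP_ebe746_co.Tree

set_option autoImplicit false

namespace Pool.Agent.P.MP_ebe746_co.Cl

open SimpleGraph

/-- new depths of the old vertices -/
lemma exists_depths {k K : ℕ} (hk : 1 ≤ k) (hK : 1 ≤ K) (hc : Cond k K) :
    ∃ P : ℕ → ℕ, StrictMono P ∧
      (∀ d a b, k ≤ a + b → K + 2 * P d ≤ P (d + a) + P (d + b)) ∧
      (∀ d a b, a + b + 1 ≤ k → P (d + a) + P (d + b) + 1 ≤ K + 2 * P d) := by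
  obtain ⟨ρ, h1, hL, hU⟩ := beatty_of_cond k K hk hK hc
  have hz : ∀ n : ℕ, ((⌊ρ * n⌋₊ : ℕ) : ℤ) = ⌊ρ * n⌋ := fun n =>
    Int.natCast_floor_eq_floor (by positivity)
  have hlo : ∀ d a : ℕ, ⌊ρ * d⌋ + ⌊ρ * a⌋ ≤ ⌊ρ * (d + a : ℕ)⌋ := by
    intro d a
    rw [Nat.cast_add, mul_add]
    exact Int.le_floor_add _ _
  have hup : ∀ d a : ℕ, ⌊ρ * (d + a : ℕ)⌋ ≤ ⌊ρ * d⌋ + ⌈ρ * a⌉ := by
    intro d a
    rw [← Int.floor_add_intCast, Nat.cast_add, mul_add]
    exact Int.floor_le_floor (by linarith [Int.le_ceil (ρ * a)])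
  have hmono : StrictMono fun n : ℕ => ⌊ρ * n⌋₊ := by
    refine strictMono_nat_of_lt_succ fun n => ?_
    have e1 := hlo n 1
    have e2 : (1 : ℤ) ≤ ⌊ρ * (1 : ℕ)⌋ := Int.le_floor.mpr (by simpa using h1)
    have e3 := hz n
    have e4 := hz (n + 1)
    omega
  refine ⟨fun n => ⌊ρ * n⌋₊, hmono, ?_, ?_⟩
  · intro d a b hab
    obtain ⟨a', b', k1, k2, k3⟩ : ∃ a' b', a' ≤ a ∧ b' ≤ b ∧ a' + b' = k :=
      ⟨min a k, k - min a k, by omega, by omega, by omega⟩
    have m1 := hmono.monotone (show d + a' ≤ d + a by omega)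
    have m2 := hmono.monotone (show d + b' ≤ d + b by omega)
    have e1 := hL a' b' k3
    have e2 := hlo d a'
    have e3 := hlo d b'
    have e4 := hz d
    have e5 := hz (d + a')
    have e6 := hz (d + b')
    simp only at m1 m2 ⊢
    omega
  · intro d a b hab
    have m1 := hmono.monotone (show d + a ≤ d + (k - 1 - b) by omega)
    have e1 := hU (k - 1 - b) b (by omega)
    have e2 := hup d (k - 1 - b)
    have e3 := hup d b
    have e4 := hz d
    have e5 := hz (d + (k - 1 - b))
    have e6 := hz (d + b)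
    simp only at m1 ⊢
    omega

variable {V : Type} {T : SimpleGraph V}

lemma exists_parent (hT : T.IsTree) (r : V) :
    ∃ π : V → V, ∀ x, x ≠ r → T.Adj x (π x) ∧ T.dist r (π x) + 1 = T.dist r x := by
  classical
  have : ∀ x, ∃ y, x ≠ r → T.Adj x y ∧ T.dist r y + 1 = T.dist r x := by
    intro x
    by_cases hx : x = r
    · exact ⟨x, fun h => absurd hx h⟩
    · obtain ⟨y, h1, h2⟩ := exists_step hT hx
      exact ⟨y, fun _ => ⟨h1, by rw [dist_comm, h2, dist_comm]⟩⟩
  choose π hπ using this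
  exact ⟨π, hπ⟩

lemma exists_top (hT : T.IsTree) (r : V) {π : V → V}
    (hπ : ∀ x, x ≠ r → T.Adj x (π x) ∧ T.dist r (π x) + 1 = T.dist r x) {S : Set V}
    (hS : Cvx T S) (hne : S.Nonempty) :
    ∃ t ∈ S, (∀ x ∈ S, Btw T r t x) ∧ ∀ x ∈ S, x ≠ t → x ≠ r ∧ π x ∈ S := by
  obtain ⟨t, ht, hmin⟩ := (measure (fun x => T.dist r x)).wf.has_min S hne
  have hmin' : ∀ x ∈ S, T.dist r t ≤ T.dist r x := fun x hx => not_lt.mp (hmin x hx)
  have h0 : ∀ a b : V, T.dist a b = 0 → a = b := fun a b => hT.connected.dist_eq_zero_iff.mp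
  have hb : ∀ x ∈ S, Btw T r t x := by
    intro x hx
    obtain ⟨m, m1, m2, m3⟩ := exists_median hT r x t
    have := hmin' m (hS x m t hx ht m2)
    have e : m = t := h0 _ _ (by unfold Btw at *; omega)
    rw [← e]; exact m1
  refine ⟨t, ht, hb, ?_⟩
  intro x hx hxt
  have h1 := hb x hx
  have h2 : T.dist t x ≠ 0 := fun h => hxt (h0 _ _ h).symm
  have hxr : x ≠ r := by
    rintro rfl
    have : T.dist x x = 0 := SimpleGraph.dist_self
    unfold Btw at h1
    omega
  refine ⟨hxr, ?_⟩
  obtain ⟨h3, h4⟩ := hπ x hxr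
  have h5 : T.dist (π x) x = 1 := dist_eq_one_iff_adj.mpr h3.symm
  rcases btw_split hT t (show Btw T r (π x) x by unfold Btw; omega) with h | h
  · have e : π x = t := h0 _ _ (by unfold Btw at *; omega)
    rw [e]; exact ht
  · exact hS t _ x ht hx h

/-- a path hangs from its top vertex with two branches -/
lemma sum_path [Finite V] (hT : T.IsTree) {A : Set V} (hA : Cvx T A) (hc : Col T A) {t : V}
    (ht : t ∈ A) : ∃ a b, A.ncard = a + b + 1 ∧ ∀ f : ℕ → ℕ,
      ∑ x ∈ (Set.toFinite A).toFinset, f (T.dist t x) =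
        f 0 + ∑ i ∈ Finset.range a, f (i + 1) + ∑ i ∈ Finset.range b, f (i + 1) := by
  obtain ⟨e, he, hend⟩ := exists_end hT hc ⟨t, ht⟩
  obtain ⟨z, hz, hmax⟩ := Set.exists_max_image A (fun y => T.dist e y) (Set.toFinite _) ⟨t, ht⟩
  have h1 : T.dist e t ≤ T.dist e z := hmax t ht
  obtain ⟨b, hb⟩ : ∃ b, T.dist e z = T.dist e t + b := ⟨T.dist e z - T.dist e t, by omega⟩
  have key : ∀ f : ℕ → ℕ, ∑ x ∈ (Set.toFinite A).toFinset, f (T.dist t x) =
      ∑ i ∈ Finset.range (T.dist e t + (b + 1)), f (T.dist e t - i + (i - T.dist e t)) := by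
    intro f
    refine Finset.sum_bij (fun x _ => T.dist e x) ?_ ?_ ?_ ?_
    · intro x hx
      have := hmax x (by simpa using hx)
      simp only [Finset.mem_range] at this ⊢
      omega
    · intro x hx y hy hxy
      have := hend x (by simpa using hx) y (by simpa using hy)
      have s : T.dist y x = T.dist x y := dist_comm
      exact hT.connected.dist_eq_zero_iff.mp (by unfold Btw at *; omega)
    · intro i hi
      rw [Finset.mem_range] at hi
      obtain ⟨w, w1, w2⟩ := exists_point hT i e z (by omega)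
      exact ⟨w, by simpa using hA e w z he hz w2, w1⟩
    · intro x hx
      have := hend t ht x (by simpa using hx)
      have s : T.dist x t = T.dist t x := dist_comm
      congr 1
      unfold Btw at *
      omega
  refine ⟨T.dist e t, b, ?_, ?_⟩
  · have := key (fun _ => 1)
    rw [Set.ncard_eq_toFinset_card A]
    simpa [add_assoc] using this
  · intro f
    rw [key, Finset.sum_range_add, Finset.sum_range_succ', ← Finset.sum_range_reflect]
    have e1 : ∑ j ∈ Finset.range (T.dist e t), f (T.dist e t - (T.dist e t - 1 - j) +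
        (T.dist e t - 1 - j - T.dist e t)) = ∑ i ∈ Finset.range (T.dist e t), f (i + 1) := by
      refine Finset.sum_congr rfl fun j hj => ?_
      rw [Finset.mem_range] at hj
      congr 1
      omega
    have e2 : ∑ j ∈ Finset.range b, f (T.dist e t - (T.dist e t + (j + 1)) +
        (T.dist e t + (j + 1) - T.dist e t)) = ∑ i ∈ Finset.range b, f (i + 1) := by
      refine Finset.sum_congr rfl fun j _ => ?_
      congr 1
      omega
    rw [e1, e2]
    simp only [add_zero, Nat.sub_self]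
    omega

lemma telescope {P : ℕ → ℕ} (hP : StrictMono P) (d a : ℕ) :
    ∑ i ∈ Finset.range a, (P (d + (i + 1)) - P (d + i)) + P d = P (d + a) := by
  induction a with
  | zero => simp
  | succ a ih =>
    have := hP.monotone (show d + a ≤ d + (a + 1) by omega)
    rw [Finset.sum_range_succ]
    omega

/-- the vertices of the subdivided host -/
abbrev Sub (len : V → ℕ) : Type := {w : V × ℕ // w.2 < len w.1}

instance [Finite V] (len : V → ℕ) : Finite (Sub len) :=
  Finite.of_surjective (fun s : Σ x, Fin (len x) => (⟨(s.1, s.2.1), s.2.2⟩ : Sub len))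
    (fun w => ⟨⟨w.1.1, ⟨w.1.2, w.2⟩⟩, rfl⟩)

/-- the parent in the subdivided host -/
def subPar (π : V → V) {len : V → ℕ} (hl : ∀ x, 0 < len x) (w : Sub len) : Sub len :=
  if h : w.1.2 + 1 < len w.1.1 then ⟨(w.1.1, w.1.2 + 1), h⟩ else ⟨(π w.1.1, 0), hl _⟩

/-- the subdivided subtree -/
def lift (π : V → V) (len : V → ℕ) (S : Set V) : Set (Sub len) :=
  {w | w.1.1 ∈ S ∧ (w.1.2 = 0 ∨ π w.1.1 ∈ S)}

lemma lift_inter (π : V → V) (len : V → ℕ) (A B : Set V) :
    lift π len A ∩ lift π len B = lift π len (A ∩ B) := by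
  ext w
  simp only [lift, Set.mem_inter_iff, Set.mem_ofPred_eq]
  tauto

lemma subPar_cases (π : V → V) {len : V → ℕ} (hl : ∀ x, 0 < len x) (w : Sub len) :
    (subPar π hl w).1 = (w.1.1, w.1.2 + 1) ∨
      (w.1.2 + 1 = len w.1.1 ∧ (subPar π hl w).1 = (π w.1.1, 0)) := by
  unfold subPar
  split_ifs with h
  · exact Or.inl rfl
  · have := w.2
    exact Or.inr ⟨by omega, rfl⟩

lemma sub_ne_root {r : V} {len : V → ℕ} (hl : ∀ x, 0 < len x) (hr : len r = 1) {w : Sub len}
    (hw : w ≠ ⟨(r, 0), hl r⟩) : w.1.1 ≠ r := by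
  intro h
  have := w.2
  rw [h, hr] at this
  exact hw (Subtype.ext (Prod.ext h (by simpa using this)))

lemma sub_deg [Finite V] {r : V} {π : V → V} {len : V → ℕ} (hl : ∀ x, 0 < len x) (hr : len r = 1)
    (hπ : ∀ x, x ≠ r → T.Adj x (π x) ∧ T.dist r (π x) + 1 = T.dist r x) (S : Set V)
    (w : Sub len) :
    ((parG ⟨(r, 0), hl r⟩ (subPar π hl)).neighborSet w ∩ lift π len S).ncard ≤ 2 ∨
      ((parG ⟨(r, 0), hl r⟩ (subPar π hl)).neighborSet w ∩ lift π len S).ncard ≤
        (T.neighborSet w.1.1 ∩ S).ncard := by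
  classical
  obtain ⟨⟨x, j⟩, hj⟩ := w
  simp only at hj
  rcases Nat.eq_zero_or_pos j with rfl | hpos
  · right
    let f : V → Sub len := fun y =>
      if x ≠ r ∧ y = π x then subPar π hl ⟨(x, 0), hj⟩
      else ⟨(y, len y - 1), by have := hl y; simp only; omega⟩
    refine le_trans (Set.ncard_le_ncard (t := f '' (T.neighborSet x ∩ S)) ?_) Set.ncard_image_le
    rintro w ⟨⟨-, ⟨h1, h2⟩ | ⟨h1, h2⟩⟩, h3, h4⟩
    · have hx : x ≠ r := sub_ne_root hl hr h1
      refine ⟨π x, ⟨(hπ x hx).1, ?_⟩, ?_⟩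
      · rcases subPar_cases π hl ⟨(x, 0), hj⟩ with h | ⟨-, h⟩
        · rw [h2] at h
          rw [h] at h4
          simpa using h4
        · rw [h2] at h
          rw [h] at h3
          exact h3
      · exact (if_pos ⟨hx, rfl⟩).trans h2
    · have hy : w.1.1 ≠ r := sub_ne_root hl hr h1
      rcases subPar_cases π hl w with h | ⟨h5, h⟩
      · rw [h2] at h
        simp at h
      · rw [h2] at h
        have hx : x = π w.1.1 := congrArg Prod.fst h
        refine ⟨w.1.1, ⟨?_, h3⟩, ?_⟩
        · rw [hx]; exact (hπ _ hy).1.symm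
        · simp only [f]
          rw [if_neg]
          · exact Subtype.ext (Prod.ext rfl (by simp only; omega))
          · rintro ⟨k1, k2⟩
            have e1 := (hπ _ hy).2
            have e2 := (hπ _ k1).2
            rw [← hx] at e1
            rw [← k2] at e2
            omega
  · left
    have hsub : (parG ⟨(r, 0), hl r⟩ (subPar π hl)).neighborSet ⟨(x, j), hj⟩ ∩ lift π len S ⊆
        {subPar π hl ⟨(x, j), hj⟩, ⟨(x, j - 1), by simp only; omega⟩} := by
      rintro w ⟨⟨-, ⟨h1, h2⟩ | ⟨h1, h2⟩⟩, -⟩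
      · exact Or.inl h2.symm
      · right
        rcases subPar_cases π hl w with h | ⟨-, h⟩
        · rw [h2] at h
          have e1 : x = w.1.1 := congrArg Prod.fst h
          have e2 : j = w.1.2 + 1 := congrArg Prod.snd h
          exact Subtype.ext (Prod.ext e1.symm (by simp only; omega))
        · rw [h2] at h
          have e2 : j = 0 := congrArg Prod.snd h
          omega
    refine (Set.ncard_le_ncard hsub).trans ((Set.ncard_insert_le _ _).trans ?_)
    simp

lemma lift_card [Finite V] (π : V → V) {len : V → ℕ} (hl : ∀ x, 0 < len x) (A : Set V)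
    (g : V → ℕ) (hg : ∀ x ∈ A, (π x ∈ A ∧ g x = len x) ∨ ((π x ∉ A ∨ len x = 1) ∧ g x = 1)) :
    (lift π len A).ncard = ∑ x ∈ (Set.toFinite A).toFinset, g x := by
  have : ∑ x ∈ (Set.toFinite A).toFinset, g x =
      (((Set.toFinite A).toFinset.sigma fun x => Finset.range (g x)) : Set (Σ _ : V, ℕ)).ncard := by
    rw [Set.ncard_coe_finset, Finset.card_sigma]
    simp
  rw [this]
  refine Set.ncard_congr (fun w _ => ⟨w.1.1, w.1.2⟩) ?_ ?_ ?_
  · rintro w ⟨h1, h2⟩
    have := w.2
    have := hg _ h1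
    simp only [Finset.coe_sigma, Set.mem_sigma_iff, Set.Finite.coe_toFinset, Finset.coe_range,
      Set.mem_Iio]
    refine ⟨h1, ?_⟩
    rcases this with ⟨-, h⟩ | ⟨h | h, h'⟩
    · omega
    · rcases h2 with h2 | h2
      · omega
      · exact absurd h2 h
    · omega
  · intro a b _ _ h
    simp only [Sigma.mk.injEq, heq_eq_eq] at h
    exact Subtype.ext (Prod.ext h.1 h.2)
  · rintro ⟨x, j⟩ hx
    simp only [Finset.coe_sigma, Set.mem_sigma_iff, Set.Finite.coe_toFinset, Finset.coe_range,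
      Set.mem_Iio] at hx
    have := hl x
    rcases hg x hx.1 with ⟨h, h'⟩ | ⟨-, h'⟩
    · exact ⟨⟨(x, j), by simp only; omega⟩, ⟨hx.1, Or.inr h⟩, rfl⟩
    · exact ⟨⟨(x, j), by simp only; omega⟩, ⟨hx.1, Or.inl (by simp only; omega)⟩, rfl⟩

theorem sufficiency {h : ℕ∞} (hh : 2 ≤ h) {k K : ℕ} (hk : 1 ≤ k) (hK : 1 ≤ K) (hc : Cond k K)
    {n : ℕ} {G : SimpleGraph (Fin n)} (hG : HasRep h 2 (k + 1) G) : HasRep h 2 (K + 1) G := by
  classical
  obtain ⟨P, hP, hlo, hup⟩ := exists_depths hk hK hc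
  obtain ⟨m, T, S, hT, h1, h2, h3, h4⟩ := hG
  obtain ⟨r⟩ := hT.connected.nonempty
  obtain ⟨π, hπ⟩ := exists_parent hT r
  let len : Fin m → ℕ := fun x => if x = r then 1 else P (T.dist r x) - P (T.dist r x - 1)
  have hr : len r = 1 := if_pos rfl
  have hlen : ∀ x, x ≠ r → len x + P (T.dist r (π x)) = P (T.dist r x) ∧ 0 < len x := by
    intro x hx
    have e1 := (hπ x hx).2
    have e2 : P (T.dist r (π x)) < P (T.dist r x) := hP (by omega)
    have e3 : T.dist r x - 1 = T.dist r (π x) := by omega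
    simp only [len, if_neg hx, e3]
    omega
  have hl : ∀ x, 0 < len x := by
    intro x
    by_cases hx : x = r
    · rw [hx, hr]; omega
    · exact (hlen x hx).2
  have hrk : ∀ w : Sub len, w ≠ ⟨(r, 0), hl r⟩ →
      P (T.dist r (subPar π hl w).1.1) - (subPar π hl w).1.2 < P (T.dist r w.1.1) - w.1.2 := by
    intro w hw
    have e1 := (hlen _ (sub_ne_root hl hr hw)).1
    have e2 := w.2
    have e3 := (subPar π hl w).2
    rcases subPar_cases π hl w with h | ⟨-, h⟩
    · rw [h] at e3 ⊢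
      simp only at e3 ⊢
      omega
    · rw [h]
      simp only
      omega
  have cS : ∀ v, Cvx T (S v) := fun v => cvx_of_connected hT (h2 v).2
  have lS : ∀ v, Col T (S v) := fun v => col_of_deg hT (cS v) (fun w hw => by
    exact_mod_cast h3 v w hw)
  refine hasRep_of_finite G (parG ⟨(r, 0), hl r⟩ (subPar π hl)) (fun v => lift π len (S v))
    (par_isTree (fun w => P (T.dist r w.1.1) - w.1.2) hrk) ?_ ?_ ?_ ?_
  · intro w
    have e : lift π len Set.univ = Set.univ := by
      ext w; simp [lift]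
    have := sub_deg hl hr hπ Set.univ w
    rw [e, Set.inter_univ, Set.inter_univ] at this
    rcases this with h' | h'
    · exact le_trans (by exact_mod_cast h') hh
    · exact le_trans (by exact_mod_cast h') (h1 w.1.1)
  · intro v
    obtain ⟨t, ht, -, ht2⟩ := exists_top hT r hπ (cS v) (h2 v).1
    have hm : (⟨(t, 0), hl t⟩ : Sub len) ∈ lift π len (S v) := ⟨ht, Or.inl rfl⟩
    refine ⟨⟨_, hm⟩, par_conn (fun w => P (T.dist r w.1.1) - w.1.2) hrk _ _ hm ?_⟩
    rintro w ⟨k1, k2⟩ hw
    have k3 : π w.1.1 ∈ S v := by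
      rcases k2 with k2 | k2
      · exact (ht2 _ k1 (fun h => hw (Subtype.ext (Prod.ext h k2)))).2
      · exact k2
    constructor
    · rintro rfl
      by_cases hrt : r = t
      · exact hw (Subtype.ext (Prod.ext hrt rfl))
      · exact (ht2 r k1 hrt).1 rfl
    · rcases subPar_cases π hl w with h | ⟨-, h⟩
      · exact ⟨by rw [h]; exact k1, Or.inr (by rw [h]; exact k3)⟩
      · exact ⟨by rw [h]; exact k3, Or.inl (by rw [h])⟩
  · intro v w hw
    rcases sub_deg hl hr hπ (S v) w with h' | h'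
    · exact_mod_cast h'
    · exact le_trans (by exact_mod_cast h') (h3 v w.1.1 hw.1)
  · intro u v huv
    rw [h4 u v huv, lift_inter]
    rcases (S u ∩ S v).eq_empty_or_nonempty with he | hne
    · have e : lift π len (∅ : Set (Fin m)) = ∅ := by
        ext w; simp [lift]
      rw [he, e]
      simp
    have cA : Cvx T (S u ∩ S v) := fun a m b ha hb hm =>
      ⟨cS u a m b ha.1 hb.1 hm, cS v a m b ha.2 hb.2 hm⟩
    have lA : Col T (S u ∩ S v) := fun a b c ha hb hc => lS u a b c ha.1 hb.1 hc.1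
    obtain ⟨t, ht, ht1, ht2⟩ := exists_top hT r hπ cA hne
    obtain ⟨a, b, k1, k2⟩ := sum_path hT cA lA ht
    let f : ℕ → ℕ := fun i => if i = 0 then 1 else P (T.dist r t + i) - P (T.dist r t + (i - 1))
    have k3 := lift_card π hl (S u ∩ S v) (fun x => f (T.dist t x)) (by
      intro x hx
      by_cases hxt : x = t
      · right
        subst hxt
        refine ⟨?_, by simp [f]⟩
        by_cases hxr : x = r
        · right; rw [hxr, hr]
        · left
          intro hin
          have e1 := ht1 _ hin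
          have e2 := (hπ x hxr).2
          unfold Btw at e1
          omega
      · left
        obtain ⟨e1, e2⟩ := ht2 x hx hxt
        refine ⟨e2, ?_⟩
        have e3 := ht1 x hx
        have e4 : T.dist t x ≠ 0 := fun h => hxt (hT.connected.dist_eq_zero_iff.mp h).symm
        unfold Btw at e3
        simp only [f, len, if_neg e4, if_neg e1]
        rw [e3, show T.dist r t + (T.dist t x - 1) = T.dist r x - 1 by omega])
    rw [k2 f] at k3
    simp only [f, if_pos, Nat.add_sub_cancel, Nat.add_eq_zero_iff, one_ne_zero, and_false,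
      if_false] at k3
    have t1 := telescope hP (T.dist r t) a
    have t2 := telescope hP (T.dist r t) b
    have t3 := hlo (T.dist r t) a b
    have t4 := hup (T.dist r t) a b
    omega

end Pool.Agent.P.MP_ebe746_co.Cl
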