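import Pool.Agent.P.MP_ebe746_co.Tree

set_option autoImplicit false

namespace Pool.Agent.P.MP_ebe746_co

open SimpleGraph

lemma nat_gadget (A : Fin 13 → Set ℕ) (hA : ∀ i, (A i).OrdConnected) (s : Fin 13 → ℕ)
    (hs : ∀ i, s i ∈ A i ∧ s i + 4 ∈ A i)
    (hd : ∀ i j, i ≠ j → ∀ t, t ∈ A i → t + 4 ∈ A i → t ∈ A j → t + 4 ∈ A j → False) :
    ∃ t, ∀ B : Set ℕ, B.OrdConnected → (∀ i, ∃ x ∈ A i, x ∈ B) →
      t ∈ B ∧ t + 4 ∈ B ∧ t + 8 ∈ B := by
  have hinj : Function.Injective s := by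
    intro i j hij
    by_contra hne
    exact hd i j hne (s i) (hs i).1 (hs i).2 (hij ▸ (hs j).1) (hij ▸ (hs j).2)
  let σ := Tuple.sort s
  have hmono : StrictMono (s ∘ σ) :=
    (Tuple.monotone_sort s).strictMono_of_injective (hinj.comp σ.injective)
  have h : ∀ i j : Fin 13, i < j → s (σ i) < s (σ j) := fun i j hij => hmono hij
  have h0 := h 0 1 (by decide)
  have h1 := h 1 2 (by decide)
  have h2 := h 2 3 (by decide)
  have h3 := h 3 4 (by decide)
  have h4 := h 4 5 (by decide)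
  have h5 := h 5 6 (by decide)
  have h6 := h 6 7 (by decide)
  have h7 := h 7 8 (by decide)
  have h8 := h 8 9 (by decide)
  have h9 := h 9 10 (by decide)
  have h10 := h 10 11 (by decide)
  have h11 := h 11 12 (by decide)
  refine ⟨s (σ 1) + 3, ?_⟩
  intro B hB hmeet
  obtain ⟨x, hxA, hxB⟩ := hmeet (σ 0)
  obtain ⟨y, hyA, hyB⟩ := hmeet (σ 12)
  have hx : x ≤ s (σ 1) + 3 := by
    by_contra hc
    refine hd (σ 0) (σ 1) (σ.injective.ne (by decide)) (s (σ 1)) ?_ ?_ (hs _).1 (hs _).2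
    · exact (hA _).out (hs _).1 hxA ⟨by omega, by omega⟩
    · exact (hA _).out (hs _).1 hxA ⟨by omega, by omega⟩
  have hy : s (σ 11) < y := by
    by_contra hc
    refine hd (σ 12) (σ 11) (σ.injective.ne (by decide)) (s (σ 11)) ?_ ?_ (hs _).1 (hs _).2
    · exact (hA _).out hyA (hs _).2 ⟨by omega, by omega⟩
    · exact (hA _).out hyA (hs _).2 ⟨by omega, by omega⟩
  exact ⟨hB.out hxB hyB ⟨by omega, by omega⟩, hB.out hxB hyB ⟨by omega, by omega⟩,
    hB.out hxB hyB ⟨by omega, by omega⟩⟩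

variable {V : Type} {T : SimpleGraph V}

lemma Win.symm {A B : Set V} (h : Win T A B) : Win T B A := by
  obtain ⟨y, z, h1, h2, h3, h4, h5⟩ := h
  exact ⟨y, z, h2, h1, h4, h3, h5⟩

lemma gadget [Finite V] (hT : T.IsTree) (Q : Set V) (U : Fin 13 → Set V) (hQ : Cvx T Q)
    (hQc : Col T Q) (hU : ∀ i, Cvx T (U i)) (hQU : ∀ i, Win T Q (U i))
    (hUU : ∀ i j, i ≠ j → ¬ Win T (U i) (U j)) :
    ∃ u p v, u ∈ Q ∧ p ∈ Q ∧ v ∈ Q ∧ T.dist u p = 4 ∧ T.dist p v = 4 ∧ T.dist u v = 8 ∧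
      ∀ P, Cvx T P → Win T P Q → (∀ i, Win T P (U i)) → u ∈ P ∧ p ∈ P ∧ v ∈ P := by
  have hne : Q.Nonempty := by
    obtain ⟨y, -, h, -⟩ := hQU 0
    exact ⟨y, h⟩
  obtain ⟨e, he, hend⟩ := exists_end hT hQc hne
  have hoc : ∀ P, Cvx T P → ((fun y => T.dist e y) '' (P ∩ Q)).OrdConnected := by
    intro P hP
    constructor
    rintro _ ⟨y, hy, rfl⟩ _ ⟨z, hz, rfl⟩ t ⟨ht1, ht2⟩
    simp only at ht1 ht2
    have hyz := hend y hy.2 z hz.2
    have s1 : T.dist z y = T.dist y z := dist_comm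
    obtain ⟨w, hw1, hw2⟩ := exists_point hT (t - T.dist e y) y z (by unfold Btw at *; omega)
    refine ⟨w, ⟨hP y w z hy.1 hz.1 hw2, hQ y w z hy.2 hz.2 hw2⟩, ?_⟩
    have t1 := hT.connected.dist_triangle (u := e) (v := y) (w := w)
    have t2 := hT.connected.dist_triangle (u := e) (v := w) (w := z)
    simp only
    unfold Btw at *
    omega
  have hs : ∀ i, ∃ s, s ∈ (fun y => T.dist e y) '' (U i ∩ Q) ∧
      s + 4 ∈ (fun y => T.dist e y) '' (U i ∩ Q) := by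
    intro i
    obtain ⟨y, z, h1, h2, h3, h4, h5⟩ := hQU i
    have hyz := hend y h1 z h3
    have s1 : T.dist z y = T.dist y z := dist_comm
    rcases hyz with h | h
    · refine ⟨T.dist e y, ⟨y, ⟨h2, h1⟩, rfl⟩, ?_⟩
      exact (hoc _ (hU i)).out ⟨y, ⟨h2, h1⟩, rfl⟩ ⟨z, ⟨h4, h3⟩, rfl⟩
        ⟨by simp, by unfold Btw at h; simp only; omega⟩
    · refine ⟨T.dist e z, ⟨z, ⟨h4, h3⟩, rfl⟩, ?_⟩
      exact (hoc _ (hU i)).out ⟨z, ⟨h4, h3⟩, rfl⟩ ⟨y, ⟨h2, h1⟩, rfl⟩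
        ⟨by simp, by unfold Btw at h; simp only; omega⟩
  choose s hs1 hs2 using hs
  have hcoord : ∀ y ∈ Q, ∀ z ∈ Q, ∀ k, T.dist e z = T.dist e y + k → T.dist y z = k := by
    intro y hy z hz k hk
    have hyz := hend y hy z hz
    have s1 : T.dist z y = T.dist y z := dist_comm
    unfold Btw at *
    omega
  have hinj : ∀ y ∈ Q, ∀ z ∈ Q, T.dist e z = T.dist e y → y = z := fun y hy z hz h =>
    hT.connected.dist_eq_zero_iff.mp (hcoord y hy z hz 0 (by omega))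
  obtain ⟨t, ht⟩ := nat_gadget (fun i => (fun y => T.dist e y) '' (U i ∩ Q))
    (fun i => hoc _ (hU i)) s (fun i => ⟨hs1 i, hs2 i⟩) (by
      rintro i j hij t ⟨y, hy, hy'⟩ ⟨z, hz, hz'⟩ ⟨y2, hy2, hy2'⟩ ⟨z2, hz2, hz2'⟩
      simp only at hy' hz' hy2' hz2'
      have e1 : y = y2 := hinj y hy.2 y2 hy2.2 (by omega)
      have e2 : z = z2 := hinj z hz.2 z2 hz2.2 (by omega)
      subst e1 e2
      exact hUU i j hij ⟨y, z, hy.1, hy2.1, hz.1, hz2.1,
        (hcoord y hy.2 z hz.2 4 (by omega)).ge⟩)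
  obtain ⟨⟨u, hu, hu'⟩, ⟨p, hp, hp'⟩, ⟨v, hv, hv'⟩⟩ := ht _ (hoc Q hQ) (by
    intro i
    obtain ⟨y, hy, hy'⟩ := hs1 i
    exact ⟨_, ⟨y, hy, rfl⟩, ⟨y, ⟨hy.2, hy.2⟩, rfl⟩⟩)
  simp only at hu' hp' hv'
  refine ⟨u, p, v, hu.1, hp.1, hv.1, hcoord u hu.1 p hp.1 4 (by omega),
    hcoord p hp.1 v hv.1 4 (by omega), hcoord u hu.1 v hv.1 8 (by omega), ?_⟩
  intro P hP hPQ hPU
  obtain ⟨⟨u2, hu2, hu2'⟩, ⟨p2, hp2, hp2'⟩, ⟨v2, hv2, hv2'⟩⟩ := ht _ (hoc P hP) (by
    intro i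
    obtain ⟨m, m1, m2, m3⟩ := helly hT hP hQ (hU i) hPQ (hQU i) (hPU i)
    exact ⟨_, ⟨m, ⟨m3, m2⟩, rfl⟩, ⟨m, ⟨m1, m2⟩, rfl⟩⟩)
  simp only at hu2' hp2' hv2'
  rw [hinj u hu.1 u2 hu2.2 (by omega), hinj p hp.1 p2 hp2.2 (by omega),
    hinj v hv.1 v2 hv2.2 (by omega)]
  exact ⟨hu2.1, hp2.1, hv2.1⟩

lemma privacy (hT : T.IsTree) {P Q R : Set V} {u p v : V} (hPc : Col T P) (hQ : Cvx T Q)
    (hR : Cvx T R) (hu : u ∈ Q) (hp : p ∈ Q) (hv : v ∈ Q) (hup : T.dist u p = 4)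
    (hpv : T.dist p v = 4) (huv : T.dist u v = 8) (huP : u ∈ P) (hvP : v ∈ P)
    (hPR : Win T P R) (hQR : ¬ Win T Q R) : p ∉ R := by
  intro hpR
  have huR : u ∉ R := fun h => hQR ⟨u, p, hu, h, hp, hpR, hup.ge⟩
  have hvR : v ∉ R := fun h => hQR ⟨p, v, hp, hpR, hv, h, hpv.ge⟩
  have key : ∀ w ∈ P, w ∈ R → w ∈ Q := by
    intro w hwP hwR
    have t1 := hT.connected.dist_triangle (u := w) (v := u) (w := p)
    have t2 := hT.connected.dist_triangle (u := w) (v := p) (w := v)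
    have t3 := hT.connected.dist_triangle (u := p) (v := v) (w := w)
    have t4 := hT.connected.dist_triangle (u := u) (v := p) (w := w)
    rcases hPc u w v huP hwP hvP with h | h | h
    · exact hQ u w v hu hv h
    · exact absurd (hR w u p hwR hpR (by unfold Btw at *; omega)) huR
    · exact absurd (hR p v w hpR hwR (by unfold Btw at *; omega)) hvR
  obtain ⟨y, z, h1, h2, h3, h4, h5⟩ := hPR
  exact hQR ⟨y, z, key y h1 h2, h2, key z h3 h4, h4, h5⟩

lemma upper (hT : T.IsTree) {A B : Set V} {X Y Z W : V} (hA : Cvx T A) (hB : Cvx T B)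
    (hX : X ∈ A) (hZ : Z ∈ A) (hY : Y ∈ B) (hW : W ∈ B) (hn : ¬ Win T A B) :
    T.dist X Z + T.dist Y W ≤ T.dist X Y + T.dist Z W + 7 := by
  by_contra hc
  obtain ⟨m, m1, m2, m3⟩ := exists_median hT X Y Z
  obtain ⟨n, n1, n2, n3⟩ := exists_median hT X Z W
  have t1 := hT.connected.dist_triangle (u := Y) (v := m) (w := W)
  have t2 := hT.connected.dist_triangle (u := Y) (v := n) (w := W)
  have t3 := hT.connected.dist_triangle (u := X) (v := n) (w := Z)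
  have t4 := hT.connected.dist_triangle (u := m) (v := n) (w := Z)
  have t5 := hT.connected.dist_triangle (u := m) (v := n) (w := W)
  have s1 : T.dist Y m = T.dist m Y := dist_comm
  have s2 : T.dist W m = T.dist m W := dist_comm
  have s3 : T.dist W Z = T.dist Z W := dist_comm
  have s4 : T.dist Z n = T.dist n Z := dist_comm
  have s5 : T.dist Y n = T.dist n Y := dist_comm
  have hm : Btw T Y m W := by
    rcases btw_split hT W m2 with h | h
    · exact h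
    · unfold Btw at *; omega
  have hn' : Btw T Y n W := by
    rcases btw_split hT Y n3 with h | h
    · unfold Btw at *; omega
    · exact h
  exact hn ⟨m, n, hA X m Z hX hZ m3, hB Y m W hY hW hm, hA X n Z hX hZ n1, hB Y n W hY hW hn',
    by unfold Btw at *; omega⟩

lemma lower (hT : T.IsTree) {X Y Z W y z : V} (h1 : Btw T X y Z) (h2 : Btw T X z Z)
    (h3 : Btw T Y y W) (h4 : Btw T Y z W) (hd : 4 ≤ T.dist y z) :
    T.dist X Y + T.dist Z W + 8 ≤ T.dist X Z + T.dist Y W ∨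
    T.dist X W + T.dist Y Z + 8 ≤ T.dist X Z + T.dist Y W := by
  have a1 := btw_split hT y h2
  have a2 := btw_split hT y h4
  have t1 := hT.connected.dist_triangle (u := X) (v := y) (w := Y)
  have t2 := hT.connected.dist_triangle (u := X) (v := z) (w := Y)
  have t3 := hT.connected.dist_triangle (u := Z) (v := y) (w := W)
  have t4 := hT.connected.dist_triangle (u := Z) (v := z) (w := W)
  have t5 := hT.connected.dist_triangle (u := X) (v := y) (w := W)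
  have t6 := hT.connected.dist_triangle (u := X) (v := z) (w := W)
  have t7 := hT.connected.dist_triangle (u := Y) (v := y) (w := Z)
  have t8 := hT.connected.dist_triangle (u := Y) (v := z) (w := Z)
  have s1 : T.dist y Y = T.dist Y y := dist_comm
  have s2 : T.dist z Y = T.dist Y z := dist_comm
  have s3 : T.dist Z y = T.dist y Z := dist_comm
  have s4 : T.dist Z z = T.dist z Z := dist_comm
  have s5 : T.dist z y = T.dist y z := dist_comm
  unfold Btw at *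
  omega

end Pool.Agent.P.MP_ebe746_co
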