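import Mathlib

set_option autoImplicit false

namespace Pool.Agent.P.MP_ebe746_co

open SimpleGraph

/-- branch vertex carrying the legs `2g` and `2g+1` -/
def br (g : ℕ) : ℕ := if g = 4 then 3 else 4 + g

/-- parent function of the host tree (root `0`) -/
def par (w : ℕ) : ℕ :=
  if w < 4 then 0 else if w < 6 then 1 else if w < 8 then 2
  else if (w - 8) % 16 = 0 then br ((w - 8) / 16 / 2) else w - 1

def nb (w : ℕ) : List ℕ :=
  if w = 0 then [1, 2, 3] else if w = 1 then [0, 4, 5] else if w = 2 then [0, 6, 7]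
  else if w = 3 then [0, 136, 152] else if w < 8 then [par w, 8 + 32 * (w - 4), 24 + 32 * (w - 4)]
  else [par w, w + 1]

def legMask (X : ℕ) : ℕ := 65535 <<< (8 + 16 * X)

def coreMask (g h : ℕ) : ℕ :=
  (53681515086555715736895186609803271263452175732267390808592 >>> (8 * (5 * g + h))) % 256

def coreTop (g h : ℕ) : ℕ :=
  (18831305206160198570948329888545671473971702158918131122436 >>> (8 * (5 * g + h))) % 256

def mask (v : ℕ) : ℕ :=
  if v < 100 then legMask (v / 10) ||| legMask (v % 10) ||| coreMask (v / 10 / 2) (v % 10 / 2)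
  else if v < 110 then legMask (v - 100)
  else 15 <<< (8 + 16 * ((v - 110) / 13) + (v - 110) % 13)

def top (v : ℕ) : ℕ :=
  if v < 100 then coreTop (v / 10 / 2) (v % 10 / 2)
  else if v < 110 then 8 + 16 * (v - 100)
  else 8 + 16 * ((v - 110) / 13) + (v - 110) % 13

def host : SimpleGraph (Fin 168) where
  Adj i j := i ≠ j ∧ (par i = j ∨ par j = i)
  symm := ⟨fun _ _ h => ⟨h.1.symm, h.2.symm⟩⟩
  loopless := ⟨fun _ h => h.1 rfl⟩

def sub (v : Fin 240) : Set (Fin 168) := {w | (mask v).testBit w = true}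

def cnt (x : ℕ) : ℕ := (List.range 168).countP (fun w => x.testBit w)

lemma ncard_inter (u v : Fin 240) : (sub u ∩ sub v).ncard = cnt (mask u &&& mask v) := by
  have h1 : Fin.val '' (sub u ∩ sub v) =
      (((List.range 168).filter (fun w => (mask u &&& mask v).testBit w)).toFinset : Set ℕ) := by
    ext w
    simp only [sub, Set.mem_image, Set.mem_inter_iff, Set.mem_ofPred_eq, List.coe_toFinset,
      List.mem_filter, List.mem_range, Nat.testBit_and, Bool.and_eq_true]
    constructor
    · rintro ⟨x, hx, rfl⟩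
      exact ⟨x.2, hx⟩
    · rintro ⟨h1, h2⟩
      exact ⟨⟨w, h1⟩, h2, rfl⟩
  rw [← Set.ncard_image_of_injective _ Fin.val_injective, h1, Set.ncard_coe_finset,
    List.toFinset_card_of_nodup (List.nodup_range.filter _), cnt, List.countP_eq_length_filter]

/-- the counterexample graph -/
def graph : SimpleGraph (Fin 240) where
  Adj u v := u ≠ v ∧ 4 ≤ cnt (mask u &&& mask v)
  symm := ⟨fun u v h => ⟨h.1.symm, by rw [Nat.and_comm]; exact h.2⟩⟩
  loopless := ⟨fun _ h => h.1 rfl⟩

def iP (X Y : Fin 10) : Fin 240 :=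
  ⟨10 * min X.val Y.val + max X.val Y.val, by have := X.2; have := Y.2; omega⟩
def iQ (X : Fin 10) : Fin 240 := ⟨100 + X.val, by have := X.2; omega⟩
def iU (X : Fin 10) (i : Fin 13) : Fin 240 :=
  ⟨110 + 13 * X.val + i.val, by have := X.2; have := i.2; omega⟩

lemma iP_symm (X Y : Fin 10) : iP X Y = iP Y X := by
  simp [iP, min_comm, max_comm]

/-- adjacent -/
abbrev Ad (u v : Fin 240) : Prop := u ≠ v ∧ 4 ≤ cnt (mask u &&& mask v)
/-- distinct and not adjacent -/
abbrev Na (u v : Fin 240) : Prop := u ≠ v ∧ ¬ 4 ≤ cnt (mask u &&& mask v)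


end Pool.Agent.P.MP_ebe746_co
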