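import Pool.Agent.P.MP_ebe746_co.DgTar

set_option autoImplicit false

namespace Pool.Agent.P.MP_ebe746_co.Dg

open SimpleGraph Pool.Agent.P.MP_ebe746_co.Cl

variable {α : Type} [Fintype α] [Inhabited α] {N M k : ℕ}

/-- the leaves of a caterpillar along the ray of `b` -/
def cat (b : Lv α N) (n i j : ℕ) (ω : ℕ → α) : Set (Lv α N) :=
  {x | ∃ l c, i ≤ l ∧ l ≤ j ∧ c ≠ ry b (n + l) ∧ (l = i ∨ l = j ∨ c ≠ ω l) ∧
    x = lv N (ry b) (n + l) c}

lemma cat_adm (hs : 3 ≤ Fintype.card α) (b : Lv α N) {n i j : ℕ} {ω : ℕ → α} (hij : i < j)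
    (hN : n + j < N) (hω : ∀ l, ω l ≠ ry b (n + l)) : Adm (cat b n i j ω) (n + i) := by
  have hag : ∀ x ∈ cat b n i j ω, Agr (ry x) (ry b) (n + i) := by
    rintro _ ⟨l, c, h1, h2, -, -, rfl⟩
    exact (lv_agr _ c (by omega)).mono (by omega)
  obtain ⟨c0, hc0, -⟩ := exists_avoid hs (ry b (n + i)) (ry b (n + i))
  refine ⟨⟨_, i, c0, le_rfl, hij.le, hc0, Or.inl rfl, rfl⟩, by omega,
    fun x hx y hy => (hag x hx).trans (hag y hy).symm, ?_⟩
  rintro m hm _ ⟨l, c, h1, h2, h3, -, rfl⟩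
  have a1 := lv_agr (N := N) (ry b) c (n := n + l) (by omega)
  have a2 := lv_at (N := N) (ry b) c (n := n + l) (by omega)
  by_cases hml : m ≤ n + l
  · obtain ⟨t, rfl⟩ : ∃ t, m = n + t := ⟨m - n, by omega⟩
    refine ⟨if t = j then ry b (n + j) else ω t, ?_⟩
    rintro _ ⟨l', c', k1, k2, k3, k4, rfl⟩ hxy
    have b1 := lv_agr (N := N) (ry b) c' (n := n + l') (by omega)
    have b2 := lv_at (N := N) (ry b) c' (n := n + l') (by omega)
    have k5 := (hxy.symm.trans (a1.mono hml)).le (m := n + l') (by rw [b2]; exact k3)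
    rcases eq_or_lt_of_le k5 with e | hlt
    · obtain rfl : t = l' := by omega
      rw [b2]
      split_ifs with h
      · rw [← h]; exact k3
      · exact (k4.resolve_left (by omega)).resolve_left h
    · rw [b1 _ hlt, if_neg (by omega)]
      exact (hω t).symm
  · obtain ⟨e, he, -⟩ := exists_avoid hs (ry (lv N (ry b) (n + l) c) m)
      (ry (lv N (ry b) (n + l) c) m)
    refine ⟨e, ?_⟩
    rintro _ ⟨l', c', k1, k2, k3, -, rfl⟩ hxy
    have b1 := lv_agr (N := N) (ry b) c' (n := n + l') (by omega)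
    have b2 := lv_at (N := N) (ry b) c' (n := n + l') (by omega)
    rcases lt_trichotomy l l' with h | rfl | h
    · exact absurd (a2.symm.trans ((hxy _ (by omega)).trans (b1 _ (by omega)))) h3
    · obtain rfl : c = c' := a2.symm.trans ((hxy _ (by omega)).trans b2)
      exact he.symm
    · exact absurd (b2.symm.trans ((hxy _ (by omega)).symm.trans (a1 _ (by omega)))) k3

lemma cat_card (hs : 3 ≤ Fintype.card α) {b o : Lv α N} {n i j : ℕ} (ω : ℕ → α) (hij : i < j)
    (hN : n + j < N) (hM : N ≤ M) (hn : 0 < n) (hb : ry b 0 ≠ ry o 0) :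
    (ext M (cat b n i j ω) (n + i) ∩ ext M {o, b} 0).ncard = j + 1 - i := by
  have e : ext M (cat b n i j ω) (n + i) ∩ ext M {o, b} 0 = band M {ry b} (n + i) (n + j) := by
    refine Set.Subset.antisymm ?_ (Set.subset_inter ?_ ?_)
    · intro w hw
      obtain ⟨k1, -, _, ⟨l, c, h1, h2, h3, -, rfl⟩, y, hy, k2, -, k4⟩ := ext_inter hw
      have a1 := lv_agr (N := N) (ry b) c (n := n + l) (by omega)
      have a2 := lv_at (N := N) (ry b) c (n := n + l) (by omega)
      rcases hy with rfl | rfl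
      · exact absurd ((a1 0 (by omega)).symm.trans (k2 0 (by omega))) hb
      · have := k2.le (m := n + l) (by rw [a2]; exact h3)
        exact ⟨k1, by omega, _, rfl, k4⟩
    · obtain ⟨c0, hc0, -⟩ := exists_avoid hs (ry b (n + j)) (ry b (n + j))
      exact band_sub ⟨_, ⟨j, c0, hij.le, le_rfl, hc0, Or.inr (Or.inl rfl), rfl⟩, rfl⟩
        (lv_agr _ c0 hN).symm le_rfl (by omega)
    · exact band_sub ⟨b, Or.inr rfl, rfl⟩ (Agr.refl _ _) (by omega) (by omega)
  rw [e, band_card _ _ (by omega)]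
  omega

variable {V : Type} [Finite V] {T : SimpleGraph V} {F : Set (Lv α N) → ℕ → Set V}
  {p : Lv α N → V}

theorem Tar.false (H : Tar M k (k + 1) T F p) (hs : 3 ≤ Fintype.card α) (hk : 3 ≤ k)
    (hN : 4 * k + 2 ≤ N) (hM : N ≤ M)
    (hp : (Fintype.card α - 1) ^ (k + 1) < Fintype.card α ^ k) : False := by
  classical
  have hT := H.tree
  obtain ⟨c1, hc1, -⟩ := exists_avoid hs (default : α) default
  obtain ⟨o, ho⟩ : ∃ o : Lv α N, ry o 0 ≠ default :=
    ⟨lv N (fun _ => default) 0 c1, by rw [lv_at _ _ (by omega)]; exact hc1⟩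
  obtain ⟨g, q, G⟩ := exists_geo hT p o
  have W := H.met G hs ho hM (by omega)
  obtain ⟨b, n, v, hb0, hn, hnk, hC⟩ := W.path hk (2 * k + 1) (by omega) hp
  set Z : ℕ → α → Lv α N := fun l c => lv N (ry b) (n + l) c with hZ
  have zA : ∀ l ≤ 2 * k + 1, ∀ c, Agr (ry (Z l c)) (ry b) (n + l) := fun l hl c =>
    lv_agr _ c (by omega)
  have zB : ∀ l ≤ 2 * k + 1, ∀ c, ry (Z l c) (n + l) = c := fun l hl c => lv_at _ c (by omega)
  have zo : ∀ l ≤ 2 * k + 1, ∀ c, Z l c ≠ o := fun l hl c e =>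
    ho (by rw [← e, zA l hl c 0 (by omega)]; exact hb0)
  have bo : b ≠ o := fun e => ho (e ▸ hb0)
  have gZZ : ∀ l ≤ 2 * k + 1, ∀ c c', c ≠ c' → Z l c ≠ Z l c' ∧ g (Z l c) (Z l c') = v + l := by
    intro l hl c c' h
    have h1 : ry (Z l c) (n + l) ≠ ry (Z l c') (n + l) := by rw [zB l hl, zB l hl]; exact h
    have h2 : Z l c ≠ Z l c' := fun e => h1 (by rw [e])
    exact ⟨h2, (hC l hl _ _ (zA l hl c) (zA l hl c') h2).1 h1⟩
  have gZx : ∀ l ≤ 2 * k + 1, ∀ c, c ≠ ry b (n + l) → ∀ x, Agr (ry x) (ry b) (n + l + 1) →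
      Z l c ≠ x ∧ g (Z l c) x = v + l := by
    intro l hl c h x hx
    have h1 : ry (Z l c) (n + l) ≠ ry x (n + l) := by rw [zB l hl, hx _ (by omega)]; exact h
    have h2 : Z l c ≠ x := fun e => h1 (by rw [e])
    exact ⟨h2, (hC l hl _ _ (zA l hl c) (hx.mono (by omega)) h2).1 h1⟩
  have dZ : ∀ l ≤ 2 * k + 1, ∀ c, v + l < T.dist (p o) (p (Z l c)) := by
    intro l hl c
    obtain ⟨c', h, -⟩ := exists_avoid hs c c
    rw [← (gZZ l hl c c' h.symm).2]
    exact H.lt G (zo l hl c) (gZZ l hl c c' h.symm).1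
  have db : ∀ l ≤ 2 * k + 1, v + l < T.dist (p o) (p b) := by
    intro l hl
    obtain ⟨c, h, -⟩ := exists_avoid hs (ry b (n + l)) (ry b (n + l))
    rw [← (gZx l hl c h b (Agr.refl _ _)).2, W.sym]
    exact H.lt G bo (gZx l hl c h b (Agr.refl _ _)).1.symm
  have qb : ∀ l ≤ 2 * k + 1, q (Z l (ry b (n + l))) (v + l + 1) = q b (v + l + 1) := by
    intro l hl
    by_cases e : Z l (ry b (n + l)) = b
    · rw [e]
    · exact on_eq hT (G.gr _ b) (G.on _ _ (dZ l hl _)) (G.on _ _ (db l hl))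
        ((hC l hl _ _ (zA l hl _) (Agr.refl _ _) e).2 (zB l hl _))
  have qZ : ∀ l ≤ 2 * k + 1, ∀ c, ∀ h ≤ v + l, q (Z l c) h = q b h := by
    intro l hl c h hh
    have := dZ l hl c
    have := db l hl
    by_cases e : Z l c = b
    · rw [e]
    refine on_eq hT (G.gr _ b) (G.on _ _ (by omega)) (G.on _ _ (by omega)) ?_
    have k1 := hC l hl _ _ (zA l hl c) (Agr.refl _ _) e
    by_cases e' : ry (Z l c) (n + l) = ry b (n + l)
    · have := k1.2 e'; omega
    · have := k1.1 e'; omega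
  have adjW : ∀ l ≤ 2 * k + 1, ∀ c, T.Adj (q b (v + l)) (q (Z l c) (v + l + 1)) := by
    intro l hl c
    rw [← qZ l hl c _ le_rfl]
    exact on_adj hT (G.on _ _ (dZ l hl c).le) (G.on _ _ (dZ l hl c))
  have hW : ∀ l ≤ 2 * k + 1, ∀ c, T.dist (p o) (q (Z l c) (v + l + 1)) = v + l + 1 :=
    fun l hl c => (G.on _ _ (dZ l hl c)).1
  have hY : ∀ l ≤ 2 * k + 1, T.dist (p o) (q b (v + l)) = v + l :=
    fun l hl => (G.on _ _ (db l hl).le).1
  have injW : ∀ l ≤ 2 * k + 1, Function.Injective fun c => q (Z l c) (v + l + 1) := by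
    intro l hl c c' e
    by_contra h
    have e' : q (Z l c) (v + l + 1) = q (Z l c') (v + l + 1) := e
    have := on_le hT (G.gr (Z l c) (Z l c')) (G.on _ _ (dZ l hl c)) (e' ▸ G.on _ _ (dZ l hl c'))
    have := (gZZ l hl c c' h).2
    omega
  have aM : Adm ({o, b} : Set (Lv α N)) 0 := adm_pair hs (by omega) (fun i hi => by omega)
  have yM : ∀ l ≤ 2 * k + 1, q b (v + l) ∈ F {o, b} 0 := fun l hl =>
    H.cvx _ _ aM _ _ _ (H.mem _ _ o aM (Or.inl rfl)) (H.mem _ _ b aM (Or.inr rfl))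
      (G.on _ _ (db l hl).le).2
  have catF : ∀ i j ω, i < j → j ≤ 2 * k + 1 → (∀ l, ω l ≠ ry b (n + l)) →
      (∀ l c, i ≤ l → l ≤ j → c ≠ ry b (n + l) → (l = i ∨ l = j ∨ c ≠ ω l) →
        q (Z l c) (v + l + 1) ∈ F (cat b n i j ω) (n + i)) ∧
      (∀ l, i ≤ l → l ≤ j → q b (v + l) ∈ F (cat b n i j ω) (n + i)) ∧
      (k + 2 ≤ (F (cat b n i j ω) (n + i) ∩ F {o, b} 0).ncard ↔ k + 1 ≤ j + 1 - i) := by
    intro i j ω hij hj hω
    have aL := cat_adm hs b hij (by omega) hω
    obtain ⟨ci, hci, -⟩ := exists_avoid hs (ry b (n + i)) (ry b (n + i))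
    obtain ⟨cj, hcj, -⟩ := exists_avoid hs (ry b (n + j)) (ry b (n + j))
    have mA : Z i ci ∈ cat b n i j ω := ⟨i, ci, le_rfl, hij.le, hci, Or.inl rfl, rfl⟩
    have mB : Z j cj ∈ cat b n i j ω := ⟨j, cj, hij.le, le_rfl, hcj, Or.inr (Or.inl rfl), rfl⟩
    have hin : ∀ x ∈ cat b n i j ω, ∀ y ∈ cat b n i j ω, ∀ h, g x y ≤ h →
        h ≤ T.dist (p o) (p x) → q x h ∈ F (cat b n i j ω) (n + i) :=
      fun x hx y hy h h1 h2 => H.cvx _ _ aL _ _ _ (H.mem _ _ y aL hy) (H.mem _ _ x aL hx)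
        (on_btw hT (G.gr x y) (G.on x h h2) h1)
    refine ⟨?_, ?_, ?_⟩
    · intro l c h1 h2 h3 h4
      have mx : Z l c ∈ cat b n i j ω := ⟨l, c, h1, h2, h3, h4, rfl⟩
      rcases eq_or_lt_of_le h1 with rfl | hlt
      · have := (gZx i (by omega) c h3 _ ((zA j hj cj).mono (by omega))).2
        exact hin _ mx _ mB _ (by omega) (dZ i (by omega) c)
      · have := (gZx i (by omega) ci hci _ ((zA l (by omega) c).mono (by omega))).2
        exact hin _ mx _ mA _ (by rw [W.sym]; omega) (dZ l (by omega) c)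
    · intro l h1 h2
      have := (gZx i (by omega) ci hci _ ((zA j hj cj).mono (by omega))).2
      have := dZ j hj cj
      rw [← qZ j hj cj _ (by omega)]
      exact hin _ mB _ mA _ (by rw [W.sym]; omega) (by omega)
    · rw [← cat_card hs (o := o) ω hij (by omega) hM hn (by rw [hb0]; exact ho.symm)]
      refine H.thr _ _ _ _ aL aM ?_
      intro e
      obtain ⟨l, c, h1, h2, -, -, h3⟩ : o ∈ cat b n i j ω := e ▸ Or.inl rfl
      exact zo l (by omega) c h3.symm
  have cardY : ∀ i j, j ≤ 2 * k + 1 →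
      ((Finset.Icc i j).image fun l => q b (v + l)).card = j + 1 - i := by
    intro i j hj
    rw [Finset.card_image_of_injOn, Nat.card_Icc]
    intro l hl l' hl' e
    have e' : q b (v + l) = q b (v + l') := e
    simp only [Finset.coe_Icc, Set.mem_Icc] at hl hl'
    have := hY l (by omega)
    have := hY l' (by omega)
    rw [e'] at *
    omega
  have notY : ∀ l ≤ 2 * k + 1, ∀ c, c ≠ ry b (n + l) → ∀ m ≤ 2 * k + 1,
      q b (v + m) ≠ q (Z l c) (v + l + 1) := by
    intro l hl c hc m hm e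
    have e1 := hY m hm
    rw [e, hW l hl] at e1
    rw [← e1] at e
    have := on_le hT (G.gr (Z l c) b) (G.on _ _ (dZ l hl c)) (e ▸ G.on _ _ (db l hl))
    have := (gZx l hl c hc b (Agr.refl _ _)).2
    omega
  let E : ℕ → α → Prop := fun l c => c ≠ ry b (n + l) ∧ q (Z l c) (v + l + 1) ∈ F {o, b} 0
  have hU : ∀ l c l' c', E l c → E l' c' → l ≤ l' → l' + 1 ≤ l + k → l ≤ k + 1 →
      l = l' ∧ c = c' := by
    intro l c l' c' e1 e2 h1 h2 h3
    by_contra hne
    have hex : ∀ m, ∃ u, u ≠ ry b (n + m) ∧ u ≠ c' := fun m => exists_avoid hs _ _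
    choose ω hω1 hω2 using hex
    obtain ⟨k1, k2, k3⟩ := catF l (l + k - 1) ω (by omega) (by omega) hω1
    have hsub : (↑(insert (q (Z l c) (v + l + 1)) (insert (q (Z l' c') (v + l' + 1))
        ((Finset.Icc l (l + k - 1)).image fun m => q b (v + m)))) : Set V) ⊆
        F (cat b n l (l + k - 1) ω) (n + l) ∩ F {o, b} 0 := by
      intro x hx
      rcases Finset.mem_insert.mp hx with rfl | hx
      · exact ⟨k1 l c le_rfl (by omega) e1.1 (Or.inl rfl), e1.2⟩
      rcases Finset.mem_insert.mp hx with rfl | hx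
      · exact ⟨k1 l' c' h1 (by omega) e2.1 (Or.inr (Or.inr (hω2 l').symm)), e2.2⟩
      obtain ⟨m, hm, rfl⟩ := Finset.mem_image.mp hx
      rw [Finset.mem_Icc] at hm
      exact ⟨k2 m hm.1 hm.2, yM m (by omega)⟩
    have hc := Set.ncard_le_ncard hsub
    have n1 : ∀ l ≤ 2 * k + 1, ∀ c, c ≠ ry b (n + l) → ∀ i, q (Z l c) (v + l + 1) ∉
        (Finset.Icc i (i + k - 1)).image (fun m => q b (v + m)) ∨ k + 1 < i := by
      intro l hl c hc i
      by_cases hi : k + 1 < i
      · exact Or.inr hi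
      refine Or.inl fun h => ?_
      obtain ⟨m, hm, e⟩ := Finset.mem_image.mp h
      rw [Finset.mem_Icc] at hm
      exact notY l hl c hc m (by omega) e
    rw [Set.ncard_coe_finset, Finset.card_insert_of_notMem, Finset.card_insert_of_notMem,
      cardY _ _ (by omega)] at hc
    · have := k3.mp (by omega)
      omega
    · exact (n1 l' (by omega) c' e2.1 l).resolve_right (by omega)
    · intro h
      rcases Finset.mem_insert.mp h with e | h
      · have f1 := hW l (by omega) c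
        rw [e, hW l' (by omega)] at f1
        obtain rfl : l = l' := by omega
        exact hne ⟨rfl, injW l (by omega) e⟩
      · exact (n1 l (by omega) c e1.1 l).resolve_right (by omega) h
  have hL : ∀ i ≤ 2, (∃ c, E i c) ∨ ∃ c, E (i + k) c := by
    intro i hi
    have hex : ∀ m, ∃ u, u ≠ ry b (n + m) ∧ ((∃ c, E m c) → E m u) := by
      intro m
      by_cases h : ∃ c, E m c
      · obtain ⟨c, hc⟩ := h
        exact ⟨c, hc.1, fun _ => hc⟩
      · obtain ⟨u, hu, -⟩ := exists_avoid hs (ry b (n + m)) (ry b (n + m))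
        exact ⟨u, hu, fun h' => absurd h' h⟩
    choose ω hω1 hω2 using hex
    obtain ⟨k1, k2, k3⟩ := catF i (i + k) ω (by omega) (by omega) hω1
    have aL := cat_adm hs b (show i < i + k by omega) (by omega) hω1
    have hcv : Cvx T (F (cat b n i (i + k) ω) (n + i) ∩ F {o, b} 0) := fun x m y hx hy hm =>
      ⟨H.cvx _ _ aL x m y hx.1 hy.1 hm, H.cvx _ _ aM x m y hx.2 hy.2 hm⟩
    obtain ⟨w, hw, hwY, z, hz, hadj⟩ := exists_adj_out hT
      (B := ↑((Finset.Icc i (i + k)).image fun m => q b (v + m))) hcv (y := q b (v + i))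
      (Finset.mem_coe.mpr (Finset.mem_image.mpr ⟨i, by simp, rfl⟩))
      ⟨k2 i le_rfl (by omega), yM i (by omega)⟩ (by
        rw [Set.ncard_coe_finset, cardY _ _ (by omega)]
        have := k3.mpr (by omega)
        omega)
    obtain ⟨l, hl, rfl⟩ := Finset.mem_image.mp (Finset.mem_coe.mp hz)
    rw [Finset.mem_Icc] at hl
    have hwY' : ∀ m, i ≤ m → m ≤ i + k → q b (v + m) ≠ w := fun m h1 h2 e =>
      hwY (Finset.mem_coe.mpr (Finset.mem_image.mpr ⟨m, Finset.mem_Icc.mpr ⟨h1, h2⟩, e⟩))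
    have hin : ∀ c, (l = i ∨ (l = i + k ∧ c ≠ ry b (n + l)) ∨ (l < i + k ∧ c ≠ ω l)) →
        q (Z l c) (v + l + 1) ∈ F (cat b n i (i + k) ω) (n + i) := by
      intro c hc
      by_cases e : c = ry b (n + l)
      · rw [e, qb l (by omega)]
        refine k2 (l + 1) (by omega) ?_
        rcases hc with h | h | h
        · omega
        · exact absurd e h.2
        · omega
      · exact k1 l c hl.1 hl.2 e (by tauto)
    have hfound : ∃ c, (l = i ∨ (l = i + k ∧ c ≠ ry b (n + l)) ∨ (l < i + k ∧ c ≠ ω l)) ∧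
        q (Z l c) (v + l + 1) = w := by
      by_contra hc
      push Not at hc
      rcases eq_or_lt_of_le hl.1 with e | hlt
      · have := H.nbr aL (k2 l hl.1 hl.2)
          (insert w (Finset.univ.image fun c => q (Z l c) (v + l + 1))) (by
            intro x hx
            rcases Finset.mem_insert.mp hx with rfl | hx
            · exact ⟨hadj, hw.1⟩
            · obtain ⟨c, -, rfl⟩ := Finset.mem_image.mp hx
              exact ⟨adjW l (by omega) c, hin c (Or.inl e.symm)⟩)
        rw [Finset.card_insert_of_notMem (by simpa using fun c => hc c (Or.inl e.symm)),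
          Finset.card_image_of_injective _ (injW l (by omega)), Finset.card_univ] at this
        omega
      · obtain ⟨u, rfl⟩ : ∃ u, l = u + 1 := ⟨l - 1, by omega⟩
        obtain ⟨c0, hc0⟩ : ∃ c0, ∀ c, c ≠ c0 → (u + 1 = i ∨ (u + 1 = i + k ∧ c ≠ ry b (n + (u + 1)))
            ∨ (u + 1 < i + k ∧ c ≠ ω (u + 1))) := by
          rcases eq_or_lt_of_le hl.2 with e | h
          · exact ⟨_, fun c hc => Or.inr (Or.inl ⟨e, hc⟩)⟩
          · exact ⟨_, fun c hc => Or.inr (Or.inr ⟨h, hc⟩)⟩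
        have := H.nbr aL (k2 _ hl.1 hl.2) (insert w (insert (q b (v + u))
          ((Finset.univ.erase c0).image fun c => q (Z (u + 1) c) (v + (u + 1) + 1)))) (by
            intro x hx
            rcases Finset.mem_insert.mp hx with rfl | hx
            · exact ⟨hadj, hw.1⟩
            rcases Finset.mem_insert.mp hx with rfl | hx
            · exact ⟨(on_adj hT (G.on _ _ (db u (by omega)).le) (G.on _ _ (db u (by omega)))).symm,
                k2 u (by omega) (by omega)⟩
            · obtain ⟨c, h, rfl⟩ := Finset.mem_image.mp hx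
              exact ⟨adjW _ (by omega) c, hin c (hc0 c (Finset.ne_of_mem_erase h))⟩)
        rw [Finset.card_insert_of_notMem, Finset.card_insert_of_notMem,
          Finset.card_image_of_injective _ (injW _ (by omega)),
          Finset.card_erase_add_one (Finset.mem_univ c0), Finset.card_univ] at this
        · omega
        · intro h
          obtain ⟨c, -, e⟩ := Finset.mem_image.mp h
          have f1 := hW (u + 1) (by omega) c
          rw [e, hY u (by omega)] at f1
          omega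
        · intro h
          rcases Finset.mem_insert.mp h with e | h
          · exact hwY' u (by omega) (by omega) e.symm
          · obtain ⟨c, h, e⟩ := Finset.mem_image.mp h
            exact hc c (hc0 c (Finset.ne_of_mem_erase h)) e
    obtain ⟨c, h1, h2⟩ := hfound
    have hcb : c ≠ ry b (n + l) := by
      intro e
      rw [e, qb l (by omega)] at h2
      refine hwY' (l + 1) (by omega) ?_ h2
      rcases h1 with h | h | h
      · omega
      · exact absurd e h.2
      · omega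
    have hE : E l c := ⟨hcb, h2 ▸ hw.2⟩
    rcases h1 with h | h | h
    · exact Or.inl ⟨c, h ▸ hE⟩
    · exact Or.inr ⟨c, h.1 ▸ hE⟩
    · exact absurd (hU l c l _ hE (hω2 l ⟨c, hE⟩) le_rfl (by omega) (by omega)).2 h.2
  have hU' : ∀ l l', l < l' → l' + 1 ≤ l + k → l ≤ k + 1 → (∃ c, E l c) → (∃ c, E l' c) →
      False := by
    rintro l l' h1 h2 h3 ⟨c, hc⟩ ⟨c', hc'⟩
    have := (hU l c l' c' hc hc' h1.le h2 h3).1
    omega
  rcases hL 0 (by omega) with a | a <;> rcases hL 1 (by omega) with a' | a'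
  · exact hU' 0 1 (by omega) (by omega) (by omega) a a'
  · rcases hL 2 (by omega) with a'' | a''
    · exact hU' 0 2 (by omega) (by omega) (by omega) a a''
    · exact hU' (1 + k) (2 + k) (by omega) (by omega) (by omega) a' a''
  · exact hU' 1 (0 + k) (by omega) (by omega) (by omega) a' a
  · exact hU' (0 + k) (1 + k) (by omega) (by omega) (by omega) a a'

end Pool.Agent.P.MP_ebe746_co.Dg
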