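import Pool.Agent.P.MP_ebe746_co.ClPar

set_option autoImplicit false

namespace Pool.Agent.P.MP_ebe746_co.Dg

open SimpleGraph Pool.Agent.P.MP_ebe746_co.Cl

variable {α : Type}

def Agr (X Y : ℕ → α) (n : ℕ) : Prop := ∀ i < n, X i = Y i

lemma Agr.refl (X : ℕ → α) (n : ℕ) : Agr X X n := fun _ _ => rfl
lemma Agr.symm {X Y : ℕ → α} {n : ℕ} (h : Agr X Y n) : Agr Y X n := fun i hi => (h i hi).symm
lemma Agr.trans {X Y Z : ℕ → α} {n : ℕ} (h : Agr X Y n) (h' : Agr Y Z n) : Agr X Z n :=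
  fun i hi => (h i hi).trans (h' i hi)
lemma Agr.mono {X Y : ℕ → α} {n m : ℕ} (h : Agr X Y n) (hm : m ≤ n) : Agr X Y m :=
  fun i hi => h i (by omega)
lemma Agr.succ {X Y : ℕ → α} {n : ℕ} (h1 : Agr X Y n) (h2 : X n = Y n) : Agr X Y (n + 1) := by
  intro i hi
  rcases Nat.lt_succ_iff_lt_or_eq.mp hi with h' | rfl
  · exact h1 i h'
  · exact h2
lemma Agr.le {X Y : ℕ → α} {n m : ℕ} (h1 : Agr X Y n) (h2 : X m ≠ Y m) : n ≤ m := by
  by_contra hc
  exact h2 (h1 m (by omega))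

/-- the vertex at depth `n` on the ray `X` -/
def nd (X : ℕ → α) : ℕ → List α
  | 0 => []
  | n + 1 => X n :: nd X n

lemma nd_succ (X : ℕ → α) (n : ℕ) : nd X (n + 1) = X n :: nd X n := rfl

lemma nd_length (X : ℕ → α) (n : ℕ) : (nd X n).length = n := by
  induction n with
  | zero => rfl
  | succ n ih => rw [nd_succ, List.length_cons, ih]

lemma nd_eq_iff (X Y : ℕ → α) (n : ℕ) : nd X n = nd Y n ↔ Agr X Y n := by
  induction n with
  | zero => exact ⟨fun _ i hi => by omega, fun _ => rfl⟩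
  | succ n ih =>
    rw [nd_succ, nd_succ, List.cons.injEq, ih]
    exact ⟨fun h => h.2.succ h.1, fun h => ⟨h n (by omega), h.mono (by omega)⟩⟩

/-- vertices of the regular tree of depth `M` -/
abbrev RT (α : Type) (M : ℕ) : Type := {l : List α // l.length ≤ M}

instance [Finite α] (M : ℕ) : Finite (RT α M) := (List.finite_length_le α M).to_subtype

def rRoot (α : Type) (M : ℕ) : RT α M := ⟨[], Nat.zero_le _⟩

def rPar {M : ℕ} (w : RT α M) : RT α M :=
  ⟨w.1.tail, by have := w.2; rw [List.length_tail]; omega⟩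

def rTree (α : Type) (M : ℕ) : SimpleGraph (RT α M) := parG (rRoot α M) rPar

lemma rPar_lt {M : ℕ} (w : RT α M) (h : w ≠ rRoot α M) : (rPar w).1.length < w.1.length := by
  obtain ⟨l, hl⟩ := w
  cases l with
  | nil => exact absurd rfl h
  | cons a l => simp [rPar]

lemma rTree_isTree [Finite α] (M : ℕ) : (rTree α M).IsTree :=
  par_isTree (fun w => w.1.length) rPar_lt

lemma rTree_adj {M : ℕ} {w x : RT α M} (h : (rTree α M).Adj w x) :
    (∃ c, w.1 = c :: x.1) ∨ ∃ c, x.1 = c :: w.1 := by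
  obtain ⟨-, ⟨h0, h⟩ | ⟨h0, h⟩⟩ := h
  · left
    obtain ⟨l, hl⟩ := w
    cases l with
    | nil => exact absurd rfl h0
    | cons a l => exact ⟨a, by rw [← h]; rfl⟩
  · right
    obtain ⟨l, hl⟩ := x
    cases l with
    | nil => exact absurd rfl h0
    | cons a l => exact ⟨a, by rw [← h]; rfl⟩

lemma ncard_le_children {M : ℕ} (A : Set (RT α M)) (w : RT α M) (C : Finset α)
    (h : ∀ x ∈ A, ∃ c ∈ C, x.1 = c :: w.1) : A.ncard ≤ C.card := by
  classical
  have h1 : A.ncard ≤ (C.image (fun c => c :: w.1) : Set (List α)).ncard :=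
    Set.ncard_le_ncard_of_injOn Subtype.val (fun x hx => by
      obtain ⟨c, h1, h2⟩ := h x hx
      exact Finset.mem_coe.mpr (Finset.mem_image.mpr ⟨c, h1, h2.symm⟩))
      Subtype.val_injective.injOn
  rw [Set.ncard_coe_finset] at h1
  exact h1.trans Finset.card_image_le

lemma ncard_le_nbrs [Finite α] {M : ℕ} (S : Set (RT α M)) (w : RT α M) (C : Finset α)
    (h : ∀ x ∈ S, ∀ c, x.1 = c :: w.1 → c ∈ C) :
    ((rTree α M).neighborSet w ∩ S).ncard ≤ C.card + 1 := by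
  have hsub : (rTree α M).neighborSet w ∩ S ⊆
      insert (rPar w) {x | x ∈ S ∧ ∃ c, x.1 = c :: w.1} := by
    rintro x ⟨hx, hS⟩
    rcases rTree_adj hx with ⟨c, h'⟩ | h'
    · exact Or.inl (Subtype.ext (by simp [rPar, h']))
    · exact Or.inr ⟨hS, h'⟩
  refine (Set.ncard_le_ncard hsub).trans ((Set.ncard_insert_le _ _).trans ?_)
  refine Nat.succ_le_succ (ncard_le_children _ w C ?_)
  rintro x ⟨h1, c, h2⟩
  exact ⟨c, h x h1 c h2, h2⟩

lemma rTree_deg [Fintype α] {M : ℕ} (w : RT α M) :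
    ((rTree α M).neighborSet w).ncard ≤ Fintype.card α + 1 := by
  have := ncard_le_nbrs Set.univ w Finset.univ (fun _ _ _ _ => Finset.mem_univ _)
  rwa [Set.inter_univ] at this

/-- the union of the parts between depths `a` and `b` of a set of rays -/
def band (M : ℕ) (R : Set (ℕ → α)) (a b : ℕ) : Set (RT α M) :=
  {w | a ≤ w.1.length ∧ w.1.length ≤ b ∧ ∃ X ∈ R, w.1 = nd X w.1.length}

lemma band_card {M : ℕ} (X : ℕ → α) (a : ℕ) {b : ℕ} (hb : b ≤ M) :
    (band M {X} a b).ncard = b + 1 - a := by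
  have h1 : band M {X} a b = Subtype.val ⁻¹' (nd X '' Set.Icc a b) := by
    ext w
    constructor
    · rintro ⟨h1, h2, _, rfl, h3⟩; exact ⟨_, ⟨h1, h2⟩, h3.symm⟩
    · rintro ⟨n, ⟨h1, h2⟩, h3⟩
      have e : w.1.length = n := by rw [← h3, nd_length]
      exact ⟨by omega, by omega, X, rfl, by rw [e, h3]⟩
  rw [h1, Set.ncard_preimage_of_injective_subset_range Subtype.val_injective,
    Set.ncard_image_of_injective _ (fun n m h => by rw [← nd_length X n, h, nd_length])]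
  · simp
  · rintro _ ⟨n, ⟨-, h2⟩, rfl⟩
    exact ⟨⟨nd X n, by rw [nd_length]; omega⟩, rfl⟩

lemma band_sub {M : ℕ} {X Y : ℕ → α} {R : Set (ℕ → α)} {a b a' b' : ℕ} (hY : Y ∈ R)
    (h : Agr X Y b) (ha : a' ≤ a) (hb : b ≤ b') : band M {X} a b ⊆ band M R a' b' := by
  rintro w ⟨h1, h2, _, rfl, h3⟩
  exact ⟨by omega, by omega, Y, hY, h3.trans ((nd_eq_iff _ _ _).mpr (h.mono h2))⟩

lemma band_inter {M : ℕ} {R R' : Set (ℕ → α)} {a b a' b' : ℕ} {w : RT α M}
    (h : w ∈ band M R a b ∩ band M R' a' b') : a ≤ w.1.length ∧ a' ≤ w.1.length ∧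
      w.1.length ≤ b ∧ w.1.length ≤ b' ∧
      ∃ X ∈ R, ∃ Y ∈ R', Agr X Y w.1.length ∧ w.1 = nd X w.1.length ∧ w.1 = nd Y w.1.length := by
  obtain ⟨⟨h1, h2, X, h3, h4⟩, ⟨h5, h6, Y, h7, h8⟩⟩ := h
  exact ⟨h1, h5, h2, h6, X, h3, Y, h7, (nd_eq_iff _ _ _).mp (h4.symm.trans h8), h4, h8⟩

lemma band_conn {M : ℕ} {R : Set (ℕ → α)} {a b : ℕ} (hR : R.Nonempty)
    (h : ∀ X ∈ R, ∀ Y ∈ R, Agr X Y a) (hab : a ≤ b) (hM : a ≤ M) :
    (band M R a b).Nonempty ∧ ((rTree α M).induce (band M R a b)).Connected := by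
  obtain ⟨X, hX⟩ := hR
  let t : RT α M := ⟨nd X a, by rw [nd_length]; exact hM⟩
  have hl : t.1.length = a := nd_length X a
  have ht : t ∈ band M R a b := ⟨hl.ge, hl.le.trans hab, X, hX, by rw [hl]⟩
  refine ⟨⟨t, ht⟩, par_conn (fun w => w.1.length) rPar_lt _ t ht ?_⟩
  rintro w ⟨h1, h2, Y, hY, h3⟩ hw
  have hn : w.1.length ≠ a := by
    intro e
    rw [e] at h3
    exact hw (Subtype.ext (h3.trans ((nd_eq_iff _ _ _).mpr (h Y hY X hX))))
  obtain ⟨m, hm⟩ : ∃ m, w.1.length = m + 1 := ⟨w.1.length - 1, by omega⟩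
  have e : (rPar w).1.length = m := by simp [rPar, hm]
  refine ⟨?_, by omega, by omega, Y, hY, ?_⟩
  · rintro rfl
    simp [rRoot] at hm
  · rw [e]
    rw [hm] at h3
    simp [rPar, h3, nd_succ]

lemma band_child {M : ℕ} {R : Set (ℕ → α)} {a b : ℕ} {w x : RT α M} {X : ℕ → α} {c : α}
    (hw : w.1 = nd X w.1.length) (hx : x ∈ band M R a b) (h : x.1 = c :: w.1) :
    ∃ Y ∈ R, Agr X Y w.1.length ∧ Y w.1.length = c := by
  obtain ⟨-, -, Y, hY, h3⟩ := hx
  have hl : x.1.length = w.1.length + 1 := by rw [h, List.length_cons]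
  rw [hl, h, nd_succ] at h3
  exact ⟨Y, hY, (nd_eq_iff _ _ _).mp (hw.symm.trans (List.cons.inj h3).2),
    (List.cons.inj h3).1.symm⟩

lemma band_deg_one [Finite α] {M : ℕ} (X : ℕ → α) (a b : ℕ) (w : RT α M)
    (hw : w ∈ band M {X} a b) : ((rTree α M).neighborSet w ∩ band M {X} a b).ncard ≤ 2 := by
  obtain ⟨-, -, Y, hY, h3⟩ := hw
  refine ncard_le_nbrs _ w {X w.1.length} ?_
  intro x hx c hc
  obtain ⟨Z, hZ, -, h⟩ := band_child h3 hx hc
  rw [Set.mem_singleton_iff.mp hZ] at h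
  simp [h]

lemma band_deg [Fintype α] {M : ℕ} {R : Set (ℕ → α)} {a b : ℕ}
    (h : ∀ n, a < n → ∀ X ∈ R, ∃ c, ∀ Y ∈ R, Agr X Y n → Y n ≠ c) (w : RT α M)
    (hw : w ∈ band M R a b) :
    ((rTree α M).neighborSet w ∩ band M R a b).ncard ≤ Fintype.card α := by
  classical
  obtain ⟨h1, -, X, hX, h3⟩ := hw
  rcases eq_or_lt_of_le h1 with e | hlt
  · refine ncard_le_children _ w Finset.univ ?_
    rintro x ⟨hx, hx2⟩
    rcases rTree_adj hx with ⟨c, h'⟩ | ⟨c, h'⟩
    · have := hx2.1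
      rw [h', List.length_cons] at e
      omega
    · exact ⟨c, Finset.mem_univ _, h'⟩
  · obtain ⟨c, hc⟩ := h _ hlt X hX
    have := ncard_le_nbrs (band M R a b) w (Finset.univ.erase c) (by
      intro x hx c' hc'
      obtain ⟨Y, hY, k1, k2⟩ := band_child h3 hx hc'
      exact Finset.mem_erase.mpr ⟨k2 ▸ hc Y hY k1, Finset.mem_univ _⟩)
    rw [Finset.card_erase_add_one (Finset.mem_univ c)] at this
    exact this

/-- leaves -/
abbrev Lv (α : Type) (N : ℕ) : Type := Fin N → α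

variable [Inhabited α] {N : ℕ}

def ry (x : Lv α N) : ℕ → α := fun i => if h : i < N then x ⟨i, h⟩ else default

lemma eq_of_agr {x y : Lv α N} (h : Agr (ry x) (ry y) N) : x = y := by
  funext i
  have := h i i.2
  simpa [ry] using this

lemma lt_of_ry_ne {x y : Lv α N} {n : ℕ} (h : ry x n ≠ ry y n) : n < N := by
  by_contra hc
  exact h (by simp only [ry, dif_neg hc])

/-- the leaf that follows `X` down to depth `n` and then takes the branch `c` -/
def lv (N : ℕ) (X : ℕ → α) (n : ℕ) (c : α) : Lv α N :=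
  fun i => if i.1 < n then X i.1 else if i.1 = n then c else default

lemma lv_agr (X : ℕ → α) {n : ℕ} (c : α) (hn : n < N) : Agr (ry (lv N X n c)) X n := by
  intro i hi
  simp only [ry, lv]
  rw [dif_pos (by omega), if_pos hi]

lemma lv_at (X : ℕ → α) {n : ℕ} (c : α) (hn : n < N) : ry (lv N X n c) n = c := by
  simp only [ry, lv]
  rw [dif_pos hn]
  simp

lemma exists_reps [Fintype α] (X : ℕ → α) {n a : ℕ} (h : n + a ≤ N) :
    ∃ I : Finset (Lv α N), I.card = Fintype.card α ^ a ∧ (∀ x ∈ I, Agr (ry x) X n) ∧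
      ∀ x ∈ I, ∀ y ∈ I, Agr (ry x) (ry y) (n + a) → x = y := by
  classical
  let f : (Fin a → α) → Lv α N := fun u i =>
    if i.1 < n then X i.1 else if h : i.1 - n < a then u ⟨i.1 - n, h⟩ else default
  have key : ∀ u u', Agr (ry (f u)) (ry (f u')) (n + a) → u = u' := by
    intro u u' hu
    funext j
    have hj := j.2
    have := hu (n + j.1) (by omega)
    have h1 : n + j.1 < N := by omega
    simpa [ry, f, h1] using this
  refine ⟨Finset.univ.image f, ?_, ?_, ?_⟩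
  · rw [Finset.card_image_of_injective _ (fun u u' (e : f u = f u') => key u u' (by rw [e]; exact Agr.refl _ _))]
    simp
  · intro x hx i hi
    obtain ⟨u, -, rfl⟩ := Finset.mem_image.mp hx
    simp only [ry, f]
    rw [dif_pos (by omega), if_pos hi]
  · intro x hx y hy hxy
    obtain ⟨u, -, rfl⟩ := Finset.mem_image.mp hx
    obtain ⟨u', -, rfl⟩ := Finset.mem_image.mp hy
    rw [key u u' hxy]

/-- sets of leaves whose rays below depth `d` form a subtree of maximum degree at most the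
number of letters -/
structure Adm (L : Set (Lv α N)) (d : ℕ) : Prop where
  ne : L.Nonempty
  le : d ≤ N
  agr : ∀ x ∈ L, ∀ y ∈ L, Agr (ry x) (ry y) d
  miss : ∀ n, d < n → ∀ x ∈ L, ∃ c, ∀ y ∈ L, Agr (ry x) (ry y) n → ry y n ≠ c

/-- the subtree of an admissible pair -/
def ext (M : ℕ) (L : Set (Lv α N)) (d : ℕ) : Set (RT α M) := band M (ry '' L) d M

omit [Inhabited α] in
lemma exists_avoid [Fintype α] (hs : 3 ≤ Fintype.card α) (a b : α) : ∃ c, c ≠ a ∧ c ≠ b := by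
  classical
  by_contra hc
  push Not at hc
  have hsub : (Finset.univ : Finset α) ⊆ {a, b} := by
    intro c _
    by_cases h : c = a
    · simp [h]
    · simp [hc c h]
  have := (Finset.card_le_card hsub).trans Finset.card_le_two
  rw [Finset.card_univ] at this
  omega

lemma adm_pair [Fintype α] (hs : 3 ≤ Fintype.card α) {x y : Lv α N} {d : ℕ} (hd : d ≤ N)
    (h : Agr (ry x) (ry y) d) : Adm {x, y} d := by
  refine ⟨⟨x, Or.inl rfl⟩, hd, ?_, ?_⟩
  · rintro _ (rfl | rfl) _ (rfl | rfl)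
    exacts [Agr.refl _ _, h, h.symm, Agr.refl _ _]
  · intro n _ z _
    obtain ⟨c, h1, h2⟩ := exists_avoid hs (ry x n) (ry y n)
    refine ⟨c, ?_⟩
    rintro _ (rfl | rfl) -
    exacts [h1.symm, h2.symm]

lemma ext_inter {M : ℕ} {L L' : Set (Lv α N)} {d d' : ℕ} {w : RT α M}
    (h : w ∈ ext M L d ∩ ext M L' d') : d ≤ w.1.length ∧ d' ≤ w.1.length ∧
      ∃ x ∈ L, ∃ y ∈ L', Agr (ry x) (ry y) w.1.length ∧ w.1 = nd (ry x) w.1.length ∧
        w.1 = nd (ry y) w.1.length := by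
  obtain ⟨h1, h2, -, -, _, ⟨x, hx, rfl⟩, _, ⟨y, hy, rfl⟩, h3⟩ := band_inter h
  exact ⟨h1, h2, x, hx, y, hy, h3⟩

end Pool.Agent.P.MP_ebe746_co.Dg
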