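import Pool.Agent.P.MP_ebe746_co.DgFin

set_option autoImplicit false

namespace Pool.Agent.P.MP_ebe746_co.Dg

open SimpleGraph Pool.Agent.P.MP_ebe746_co.Cl

variable {α : Type} [Fintype α] [Inhabited α]

/-- admissible pairs -/
abbrev Ad (α : Type) [Inhabited α] (N : ℕ) : Type :=
  {u : Set (Lv α N) × Fin (N + 1) // Adm u.1 u.2.1}

/-- the subtrees of the test graph -/
def srcD (M N k m : ℕ) : Ad α N ⊕ Lv α N × Fin m → Set (RT α M)
  | Sum.inl u => ext M u.1.1 u.1.2.1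
  | Sum.inr (x, i) => band M {ry x} (N + i.1) (N + i.1 + k)

theorem not_incl (hs : 3 ≤ Fintype.card α) {k : ℕ} (hk : 3 ≤ k)
    (hp : (Fintype.card α - 1) ^ (k + 1) < Fintype.card α ^ k) :
    ∃ (n : ℕ) (G : SimpleGraph (Fin n)),
      HasRep (Fintype.card α + 1 : ℕ) (Fintype.card α) (k + 1) G ∧
      ∀ h, ¬ HasRep h (Fintype.card α) (k + 1 + 1) G := by
  classical
  obtain ⟨N, hN⟩ : ∃ N, N = 4 * k + 2 := ⟨_, rfl⟩
  obtain ⟨m, hm⟩ : ∃ m, 2 ^ (Fintype.card (Lv α N × Lv α N) * (k + 1) *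
    (Fintype.card α + 1) ^ (k + 1)) < m := ⟨_, Nat.lt_succ_self _⟩
  obtain ⟨M, hM⟩ : ∃ M, M = N + m + k := ⟨_, rfl⟩
  obtain ⟨n, ⟨e⟩⟩ := Finite.exists_equiv_fin (Ad α N ⊕ Lv α N × Fin m)
  let G : SimpleGraph (Fin n) :=
    { Adj := fun u v => u ≠ v ∧ k + 1 ≤ (srcD M N k m (e.symm u) ∩ srcD M N k m (e.symm v)).ncard
      symm := ⟨fun _ _ h => ⟨h.1.symm, by rw [Set.inter_comm]; exact h.2⟩⟩
      loopless := ⟨fun _ h => h.1 rfl⟩ }
  refine ⟨n, G, ?_, ?_⟩
  · refine hasRep_of_finite G (rTree α M) (fun v => srcD M N k m (e.symm v)) (rTree_isTree M)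
      (fun w => by exact_mod_cast rTree_deg w) ?_ ?_
      (fun u v huv => ⟨fun h => h.2, fun h => ⟨huv, h⟩⟩)
    · intro v
      rcases e.symm v with ⟨⟨L, d⟩, hL⟩ | ⟨x, i⟩
      · have := hL.le
        refine band_conn (hL.ne.image _) ?_ (by simp only at this ⊢; omega)
          (by simp only at this ⊢; omega)
        rintro _ ⟨x, hx, rfl⟩ _ ⟨y, hy, rfl⟩
        exact hL.agr x hx y hy
      · have := i.2
        refine band_conn ⟨_, rfl⟩ ?_ (by omega) (by omega)
        rintro _ rfl _ rfl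
        exact Agr.refl _ _
    · intro v
      rcases e.symm v with ⟨⟨L, d⟩, hL⟩ | ⟨x, i⟩
      · intro w hw
        refine Nat.cast_le.mpr (band_deg ?_ w hw)
        rintro j hj _ ⟨x, hx, rfl⟩
        obtain ⟨c, hc⟩ := hL.miss j hj x hx
        refine ⟨c, ?_⟩
        rintro _ ⟨y, hy, rfl⟩
        exact hc y hy
      · intro w hw
        exact Nat.cast_le.mpr ((band_deg_one _ _ _ w hw).trans (by omega))
  rintro h ⟨n', T, S, hT, -, hS1, hS2, hS3⟩
  have cS : ∀ a, Cvx T (S (e a)) := fun a => cvx_of_connected hT (hS1 _).2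
  have dS : ∀ a, ∀ w ∈ S (e a), (T.neighborSet w ∩ S (e a)).ncard ≤ Fintype.card α :=
    fun a w hw => by exact_mod_cast hS2 _ w hw
  have tr : ∀ a b, a ≠ b → (k + 1 + 1 ≤ (S (e a) ∩ S (e b)).ncard ↔
      k + 1 ≤ (srcD M N k m a ∩ srcD M N k m b).ncard) := by
    intro a b hab
    have hne : e a ≠ e b := e.injective.ne hab
    rw [← hS3 _ _ hne]
    simp only [G, Equiv.symm_apply_apply]
    exact ⟨fun h => h.2, fun h => ⟨hne, h⟩⟩
  have big : ∀ (x : Lv α N) (d : ℕ) a b, a ≠ b → d + k ≤ M →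
      band M {ry x} d (d + k) ⊆ srcD M N k m a → band M {ry x} d (d + k) ⊆ srcD M N k m b →
      k + 1 + 1 ≤ (S (e a) ∩ S (e b)).ncard := by
    intro x d a b hab hd h1 h2
    have := Set.ncard_le_ncard (Set.subset_inter h1 h2)
    rw [band_card _ _ hd] at this
    exact (tr a b hab).mpr (by omega)
  have inL : ∀ (x : Lv α N) (u : Ad α N) (d : ℕ), x ∈ u.1.1 → N ≤ d → d + k ≤ M →
      band M {ry x} d (d + k) ⊆ srcD M N k m (Sum.inl u) :=
    fun x u d hx h1 h2 => band_sub ⟨x, hx, rfl⟩ (Agr.refl _ _) (u.2.le.trans h1) h2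
  have ne_of : ∀ A : Set (Fin n'), k + 1 + 1 ≤ A.ncard → A.Nonempty :=
    fun A h => Set.nonempty_of_ncard_ne_zero (by omega)
  let ix : ∀ (L : Set (Lv α N)) (d : ℕ), Adm L d → Ad α N :=
    fun L d h => ⟨(L, ⟨d, Nat.lt_succ_of_le h.le⟩), h⟩
  let F : Set (Lv α N) → ℕ → Set (Fin n') := fun L d =>
    if h : Adm L d then S (e (Sum.inl (ix L d h))) else ∅
  have hF : ∀ L d (h : Adm L d), F L d = S (e (Sum.inl (ix L d h))) := fun L d h => dif_pos h
  have thr : ∀ L d L' d', Adm L d → Adm L' d' → L ≠ L' →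
      (k + 1 + 1 ≤ (F L d ∩ F L' d').ncard ↔ k + 1 ≤ (ext M L d ∩ ext M L' d').ncard) := by
    intro L d L' d' h h' hne
    rw [hF L d h, hF L' d' h']
    exact tr _ _ (fun e => hne (congrArg (fun u : Ad α N => u.1.1) (Sum.inl_injective e)))
  have a0 : ∀ Y Z : Lv α N, Adm ({Y, Z} : Set (Lv α N)) 0 := fun Y Z =>
    adm_pair hs (Nat.zero_le _) (fun i hi => by omega)
  have hex : ∀ X : Lv α N, ∃ z, (∀ u : {u : Ad α N // X ∈ u.1.1}, z ∈ S (e (Sum.inl u.1))) ∧
      ∀ j : Lv α N × Lv α N, z ∉ (if X = j.1 ∨ X = j.2 then ∅ else F {j.1, j.2} 0) := by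
    intro X
    have aX : Adm ({X, X} : Set (Lv α N)) N := adm_pair hs le_rfl (Agr.refl _ _)
    have hU : ∀ (u : {u : Ad α N // X ∈ u.1.1}) (j : Fin m),
        k + 1 + 1 ≤ (S (e (Sum.inl u.1)) ∩ S (e (Sum.inr (X, j)))).ncard := by
      intro u j
      have := j.2
      exact big X (N + j.1) _ _ (by simp) (by omega) (inL X _ _ u.2 (by omega) (by omega))
        subset_rfl
    refine exists_private hT (fun u : {u : Ad α N // X ∈ u.1.1} => S (e (Sum.inl u.1)))
      ⟨ix _ _ aX, Or.inl rfl⟩ (fun j => S (e (Sum.inr (X, j)))) _ (fun _ => cS _) ?_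
      (fun _ => cS _) (fun u j => ne_of _ (hU u j)) (dS _) (hU _) ?_ ?_ hm
    · intro u u'
      by_cases h : u = u'
      · rw [h, Set.inter_self]; exact (hS1 _).1
      · exact ne_of _ (big X N _ _ (fun e => h (Subtype.ext (Sum.inl_injective e))) (by omega)
          (inL X _ _ u.2 le_rfl (by omega)) (inL X _ _ u'.2 le_rfl (by omega)))
    · intro i j hij
      have k1 := tr (Sum.inr (X, i)) (Sum.inr (X, j)) (by simpa using hij)
      have hij' : i.1 ≠ j.1 := fun h => hij (Fin.ext h)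
      have hi := i.2
      have hj := j.2
      have hsub : srcD M N k m (Sum.inr (X, i)) ∩ srcD M N k m (Sum.inr (X, j))
          ⊆ band M {ry X} (N + max i.1 j.1) (N + min i.1 j.1 + k) := by
        intro w hw
        obtain ⟨h1, h2, h3, h4, _, rfl, -, -, -, h5, -⟩ := band_inter hw
        exact ⟨by omega, by omega, _, rfl, h5⟩
      have := Set.ncard_le_ncard hsub
      rw [band_card _ _ (by omega)] at this
      omega
    · rintro ⟨Y, Z⟩
      split_ifs with h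
      · simp
      push Not at h
      have k1 := thr _ _ _ _ aX (a0 Y Z) (fun e => by
        rcases (e ▸ Or.inl rfl : X ∈ ({Y, Z} : Set (Lv α N))) with h' | h'
        exacts [h.1 h', h.2 h'])
      have k2 : ext M {X, X} N ∩ ext M {Y, Z} 0 = ∅ := by
        rw [Set.eq_empty_iff_forall_notMem]
        intro w hw
        obtain ⟨h1, -, x, hx, y, hy, h2, -⟩ := ext_inter hw
        have e1 : x = X := by rcases hx with h | h <;> exact h
        have e2 := eq_of_agr (h2.mono h1)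
        rcases hy with h' | h'
        exacts [h.1 (e1.symm.trans (e2.trans h')), h.2 (e1.symm.trans (e2.trans h'))]
      rw [k2, Set.ncard_empty, hF _ _ aX] at k1
      simp only at k1 ⊢
      omega
  choose p hp1 hp2 using hex
  have mem : ∀ L d X, Adm L d → X ∈ L → p X ∈ F L d := fun L d X h hX =>
    hF L d h ▸ hp1 X ⟨ix L d h, hX⟩
  have cvx : ∀ L d, Adm L d → Cvx T (F L d) := fun L d h => hF L d h ▸ cS _
  refine Tar.false (M := M) (T := T) (F := F) (p := p)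
    ⟨hT, cvx, fun L d h => hF L d h ▸ dS _, thr, mem, ?_⟩ hs hk hN.ge (by omega) hp
  intro X Y Z h1 h2 hb
  have := hp2 X (Y, Z)
  rw [if_neg (by simp [h1, h2])] at this
  exact this (cvx _ _ (a0 Y Z) _ _ _ (mem _ _ Y (a0 Y Z) (Or.inl rfl))
    (mem _ _ Z (a0 Y Z) (Or.inr rfl)) hb)

end Pool.Agent.P.MP_ebe746_co.Dg
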