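import Pool.Agent.P.MP_ebe746_co.DgTar

set_option autoImplicit false

namespace Pool.Agent.P.MP_ebe746_co.Dg

open SimpleGraph Pool.Agent.P.MP_ebe746_co.Cl

lemma exists_leaf {V : Type} [Finite V] {T : SimpleGraph V} (hT : T.IsTree) :
    ∃ r, (T.neighborSet r).ncard ≤ 1 := by
  obtain ⟨u⟩ := hT.connected.nonempty
  have : Nonempty V := ⟨u⟩
  obtain ⟨r, hr⟩ := Finite.exists_max (fun x => T.dist u x)
  refine ⟨r, (Set.ncard_le_one (Set.toFinite _)).mpr ?_⟩
  have key : ∀ y, T.Adj r y → On T u r (T.dist u r - 1) y := by
    intro y hy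
    have h1 := hT.dist_eq_dist_add_one_of_adj u hy
    have h2 : T.dist u y ≤ T.dist u r := hr y
    have h3 : T.dist y r = 1 := dist_eq_one_iff_adj.mpr hy.symm
    unfold On Btw
    omega
  intro a ha b hb
  exact on_eq hT (γ := T.dist u r) (by rw [SimpleGraph.dist_self]; omega) (key a ha) (key b hb)
    (by omega)

theorem incl_succ {h s : ℕ∞} (h2 : 2 ≤ h) (hs : h ≤ s) {p : ℕ} (hp : 1 ≤ p) {n : ℕ}
    {G : SimpleGraph (Fin n)} (hG : HasRep h s p G) : HasRep h s (p + 1) G := by
  classical
  obtain ⟨m, T, S, hT, h1, h3, -, h4⟩ := hG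
  obtain ⟨r, hr⟩ := exists_leaf hT
  obtain ⟨π, hπ⟩ := exists_parent hT r
  let par : Option (Fin m) → Option (Fin m) := fun w =>
    w.bind fun x => if x = r then none else some (π x)
  let rk : Option (Fin m) → ℕ := fun w => w.elim 0 fun x => T.dist r x + 1
  have hpr : par (some r) = none := if_pos rfl
  have hpx : ∀ x, x ≠ r → par (some x) = some (π x) := fun x hx => if_neg hx
  have hrk : ∀ x, rk (par (some x)) = T.dist r x := by
    intro x
    by_cases hx : x = r
    · rw [hx, hpr, SimpleGraph.dist_self]; rfl
    · rw [hpx x hx]; exact (hπ x hx).2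
  have hlt : ∀ w, w ≠ none → rk (par w) < rk w := by
    rintro (_ | x) hw
    · exact absurd rfl hw
    · rw [hrk]; exact Nat.lt_succ_self _
  have hdeg : ∀ w, (((parG none par).neighborSet w).ncard : ℕ∞) ≤ h := by
    have hch : ∀ y w, par (some y) = w → (y = r ∧ w = none) ∨ ∃ x, w = some x ∧ T.Adj x y := by
      intro y w e
      by_cases hy : y = r
      · exact Or.inl ⟨hy, by rw [← e, hy, hpr]⟩
      · exact Or.inr ⟨π y, by rw [← e, hpx y hy], (hπ y hy).1.symm⟩
    rintro (_ | x)
    · have hsub : (parG none par).neighborSet none ⊆ {some r} := by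
        rintro (_ | y) ⟨k0, ⟨k1, -⟩ | ⟨k1, k2⟩⟩
        · exact absurd rfl k0
        · exact absurd rfl k0
        · exact absurd rfl k1
        · rcases hch y _ k2 with ⟨k, -⟩ | ⟨_, k, -⟩
          · rw [k]; rfl
          · exact absurd k (by simp)
      have := Set.ncard_le_ncard hsub
      rw [Set.ncard_singleton] at this
      exact le_trans (by exact_mod_cast this.trans (show 1 ≤ 2 by omega)) h2
    · have hsub : ∀ w ∈ (parG none par).neighborSet (some x),
          (x = r ∧ w = none) ∨ w ∈ some '' T.neighborSet x := by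
        rintro w ⟨-, ⟨-, k2⟩ | ⟨k1, k2⟩⟩
        · rcases hch x _ k2 with k | ⟨y, k, k'⟩
          · exact Or.inl k
          · exact Or.inr ⟨y, k'.symm, k.symm⟩
        · obtain ⟨y, rfl⟩ := Option.ne_none_iff_exists'.mp k1
          rcases hch y _ k2 with ⟨-, k⟩ | ⟨z, k, k'⟩
          · exact absurd k (by simp)
          · exact Or.inr ⟨y, Option.some_injective _ k ▸ k', rfl⟩
      by_cases hx : x = r
      · have k1 := Set.ncard_le_ncard (t := insert none (some '' T.neighborSet x))
          (fun w hw => (hsub w hw).imp (fun h => h.2) id)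
        have k2 := Set.ncard_insert_le none (some '' T.neighborSet x)
        have k3 := Set.ncard_image_le (f := some) (s := T.neighborSet x)
        rw [← hx] at hr
        exact le_trans (by exact_mod_cast (by omega :
          ((parG none par).neighborSet (some x)).ncard ≤ 2)) h2
      · have k1 := Set.ncard_le_ncard (t := some '' T.neighborSet x)
          (fun w hw => (hsub w hw).resolve_left (fun h => hx h.1))
        exact le_trans (by exact_mod_cast k1.trans Set.ncard_image_le) (h1 x)
  have cS : ∀ v, Cvx T (S v) := fun v => cvx_of_connected hT (h3 v).2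
  choose t ht1 ht2 ht3 using fun v => exists_top hT r hπ (cS v) (h3 v).1
  have hin : ∀ v, ∀ x ∈ S v, par (some x) ∈ insert (par (some (t v))) (some '' S v) := by
    intro v x hx
    by_cases e : x = t v
    · exact Or.inl (by rw [e])
    · exact Or.inr ⟨π x, (ht3 v x hx e).2, (hpx x (ht3 v x hx e).1).symm⟩
  refine hasRep_of_finite G (parG none par) (fun v => insert (par (some (t v))) (some '' S v))
    (par_isTree rk hlt) hdeg ?_ ?_ ?_
  · intro v
    refine ⟨⟨_, Or.inl rfl⟩, par_conn rk hlt _ _ (Or.inl rfl) ?_⟩
    rintro w (rfl | ⟨x, hx, rfl⟩) hw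
    · exact absurd rfl hw
    · exact ⟨by simp, hin v x hx⟩
  · intro v w _
    exact le_trans (le_trans (by exact_mod_cast Set.ncard_le_ncard Set.inter_subset_left)
      (hdeg w)) hs
  · have key : ∀ u v, T.dist r (t v) ≤ T.dist r (t u) → (p ≤ (S u ∩ S v).ncard ↔
        p + 1 ≤ (insert (par (some (t u))) (some '' S u) ∩
          insert (par (some (t v))) (some '' S v)).ncard) := by
      intro u v huv
      have hge : ∀ y ∈ S u, T.dist r (t u) ≤ T.dist r y := fun y hy => by
        have := ht2 u y hy
        unfold Btw at this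
        omega
      have hc : (insert (par (some (t u))) (some '' (S u ∩ S v))).ncard = (S u ∩ S v).ncard + 1 := by
        rw [Set.ncard_insert_of_notMem, Set.ncard_image_of_injective _ (Option.some_injective _)]
        rintro ⟨y, hy, e⟩
        have e1 := hrk (t u)
        rw [← e] at e1
        have := hge y hy.1
        simp only [rk, Option.elim] at e1
        omega
      have hsub : insert (par (some (t u))) (some '' S u) ∩ insert (par (some (t v))) (some '' S v)
          ⊆ insert (par (some (t u))) (some '' (S u ∩ S v)) := by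
        rintro w ⟨rfl | ⟨y, hy, rfl⟩, h'⟩
        · exact Or.inl rfl
        · rcases h' with e | ⟨z, hz, e⟩
          · have e1 := hrk (t v)
            rw [← e] at e1
            have := hge y hy
            simp only [rk, Option.elim] at e1
            omega
          · exact Or.inr ⟨y, ⟨hy, Option.some_injective _ e ▸ hz⟩, rfl⟩
      constructor
      · intro hp'
        obtain ⟨x, hx⟩ := Set.nonempty_of_ncard_ne_zero (s := S u ∩ S v) (by omega)
        have hu : t u ∈ S v := by
          rcases btw_split hT (t v) (ht2 u x hx.1) with k | k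
          · have e : t u = t v := hT.connected.dist_eq_zero_iff.mp (by unfold Btw at k; omega)
            rw [e]; exact ht1 v
          · exact cS v _ _ _ (ht1 v) hx.2 k
        have := Set.ncard_le_ncard (s := insert (par (some (t u))) (some '' (S u ∩ S v)))
          (t := insert (par (some (t u))) (some '' S u) ∩ insert (par (some (t v))) (some '' S v))
          (by
            rintro w (rfl | ⟨y, hy, rfl⟩)
            · exact ⟨Or.inl rfl, hin v _ hu⟩
            · exact ⟨Or.inr ⟨y, hy.1, rfl⟩, Or.inr ⟨y, hy.2, rfl⟩⟩)
        omega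
      · intro hp'
        have := Set.ncard_le_ncard hsub
        omega
    intro u v huv
    rw [h4 u v huv]
    rcases le_total (T.dist r (t v)) (T.dist r (t u)) with k | k
    · exact key u v k
    · rw [Set.inter_comm (S u), Set.inter_comm (insert _ _)]
      exact key v u k

end Pool.Agent.P.MP_ebe746_co.Dg
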