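import Pool.Agent.P.MP_ebe746_co.ClCore
import Pool.Agent.P.MP_ebe746_co.ClSuff

set_option autoImplicit false

namespace Pool.Agent.P.MP_ebe746_co.Dg

open SimpleGraph Pool.Agent.P.MP_ebe746_co.Cl

variable {V : Type} {T : SimpleGraph V}

lemma card_of_dist [Finite V] (hT : T.IsTree) {A : Set V} {y z : V} {K : ℕ}
    (hd : K ≤ T.dist y z) (h : ∀ w, Btw T y w z → T.dist y w ≤ K → w ∈ A) : K + 1 ≤ A.ncard := by
  have hex : ∀ k : Fin (K + 1), ∃ w, T.dist y w = k ∧ Btw T y w z := fun k =>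
    exists_point hT k y z (by omega)
  choose f hf1 hf2 using hex
  have hinj : Function.Injective f := by
    intro i j hij
    apply Fin.ext
    rw [← hf1 i, ← hf1 j, hij]
  have hsub : Set.range f ⊆ A := by
    rintro _ ⟨k, rfl⟩
    exact h _ (hf2 k) (by have := k.2; rw [hf1]; omega)
  have h1 := Set.ncard_le_ncard hsub (Set.toFinite _)
  rw [Set.ncard_range_of_injective hinj] at h1
  simpa using h1

lemma not_winK [Finite V] (hT : T.IsTree) {A B : Set V} {K : ℕ} (hA : Cvx T A) (hB : Cvx T B)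
    (h : (A ∩ B).ncard ≤ K) : ¬ WinK T K A B := by
  rintro ⟨y, z, h1, h2, h3, h4, h5⟩
  have := card_of_dist hT (A := A ∩ B) h5 (fun w hw _ => ⟨hA y w z h1 h3 hw, hB y w z h2 h4 hw⟩)
  omega

lemma helly_fin (hT : T.IsTree) {ι : Type} [Finite ι] [Nonempty ι] (F : ι → Set V)
    (hF : ∀ i, Cvx T (F i)) (h : ∀ i j, (F i ∩ F j).Nonempty) : ∃ z, ∀ i, z ∈ F i := by
  obtain ⟨r⟩ := hT.connected.nonempty
  obtain ⟨π, hπ⟩ := exists_parent hT r
  have : ∀ i, ∃ t ∈ F i, ∀ x ∈ F i, Btw T r t x := by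
    intro i
    obtain ⟨t, h1, h2, -⟩ := exists_top hT r hπ (hF i) ((h i i).mono Set.inter_subset_left)
    exact ⟨t, h1, h2⟩
  choose t ht1 ht2 using this
  obtain ⟨i, hi⟩ := Finite.exists_max (fun i => T.dist r (t i))
  refine ⟨t i, fun j => ?_⟩
  obtain ⟨x, h1, h2⟩ := h i j
  have h3 := hi j
  rcases btw_split hT (t j) (ht2 i x h1) with h4 | h4
  · have e : t i = t j := hT.connected.dist_eq_zero_iff.mp (by unfold Btw at h4; omega)
    rw [e]; exact ht1 j
  · exact hF j _ _ _ (ht1 j) h2 h4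

lemma ball_card [Finite V] (hT : T.IsTree) {Q W : Set V} {s : ℕ} (hQ : Cvx T Q) (hW : W ⊆ Q)
    (hd : ∀ w ∈ Q, (T.neighborSet w ∩ Q).ncard ≤ s) (r : ℕ) :
    {w | w ∈ Q ∧ ∃ z ∈ W, T.dist z w ≤ r}.ncard ≤ W.ncard * (s + 1) ^ r := by
  classical
  induction r with
  | zero =>
    rw [pow_zero, mul_one]
    refine Set.ncard_le_ncard ?_
    rintro w ⟨-, z, h1, h2⟩
    rw [← hT.connected.dist_eq_zero_iff.mp (Nat.le_zero.mp h2)]; exact h1
  | succ r ih =>
    set B := {w | w ∈ Q ∧ ∃ z ∈ W, T.dist z w ≤ r} with hB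
    have hsub : {w | w ∈ Q ∧ ∃ z ∈ W, T.dist z w ≤ r + 1} ⊆
        ↑((Set.toFinite B).toFinset.biUnion fun x =>
          (Set.toFinite (insert x (T.neighborSet x ∩ Q))).toFinset) := by
      rintro w ⟨h1, z, h2, h3⟩
      simp only [Finset.coe_biUnion, Set.Finite.coe_toFinset, Set.mem_iUnion]
      by_cases hr : T.dist z w ≤ r
      · exact ⟨w, ⟨h1, z, h2, hr⟩, Or.inl rfl⟩
      · obtain ⟨x, k1, k2⟩ := exists_point hT r z w (by omega)
        refine ⟨x, ⟨hQ z x w (hW h2) h1 k2, z, h2, k1.le⟩, Or.inr ⟨?_, h1⟩⟩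
        exact dist_eq_one_iff_adj.mp (by unfold Btw at k2; omega)
    have h1 := Set.ncard_le_ncard hsub
    rw [Set.ncard_coe_finset] at h1
    have h2 := Finset.card_biUnion_le_card_mul (Set.toFinite B).toFinset
      (fun x => (Set.toFinite (insert x (T.neighborSet x ∩ Q))).toFinset) (s + 1) (by
        intro x hx
        rw [← Set.ncard_eq_toFinset_card]
        have hx' : x ∈ B := by simpa using hx
        exact (Set.ncard_insert_le _ _).trans (Nat.succ_le_succ (hd x hx'.1)))
    rw [← Set.ncard_eq_toFinset_card] at h2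
    calc _ ≤ B.ncard * (s + 1) := h1.trans h2
      _ ≤ W.ncard * (s + 1) ^ r * (s + 1) := Nat.mul_le_mul_right _ ih
      _ = _ := by ring

/-- a common point of a family of subtrees that avoids a few other subtrees -/
theorem exists_private [Finite V] (hT : T.IsTree) {ι κ : Type} [Finite ι] [Fintype κ]
    {s K m : ℕ} (F : ι → Set V) (i0 : ι) (U : Fin m → Set V) (R : κ → Set V)
    (hF : ∀ i, Cvx T (F i)) (hFF : ∀ i j, (F i ∩ F j).Nonempty) (hU : ∀ j, Cvx T (U j))
    (hFU : ∀ i j, (F i ∩ U j).Nonempty) (hd : ∀ w ∈ F i0, (T.neighborSet w ∩ F i0).ncard ≤ s)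
    (hQU : ∀ j, K + 1 ≤ (F i0 ∩ U j).ncard) (hUU : ∀ i j, i ≠ j → (U i ∩ U j).ncard ≤ K)
    (hR : ∀ j, (F i0 ∩ R j).ncard ≤ K) (hm : 2 ^ (Fintype.card κ * K * (s + 1) ^ K) < m) :
    ∃ z, (∀ i, z ∈ F i) ∧ ∀ j, z ∉ R j := by
  classical
  by_contra hc
  push Not at hc
  set W := {z | ∀ i, z ∈ F i} with hW
  have hWQ : W ⊆ F i0 := fun z hz => hz i0
  have hWc : W.ncard ≤ Fintype.card κ * K := by
    have hsub : W ⊆ ↑(Finset.univ.biUnion fun j => (Set.toFinite (F i0 ∩ R j)).toFinset) := by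
      intro z hz
      obtain ⟨j, hj⟩ := hc z hz
      simp only [Finset.coe_biUnion, Set.Finite.coe_toFinset, Set.mem_iUnion]
      exact ⟨j, by simp, hz i0, hj⟩
    have h1 := Set.ncard_le_ncard hsub
    rw [Set.ncard_coe_finset] at h1
    refine h1.trans (Finset.card_biUnion_le_card_mul _ _ K ?_)
    intro j _
    rw [← Set.ncard_eq_toFinset_card]
    exact hR j
  set Y := {w | w ∈ F i0 ∧ ∃ z ∈ W, T.dist z w ≤ K} with hY
  have hYc : Y.ncard ≤ Fintype.card κ * K * (s + 1) ^ K :=
    (ball_card hT (hF i0) hWQ hd K).trans (Nat.mul_le_mul_right _ hWc)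
  have htr : ∀ j, K + 1 ≤ (U j ∩ Y).ncard := by
    intro j
    obtain ⟨z, hz⟩ := helly_fin hT (fun o : Option ι => o.elim (U j) F)
      (by rintro (_ | i); exacts [hU j, hF i])
      (by
        rintro (_ | i) (_ | i')
        · exact (hFU i0 j).mono (fun x hx => ⟨hx.2, hx.2⟩)
        · exact (hFU i' j).mono (fun x hx => ⟨hx.2, hx.1⟩)
        · exact hFU i j
        · exact hFF i i')
    have hzW : z ∈ W := fun i => hz (some i)
    have hzU : z ∈ U j := hz none
    by_cases hall : ∀ w ∈ F i0 ∩ U j, T.dist z w ≤ K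
    · exact (hQU j).trans (Set.ncard_le_ncard fun w hw => ⟨hw.2, hw.1, z, hzW, hall w hw⟩)
    · push Not at hall
      obtain ⟨w, hw, hlt⟩ := hall
      exact card_of_dist hT hlt.le fun x hx hx' =>
        ⟨hU j z x w hzU hw.2 hx, hF i0 z x w (hzW i0) hw.1 hx, z, hzW, hx'⟩
  have hinj : Set.InjOn (fun j => (Set.toFinite (U j ∩ Y)).toFinset) (Finset.univ : Finset (Fin m)) := by
    intro i _ j _ hij
    by_contra hne
    have e : U i ∩ Y = U j ∩ Y := by simpa using hij
    have h1 : (U i ∩ Y).ncard ≤ (U i ∩ U j).ncard :=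
      Set.ncard_le_ncard fun x hx => ⟨hx.1, (e ▸ hx : x ∈ U j ∩ Y).1⟩
    have := htr i
    have := hUU i j hne
    omega
  have h2 := Finset.card_le_card_of_injOn (t := (Set.toFinite Y).toFinset.powerset) _
    (fun j _ => by simp) hinj
  rw [Finset.card_powerset, ← Set.ncard_eq_toFinset_card, Finset.card_univ, Fintype.card_fin] at h2
  have := Nat.pow_le_pow_right (show 0 < 2 by omega) hYc
  omega

/-- pigeonhole for ultrametric heights -/
lemma ultra_card {L : Type} (g : L → L → ℕ) (sym : ∀ i j, g i j = g j i)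
    (ult : ∀ i j l, g i j ≤ g i l ∨ g j l ≤ g i l) (j : ℕ) :
    ∀ (μ : ℕ) (β : ℕ → ℕ) (I : Finset L),
      (∀ a ∈ I, ∀ b ∈ I, a ≠ b → μ ≤ g a b ∧ g a b < μ + j) →
      (∀ i, ∀ J ⊆ I, (∀ a ∈ J, ∀ b ∈ J, a ≠ b → g a b = μ + i) → J.card ≤ β i) →
      I.card ≤ ∏ i ∈ Finset.range j, β i := by
  classical
  induction j with
  | zero =>
    intro μ β I h _
    rw [Finset.range_zero, Finset.prod_empty, Finset.card_le_one]
    intro a ha b hb
    by_contra hne
    have := h a ha b hb hne
    omega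
  | succ j ih =>
    intro μ β I h hβ
    obtain ⟨J, hJ, hmax⟩ := Set.exists_max_image
      {J : Finset L | J ⊆ I ∧ ∀ a ∈ J, ∀ b ∈ J, a ≠ b → g a b = μ} Finset.card
      ((I.powerset.finite_toSet).subset fun J hJ => by simpa using hJ.1) ⟨∅, by simp⟩
    have hsub : I ⊆ J.biUnion fun a => I.filter fun x => x = a ∨ μ < g a x := by
      intro x hx
      by_contra hc
      simp only [Finset.mem_biUnion, Finset.mem_filter, not_exists, not_and, not_or] at hc
      have hxJ : x ∉ J := fun hxJ => (hc x hxJ hx).1 rfl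
      have := hmax (insert x J) (by
        refine ⟨Finset.insert_subset hx hJ.1, ?_⟩
        have k : ∀ a ∈ J, g a x = μ := by
          intro a ha
          have k1 := hc a ha hx
          have k2 := h a (hJ.1 ha) x hx (Ne.symm k1.1)
          omega
        intro a ha b hb hab
        rcases Finset.mem_insert.mp ha with e1 | ha' <;>
          rcases Finset.mem_insert.mp hb with e2 | hb'
        · exact absurd (e1.trans e2.symm) hab
        · rw [sym, e1]; exact k b hb'
        · rw [e2]; exact k a ha'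
        · exact hJ.2 a ha' b hb' hab)
      rw [Finset.card_insert_of_notMem hxJ] at this
      omega
    have h1 := Finset.card_biUnion_le_card_mul J (fun a => I.filter fun x => x = a ∨ μ < g a x)
      (∏ i ∈ Finset.range j, β (i + 1)) (by
        intro a ha
        refine ih (μ + 1) (fun i => β (i + 1)) _ ?_ ?_
        · intro x hx y hy hxy
          rw [Finset.mem_filter] at hx hy
          have k1 := h x hx.1 y hy.1 hxy
          have k2 := ult x a y
          have k3 := sym a x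
          refine ⟨?_, by omega⟩
          rcases hx.2 with rfl | k4 <;> rcases hy.2 with rfl | k5
          · exact absurd rfl hxy
          · omega
          · omega
          · omega
        · intro i J' hJ' hm
          refine hβ (i + 1) J' (hJ'.trans (Finset.filter_subset _ _)) ?_
          intro x hx y hy hxy
          rw [hm x hx y hy hxy]; ring)
    rw [Finset.prod_range_succ', mul_comm]
    exact ((Finset.card_le_card hsub).trans h1).trans
      (Nat.mul_le_mul_right _ (hβ 0 J hJ.1 hJ.2))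

end Pool.Agent.P.MP_ebe746_co.Dg
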