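import Pool.Agent.P.MP_ebe746_co.DgUlt

set_option autoImplicit false

namespace Pool.Agent.P.MP_ebe746_co.Dg

open SimpleGraph Pool.Agent.P.MP_ebe746_co.Cl

section geo

variable {V : Type} {T : SimpleGraph V}

/-- `a` is the point at height `h` on the path from `r` to `x` -/
def On (T : SimpleGraph V) (r x : V) (h : ℕ) (a : V) : Prop := T.dist r a = h ∧ Btw T r a x

lemma on_le (hT : T.IsTree) {r x y a : V} {h γ : ℕ}
    (hγ : T.dist r x + T.dist r y = T.dist x y + 2 * γ) (h1 : On T r x h a) (h2 : On T r y h a) :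
    h ≤ γ := by
  have t := hT.connected.dist_triangle (u := x) (v := a) (w := y)
  have s : T.dist x a = T.dist a x := dist_comm
  unfold On Btw at *
  omega

lemma on_eq (hT : T.IsTree) {r x y a b : V} {h γ : ℕ}
    (hγ : T.dist r x + T.dist r y = T.dist x y + 2 * γ) (h1 : On T r x h a) (h2 : On T r y h b)
    (hh : h ≤ γ) : a = b := by
  obtain ⟨m, m1, m2, m3⟩ := exists_median hT r x y
  have s1 : T.dist x m = T.dist m x := dist_comm
  have s2 : T.dist m a = T.dist a m := dist_comm
  have s3 : T.dist m b = T.dist b m := dist_comm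
  have s4 : T.dist b a = T.dist a b := dist_comm
  have t1 := hT.connected.dist_triangle (u := r) (v := a) (w := m)
  have t2 := hT.connected.dist_triangle (u := r) (v := b) (w := m)
  have k1 : Btw T r a m := by
    rcases btw_split hT m h1.2 with k | k
    · exact k
    · unfold On Btw at *; omega
  have k2 : Btw T r b m := by
    rcases btw_split hT m h2.2 with k | k
    · exact k
    · unfold On Btw at *; omega
  refine hT.connected.dist_eq_zero_iff.mp ?_
  rcases btw_split hT b k1 with k | k <;> (unfold On Btw at *; omega)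

lemma on_adj (hT : T.IsTree) {r x a b : V} {h : ℕ} (h1 : On T r x h a) (h2 : On T r x (h + 1) b) :
    T.Adj a b := by
  refine dist_eq_one_iff_adj.mp ?_
  rcases btw_split hT b h1.2 with k | k <;> (unfold On Btw at *; omega)

lemma on_btw (hT : T.IsTree) {r x y a : V} {h γ : ℕ}
    (hγ : T.dist r x + T.dist r y = T.dist x y + 2 * γ) (h1 : On T r x h a) (hh : γ ≤ h) :
    Btw T y a x := by
  rcases btw_split hT y h1.2 with k | k
  · have := on_le hT hγ h1 ⟨h1.1, k⟩
    have s1 : T.dist y a = T.dist a y := dist_comm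
    have s2 : T.dist y x = T.dist x y := dist_comm
    unfold On Btw at *
    omega
  · exact k

lemma exists_adj_out [Finite V] (hT : T.IsTree) {A B : Set V} (hA : Cvx T A) {y : V} (hy : y ∈ B)
    (hyA : y ∈ A) (h : B.ncard < A.ncard) : ∃ w ∈ A, w ∉ B ∧ ∃ z ∈ B, T.Adj z w := by
  obtain ⟨w, hw, hmin⟩ := Set.exists_min_image (A \ B) (fun w => T.dist w y) (Set.toFinite _) (by
    by_contra hc
    have : A ⊆ B := fun x hx => by
      by_contra hx'
      exact hc ⟨x, hx, hx'⟩
    have := Set.ncard_le_ncard this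
    omega)
  obtain ⟨z, h1, h2⟩ := exists_step hT (a := w) (b := y) (by rintro rfl; exact hw.2 hy)
  have h3 : T.dist w z = 1 := dist_eq_one_iff_adj.mpr h1
  refine ⟨w, hw.1, hw.2, z, ?_, h1.symm⟩
  by_contra hz
  have := hmin z ⟨hA w z y hw.1 hyA (by unfold Btw; omega), hz⟩
  omega

end geo

variable {α : Type} [Fintype α] [Inhabited α] {N M k K : ℕ} {V : Type} [Finite V]
  {T : SimpleGraph V} {F : Set (Lv α N) → ℕ → Set V} {p : Lv α N → V}

/-- a representation of the test graph with threshold `K + 1`, with a private point per leaf -/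
structure Tar (M k K : ℕ) (T : SimpleGraph V) (F : Set (Lv α N) → ℕ → Set V) (p : Lv α N → V) :
    Prop where
  tree : T.IsTree
  cvx : ∀ L d, Adm L d → Cvx T (F L d)
  deg : ∀ L d, Adm L d → ∀ w ∈ F L d, (T.neighborSet w ∩ F L d).ncard ≤ Fintype.card α
  thr : ∀ L d L' d', Adm L d → Adm L' d' → L ≠ L' →
    (K + 1 ≤ (F L d ∩ F L' d').ncard ↔ k + 1 ≤ (ext M L d ∩ ext M L' d').ncard)
  mem : ∀ L d X, Adm L d → X ∈ L → p X ∈ F L d
  priv : ∀ X Y Z, X ≠ Y → X ≠ Z → ¬ Btw T (p Y) (p X) (p Z)

lemma Tar.nbr (H : Tar M k K T F p) {L : Set (Lv α N)} {d : ℕ} (hL : Adm L d) {y : V}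
    (hy : y ∈ F L d) (A : Finset V) (hA : ∀ a ∈ A, T.Adj y a ∧ a ∈ F L d) :
    A.card ≤ Fintype.card α := by
  have h1 : (A : Set V).ncard ≤ (T.neighborSet y ∩ F L d).ncard :=
    Set.ncard_le_ncard fun a ha => hA a ha
  rw [Set.ncard_coe_finset] at h1
  exact h1.trans (H.deg L d hL y hy)

/-- heights and points of the rooted target -/
structure Geo (T : SimpleGraph V) (p : Lv α N → V) (o : Lv α N) (g : Lv α N → Lv α N → ℕ)
    (q : Lv α N → ℕ → V) : Prop where
  gr : ∀ x y, T.dist (p o) (p x) + T.dist (p o) (p y) = T.dist (p x) (p y) + 2 * g x y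
  on : ∀ x h, h ≤ T.dist (p o) (p x) → On T (p o) (p x) h (q x h)

omit [Fintype α] [Inhabited α] [Finite V] in
lemma exists_geo (hT : T.IsTree) (p : Lv α N → V) (o : Lv α N) : ∃ g q, Geo T p o g q := by
  have h1 : ∀ i j, ∃ k, T.dist (p o) (p i) + T.dist (p o) (p j) = T.dist (p i) (p j) + 2 * k := by
    intro i j
    obtain ⟨m, m1, m2, m3⟩ := exists_median hT (p o) (p i) (p j)
    have s1 : T.dist (p i) m = T.dist m (p i) := dist_comm
    exact ⟨T.dist (p o) m, by unfold Btw at *; omega⟩
  have h2 : ∀ x h, ∃ a, h ≤ T.dist (p o) (p x) → On T (p o) (p x) h a := by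
    intro x h
    by_cases hh : h ≤ T.dist (p o) (p x)
    · obtain ⟨a, ha⟩ := exists_point hT h _ _ hh
      exact ⟨a, fun _ => ha⟩
    · exact ⟨p o, fun h => absurd h hh⟩
  choose g hg using h1
  choose q hq using h2
  exact ⟨g, q, hg, hq⟩

variable {o : Lv α N} {g : Lv α N → Lv α N → ℕ} {q : Lv α N → ℕ → V}

omit [Finite V] in
lemma Tar.lt (H : Tar M k K T F p) (G : Geo T p o g q) {x y : Lv α N} (h1 : x ≠ o) (h2 : x ≠ y) :
    g x y < T.dist (p o) (p x) := by
  have := H.priv x o y h1 h2
  have := G.gr x y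
  have := H.tree.connected.dist_triangle (u := p o) (v := p x) (w := p y)
  unfold Btw at *
  omega

theorem Tar.met (H : Tar M k K T F p) (G : Geo T p o g q) (hs : 3 ≤ Fintype.card α)
    (ho : ry o 0 ≠ default) (hM : N ≤ M) (hK : 1 ≤ K) : Met M k K o g := by
  classical
  have hT := H.tree
  have hc : ∀ i j, T.dist (p i) (p j) = T.dist (p j) (p i) := fun i j => dist_comm
  have sym : ∀ i j, g i j = g j i := by
    intro i j
    have := G.gr i j; have := G.gr j i; have := hc i j
    omega
  have zero : ∀ i, g i o = 0 := by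
    intro i
    have := G.gr i o; have := hc i o
    have : T.dist (p o) (p o) = 0 := SimpleGraph.dist_self
    omega
  refine ⟨hs, ho, hM, sym, ?_, zero, ?_, ?_⟩
  · intro i j k
    have := four_point hT (p i) (p k) (p j) (p o)
    have := G.gr i j; have := G.gr i k; have := G.gr j k
    have := hc j o; have := hc k o; have := hc i o; have := hc k j
    omega
  · intro X Y Z W d d' h1 h2 h3 h4 h5
    have hne : ({X, Z} : Set (Lv α N)) ≠ {Y, W} := by
      intro e
      rcases (e ▸ Or.inl rfl : X ∈ ({Y, W} : Set (Lv α N))) with h | h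
      exacts [h1 h, h2 h]
    have k1 := H.thr _ _ _ _ h3 h4 hne
    have := upperK hK hT (H.cvx _ _ h3) (H.cvx _ _ h4) (H.mem _ _ X h3 (Or.inl rfl))
      (H.mem _ _ Z h3 (Or.inr rfl)) (H.mem _ _ Y h4 (Or.inl rfl)) (H.mem _ _ W h4 (Or.inr rfl))
      (not_winK hT (H.cvx _ _ h3) (H.cvx _ _ h4) (by omega))
    have := G.gr X Y; have := G.gr Z W; have := G.gr X Z; have := G.gr Y W
    omega
  · intro J v Y d hJ hoJ hm hY hv hL
    have hne : ∀ a ∈ J, a ≠ o := fun a ha e => hoJ (e ▸ ha)
    have hoth : ∀ a ∈ J, ∃ b ∈ J, a ≠ b := fun a _ => by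
      obtain ⟨b, h1, h2⟩ := Finset.exists_mem_ne (show 1 < J.card by omega) a
      exact ⟨b, h1, h2.symm⟩
    have hlt : ∀ a ∈ J, v < T.dist (p o) (p a) := by
      intro a ha
      obtain ⟨b, h1, h2⟩ := hoth a ha
      rw [← hm a ha b h1 h2]
      exact H.lt G (hne a ha) h2
    have hin : ∀ a ∈ (insert Y ↑J : Set (Lv α N)), ∀ b ∈ (insert Y ↑J : Set (Lv α N)), ∀ h,
        g a b ≤ h → h ≤ T.dist (p o) (p a) → q a h ∈ F (insert Y ↑J) d :=
      fun a ha b hb h h1 h2 => H.cvx _ _ hL _ _ _ (H.mem _ _ b hL hb) (H.mem _ _ a hL ha)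
        (on_btw hT (G.gr a b) (G.on a h h2) h1)
    obtain ⟨a, ha⟩ := Finset.card_pos.mp (show 0 < J.card by omega)
    obtain ⟨b, hb, hab⟩ := hoth a ha
    have hpos : 0 < v := by
      have := H.priv o a b (hne a ha).symm (hne b hb).symm
      have := G.gr a b
      have := hm a ha b hb hab
      have := hc a o
      unfold Btw at *
      omega
    have hy : ∀ c ∈ J, q c v = q a v := by
      intro c hc
      by_cases e : c = a
      · rw [e]
      · exact on_eq hT (G.gr c a) (G.on c v (hlt c hc).le) (G.on a v (hlt a ha).le)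
          (hm c hc a ha e).ge
    have hinj : Set.InjOn (fun c => q c (v + 1)) (J : Set (Lv α N)) := by
      intro c hc c' hc' e
      by_contra hcc
      have e' : q c (v + 1) = q c' (v + 1) := e
      have := on_le hT (G.gr c c') (G.on c _ (hlt c hc)) (e' ▸ G.on c' _ (hlt c' hc'))
      have := hm c hc c' hc' hcc
      omega
    have key : ∀ e : V, T.Adj (q a v) e → e ∈ F (insert Y ↑J) d → (∀ c ∈ J, q c (v + 1) ≠ e) →
        False := by
      intro e h1 h2 h3
      have := H.nbr hL (hin a (Or.inr ha) b (Or.inr hb) v (hm a ha b hb hab).le (hlt a ha).le)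
        (insert e (J.image fun c => q c (v + 1))) (by
          intro x hx
          rcases Finset.mem_insert.mp hx with rfl | hx
          · exact ⟨h1, h2⟩
          · obtain ⟨c, hc, rfl⟩ := Finset.mem_image.mp hx
            obtain ⟨c', k1, k2⟩ := hoth c hc
            exact ⟨hy c hc ▸ on_adj hT (G.on c v (hlt c hc).le) (G.on c _ (hlt c hc)),
              hin c (Or.inr hc) c' (Or.inr k1) _ (by rw [hm c hc c' k1 k2]; omega) (hlt c hc)⟩)
      rw [Finset.card_insert_of_notMem (by simpa using h3), Finset.card_image_of_injOn hinj] at this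
      omega
    by_cases hall : ∀ c ∈ J, g Y c = v
    · have hYo : Y ≠ o := by
        rintro rfl
        have := hall a ha
        rw [sym, zero] at this
        omega
      have hYa : Y ≠ a := fun e => hY (e ▸ ha)
      have h1 : v < T.dist (p o) (p Y) := hall a ha ▸ H.lt G hYo hYa
      refine key (q Y (v + 1)) ?_ (hin Y (Or.inl rfl) a (Or.inr ha) _ (by rw [hall a ha]; omega) h1)
        ?_
      · rw [← on_eq hT (G.gr Y a) (G.on Y v h1.le) (G.on a v (hlt a ha).le) (hall a ha).ge]
        exact on_adj hT (G.on Y v h1.le) (G.on Y _ h1)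
      · intro c hc e
        have := on_le hT (G.gr Y c) (G.on Y _ h1) (e ▸ G.on c _ (hlt c hc))
        have := hall c hc
        omega
    · push Not at hall
      obtain ⟨c, hc, h1⟩ := hall
      have h2 := hv c hc
      have h3 := hlt c hc
      obtain ⟨u, rfl⟩ : ∃ u, v = u + 1 := ⟨v - 1, by omega⟩
      refine key (q c u) ?_ (hin c (Or.inr hc) Y (Or.inl rfl) _ (by rw [sym]; omega) (by omega)) ?_
      · rw [← hy c hc]
        exact (on_adj hT (G.on c u (by omega)) (G.on c _ h3.le)).symm
      · intro c' hc' e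
        have e1 := (G.on c' _ (hlt c' hc')).1
        have e2 := (G.on c u (by omega)).1
        rw [e] at e1
        omega

end Pool.Agent.P.MP_ebe746_co.Dg
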