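import Pool.Agent.P.MP_ebe746_co.DgHost
import Pool.Agent.P.MP_ebe746_co.DgPriv

set_option autoImplicit false

namespace Pool.Agent.P.MP_ebe746_co.Dg

variable {α : Type} [Fintype α] [Inhabited α] {N M k K : ℕ} {o : Lv α N}
  {g : Lv α N → Lv α N → ℕ}

/-- the heights extracted from a representation with threshold `K + 1` -/
structure Met (M k K : ℕ) (o : Lv α N) (g : Lv α N → Lv α N → ℕ) : Prop where
  big : 3 ≤ Fintype.card α
  root : ry o 0 ≠ default
  le : N ≤ M
  sym : ∀ i j, g i j = g j i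
  ult : ∀ i j l, g i j ≤ g i l ∨ g j l ≤ g i l
  zero : ∀ x, g x o = 0
  up : ∀ X Y Z W d d', X ≠ Y → X ≠ W → Adm {X, Z} d → Adm {Y, W} d' →
    (ext M {X, Z} d ∩ ext M {Y, W} d').ncard ≤ k → g X Y + g Z W + 1 ≤ g X Z + g Y W + K
  star : ∀ (J : Finset (Lv α N)) (v : ℕ) (Y : Lv α N) (d : ℕ), J.card = Fintype.card α → o ∉ J →
    (∀ a ∈ J, ∀ b ∈ J, a ≠ b → g a b = v) → Y ∉ J → (∀ a ∈ J, g Y a ≤ v) → ¬ Adm (insert Y ↑J) d

/-- a full set of leaves that separate at one point -/
structure Clq (g : Lv α N → Lv α N → ℕ) (J : Finset (Lv α N)) (v : ℕ) : Prop where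
  card : J.card = Fintype.card α
  reg : ∀ a ∈ J, ry a 0 = default
  mono : ∀ a ∈ J, ∀ b ∈ J, a ≠ b → g a b = v

/-- the leaves of `J` separate at one vertex of depth `n` -/
structure Str (J : Finset (Lv α N)) (n : ℕ) : Prop where
  pos : 0 < n
  lt : n < N
  agr : ∀ a ∈ J, ∀ b ∈ J, Agr (ry a) (ry b) n
  ne : ∀ a ∈ J, ∀ b ∈ J, a ≠ b → ry a n ≠ ry b n

/-- the vertex at depth `n` on `X` has an exact copy at height `v` -/
def Copy (g : Lv α N → Lv α N → ℕ) (X : ℕ → α) (n v : ℕ) : Prop :=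
  ∀ Y Z : Lv α N, Agr (ry Y) X n → Agr (ry Z) X n → Y ≠ Z →
    (ry Y n ≠ ry Z n → g Y Z = v) ∧ (ry Y n = ry Z n → v < g Y Z)

omit [Fintype α] in
lemma Copy.congr {X X' : ℕ → α} {n v : ℕ} (h : Copy g X n v) (hX : Agr X X' n) : Copy g X' n v :=
  fun Y Z h1 h2 => h Y Z (h1.trans hX.symm) (h2.trans hX.symm)

lemma Met.vup (H : Met M k K o g) (hk : 1 ≤ k) {x y z : Lv α N} (hN : k + 1 ≤ N)
    (hx : ry x 0 = default) (hy : ry y 0 = default) (hz : ry z 0 = default)
    (h1 : ¬ Agr (ry x) (ry y) (1 + k)) (h2 : ¬ Agr (ry z) (ry y) (1 + k)) :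
    g x y + 1 ≤ g x z + K := by
  have hM := H.le
  have hxy : x ≠ y := by rintro rfl; exact h1 (Agr.refl _ _)
  have hxo : x ≠ o := by rintro rfl; exact H.root hx
  have a1 : Agr (ry x) (ry z) 1 := Agr.succ (fun i hi => by omega) (hx.trans hz.symm)
  have hsub : ext M {x, z} 1 ∩ ext M {y, o} 0 ⊆ band M {ry y} 1 k := by
    intro w hw
    obtain ⟨k1, -, a, ha, b, hb, k2, -, k4⟩ := ext_inter hw
    have ha0 : ry a 0 = default := by rcases ha with rfl | rfl; exacts [hx, hz]
    rcases hb with rfl | rfl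
    · refine ⟨k1, ?_, _, rfl, k4⟩
      by_contra hc
      rcases ha with rfl | rfl
      · exact h1 (k2.mono (by omega))
      · exact h2 (k2.mono (by omega))
    · exact absurd ((k2 0 (by omega)).symm.trans ha0) H.root
  have k1 := Set.ncard_le_ncard hsub
  rw [band_card _ _ (by omega)] at k1
  have := H.up x y z o 1 0 hxy hxo (adm_pair H.big (by omega) a1)
    (adm_pair H.big (by omega) (fun i hi => by omega)) (by omega)
  rw [H.zero, H.zero] at this
  omega

lemma Met.hup (H : Met M k K o g) {x y z w : Lv α N} {n a b : ℕ} (hab : a + b + 1 = k)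
    (hN : n + k ≤ N) (h1 : Agr (ry x) (ry y) (n + 1)) (h2 : Agr (ry z) (ry w) (n + 1))
    (h3 : Agr (ry x) (ry z) n) (h4 : ry x n ≠ ry z n)
    (h5 : ¬ Agr (ry x) (ry y) (n + 1 + a)) (h6 : ¬ Agr (ry z) (ry w) (n + 1 + b)) :
    g x y + g z w + 1 ≤ g x z + g y w + K := by
  have hM := H.le
  have e1 := h1 n (by omega)
  have e2 := h2 n (by omega)
  have hxy : x ≠ y := by rintro rfl; exact h5 (Agr.refl _ _)
  have hxw : x ≠ w := by rintro rfl; exact h4 e2.symm
  have a1 : Agr (ry y) (ry w) n := ((h1.symm.mono (by omega)).trans h3).trans (h2.mono (by omega))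
  have hsub : ext M {x, z} n ∩ ext M {y, w} n ⊆
      band M {ry x} n (n + a) ∪ band M {ry z} (n + 1) (n + b) := by
    intro u hu
    obtain ⟨k1, -, a', ha, b', hb, k2, k3, -⟩ := ext_inter hu
    rcases ha with rfl | rfl
    · refine Or.inl ⟨k1, ?_, _, rfl, k3⟩
      rcases hb with rfl | rfl
      · by_contra hc
        exact h5 (k2.mono (by omega))
      · have := k2.le (m := n) (by rw [← e2]; exact h4)
        omega
    · rcases eq_or_lt_of_le k1 with e | hlt
      · refine Or.inl ⟨k1, by omega, _, rfl, k3.trans ?_⟩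
        rw [← e]; exact (nd_eq_iff _ _ _).mpr h3.symm
      · refine Or.inr ⟨hlt, ?_, _, rfl, k3⟩
        rcases hb with rfl | rfl
        · have := k2.le (m := n) (by rw [← e1]; exact h4.symm)
          omega
        · by_contra hc
          exact h6 (k2.mono (by omega))
  have k1 := (Set.ncard_le_ncard hsub).trans (Set.ncard_union_le _ _)
  rw [band_card _ _ (by omega), band_card _ _ (by omega)] at k1
  exact H.up x y z w n n hxy hxw (adm_pair H.big (by omega) h3) (adm_pair H.big (by omega) a1)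
    (by omega)

lemma Met.str (H : Met M k K o g) {J : Finset (Lv α N)} {v : ℕ} (hJ : Clq g J v) :
    ∃ n, Str J n := by
  classical
  have ho : o ∉ J := fun h => H.root (hJ.reg o h)
  have h1 := H.star J v o 0 hJ.card ho hJ.mono ho (fun a _ => by rw [H.sym, H.zero]; omega)
  have h2 : ¬ ∀ n, 0 < n → ∀ x ∈ (insert o ↑J : Set (Lv α N)), ∃ c,
      ∀ y ∈ (insert o ↑J : Set (Lv α N)), Agr (ry x) (ry y) n → ry y n ≠ c :=
    fun h => h1 ⟨⟨o, Or.inl rfl⟩, Nat.zero_le _, fun _ _ _ _ i hi => by omega, h⟩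
  push Not at h2
  obtain ⟨n, hn, x, hx, h3⟩ := h2
  choose y y1 y2 y3 using h3
  obtain ⟨c, hc, -⟩ := exists_avoid H.big (default : α) default
  have hxJ : ry x 0 = default := by
    rcases hx with rfl | hx
    · have e : ∀ c, y c = x := fun c => (y1 c).resolve_right fun h =>
        H.root ((y2 c 0 hn).trans (hJ.reg _ h))
      exact absurd (by rw [← y3 c, ← y3 default, e, e]) hc
    · exact hJ.reg x hx
  have hy : ∀ c, y c ∈ J := fun c => (y1 c).resolve_left fun h =>
    H.root (by rw [← h, ← y2 c 0 hn]; exact hxJ)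
  have hinj : Function.Injective y := fun c c' h => by rw [← y3 c, h, y3]
  have himg : Finset.univ.image y = J := Finset.eq_of_subset_of_card_le
    (fun a ha => by obtain ⟨c, -, rfl⟩ := Finset.mem_image.mp ha; exact hy c)
    (by rw [Finset.card_image_of_injective _ hinj, hJ.card, Finset.card_univ])
  have hs : ∀ a ∈ J, ∃ c, y c = a := fun a ha => by simpa [← himg] using ha
  refine ⟨n, hn, lt_of_ry_ne (x := y c) (y := y default) (by rw [y3, y3]; exact hc), ?_, ?_⟩
  · intro a ha b hb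
    obtain ⟨c, rfl⟩ := hs a ha
    obtain ⟨c', rfl⟩ := hs b hb
    exact (y2 c).symm.trans (y2 c')
  · intro a ha b hb hab
    obtain ⟨c, rfl⟩ := hs a ha
    obtain ⟨c', rfl⟩ := hs b hb
    rw [y3, y3]
    rintro rfl
    exact hab rfl

lemma Met.replace (H : Met M k K o g) {J : Finset (Lv α N)} {v n : ℕ} (hJ : Clq g J v)
    (hn : Str J n) {Y c : Lv α N} (hY : Y ∉ J) (h0 : ry Y 0 = default) (hc : c ∈ J)
    (h : ∀ b ∈ J, b ≠ c → g Y b = v) :
    ∀ b ∈ J, b ≠ c → Agr (ry Y) (ry b) n ∧ ry Y n ≠ ry b n := by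
  classical
  have hY' : Y ∉ J.erase c := fun h => hY (Finset.mem_of_mem_erase h)
  have hcard := Finset.card_erase_add_one hc
  have hJ' : Clq g (insert Y (J.erase c)) v := by
    refine ⟨by rw [Finset.card_insert_of_notMem hY', hcard, hJ.card], ?_, ?_⟩
    · intro a ha
      rcases Finset.mem_insert.mp ha with rfl | ha
      exacts [h0, hJ.reg a (Finset.mem_of_mem_erase ha)]
    · intro a ha b hb hab
      rcases Finset.mem_insert.mp ha with e1 | ha' <;>
        rcases Finset.mem_insert.mp hb with e2 | hb'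
      · exact absurd (e1.trans e2.symm) hab
      · rw [e1]; exact h b (Finset.mem_of_mem_erase hb') (Finset.ne_of_mem_erase hb')
      · rw [e2, H.sym]; exact h a (Finset.mem_of_mem_erase ha') (Finset.ne_of_mem_erase ha')
      · exact hJ.mono a (Finset.mem_of_mem_erase ha') b (Finset.mem_of_mem_erase hb') hab
  obtain ⟨n', hn'⟩ := H.str hJ'
  have hbig := H.big
  have hc2 := hJ.card
  obtain ⟨b1, h1, b2, h2, h12⟩ := Finset.one_lt_card.mp (show 1 < (J.erase c).card by omega)
  have m1 := Finset.mem_of_mem_erase h1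
  have m2 := Finset.mem_of_mem_erase h2
  have m3 : b1 ∈ insert Y (J.erase c) := Finset.mem_insert_of_mem h1
  have m4 : b2 ∈ insert Y (J.erase c) := Finset.mem_insert_of_mem h2
  obtain rfl : n = n' := le_antisymm ((hn.agr b1 m1 b2 m2).le (hn'.ne b1 m3 b2 m4 h12))
    ((hn'.agr b1 m3 b2 m4).le (hn.ne b1 m1 b2 m2 h12))
  intro b hb hbc
  have m5 : b ∈ insert Y (J.erase c) := Finset.mem_insert_of_mem (Finset.mem_erase.mpr ⟨hbc, hb⟩)
  exact ⟨hn'.agr Y (Finset.mem_insert_self _ _) b m5,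
    hn'.ne Y (Finset.mem_insert_self _ _) b m5 (fun e => hY (e ▸ hb))⟩

lemma Met.step (H : Met M k K o g) {x a b : Lv α N} {v : ℕ} (h1 : g a b = v) (h2 : v < g x a) :
    g x b = v := by
  have := H.ult b x a; have := H.ult b a x
  have := H.sym a b; have := H.sym x a; have := H.sym x b
  omega

lemma Met.below (H : Met M k K o g) {J : Finset (Lv α N)} {v n : ℕ} (hJ : Clq g J v)
    (hn : Str J n) {Y : Lv α N} (h0 : ry Y 0 = default) (h : ∀ b ∈ J, Y ≠ b → v ≤ g Y b) :
    ∀ a ∈ J, Agr (ry Y) (ry a) n := by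
  intro a ha
  by_cases hY : Y ∈ J
  · exact hn.agr Y hY a ha
  obtain ⟨c, hc, hmax⟩ := Finset.exists_max_image J (g Y) ⟨a, ha⟩
  have key := H.replace hJ hn hY h0 hc (by
    intro b hb hbc
    have k1 := h b hb (fun e => hY (e ▸ hb))
    have k2 := hmax b hb
    by_contra hne
    have := H.step (hJ.mono b hb c hc hbc) (x := Y) (by omega)
    omega)
  have hbig := H.big
  have hc2 := hJ.card
  obtain ⟨b, hb, hbc⟩ := Finset.exists_mem_ne (show 1 < J.card by omega) c
  exact (key b hb hbc).1.trans (hn.agr b hb a ha)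

lemma Met.copy (H : Met M k K o g) {J : Finset (Lv α N)} {v n : ℕ} (hJ : Clq g J v)
    (hn : Str J n) {a : Lv α N} (ha : a ∈ J) : Copy g (ry a) n v := by
  classical
  have hsurj : ∀ c : α, ∃ b ∈ J, ry b n = c := by
    intro c
    have hinj : Set.InjOn (fun b : Lv α N => ry b n) (J : Set (Lv α N)) := fun x hx y hy e => by
      by_contra hne
      exact hn.ne x hx y hy hne e
    have : J.image (fun b => ry b n) = Finset.univ :=
      Finset.eq_univ_of_card _ (by rw [Finset.card_image_of_injOn hinj, hJ.card])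
    simpa using (this ▸ Finset.mem_univ c : c ∈ J.image (fun b => ry b n))
  have key : ∀ Y : Lv α N, Agr (ry Y) (ry a) n →
      ∃ c ∈ J, ry c n = ry Y n ∧ (Y = c ∨ v < g Y c) := by
    intro Y hY
    by_cases hYJ : Y ∈ J
    · exact ⟨Y, hYJ, rfl, Or.inl rfl⟩
    have hall : ∀ x ∈ (insert Y ↑J : Set (Lv α N)), Agr (ry x) (ry a) n := by
      rintro x (rfl | hx)
      exacts [hY, hn.agr x hx a ha]
    have hadm : Adm (insert Y ↑J : Set (Lv α N)) n := by
      refine ⟨⟨Y, Or.inl rfl⟩, hn.lt.le, fun x hx y hy => (hall x hx).trans (hall y hy).symm, ?_⟩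
      intro m hm x _
      obtain ⟨b, hb, hb'⟩ := hsurj (ry x n)
      obtain ⟨c, h1, h2⟩ := exists_avoid H.big (ry Y m) (ry b m)
      refine ⟨c, ?_⟩
      rintro y (rfl | hy) hxy
      · exact h1.symm
      · by_cases e : y = b
        · rw [e]; exact h2.symm
        · exact absurd ((hxy n hm).symm.trans hb'.symm) (hn.ne y hy b hb e)
    have hex : ∃ c ∈ J, v < g Y c := by
      by_contra hc
      push Not at hc
      exact H.star J v Y n hJ.card (fun h => H.root (hJ.reg o h)) hJ.mono hYJ hc hadm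
    obtain ⟨c, hc, hlt⟩ := hex
    have k1 := H.replace hJ hn hYJ ((hY 0 hn.pos).trans (hJ.reg a ha)) hc
      (fun b hb hbc => H.step (hJ.mono c hc b hb (Ne.symm hbc)) hlt)
    obtain ⟨b, hb, hb'⟩ := hsurj (ry Y n)
    by_cases e : b = c
    · exact ⟨c, hc, e ▸ hb', Or.inr hlt⟩
    · exact absurd hb'.symm (k1 b hb e).2
  intro Y Z h1 h2 hYZ
  obtain ⟨c, c1, c2, c3⟩ := key Y h1
  obtain ⟨c', d1, d2, d3⟩ := key Z h2
  constructor
  · intro hne
    have e1 : g c c' = v := hJ.mono c c1 c' d1 (by rintro rfl; exact hne (c2.symm.trans d2))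
    have e2 : g Y c' = v := by
      rcases c3 with rfl | c3
      exacts [e1, H.step e1 c3]
    rcases d3 with rfl | d3
    · exact e2
    · rw [H.sym] at e2 ⊢
      exact H.step e2 d3
  · intro he
    obtain rfl : c = c' := by
      by_contra hne
      exact hn.ne c c1 c' d1 hne (by rw [c2, d2, he])
    have := H.ult Y c Z
    have := H.sym c Z
    rcases c3 with rfl | c3 <;> rcases d3 with rfl | d3
    · exact absurd rfl hYZ
    · omega
    · omega
    · omega

lemma Met.small (H : Met M k K o g) {J : Finset (Lv α N)} {v : ℕ}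
    (h0 : ∀ a ∈ J, ry a 0 = default) (h : ∀ a ∈ J, ∀ b ∈ J, a ≠ b → g a b = v) :
    J.card ≤ Fintype.card α := by
  by_contra hc
  obtain ⟨J', h1, h2⟩ := Finset.exists_subset_card_eq (show Fintype.card α ≤ J.card by omega)
  obtain ⟨Y, hY, hY'⟩ := Finset.exists_mem_notMem_of_card_lt_card (show J'.card < J.card by omega)
  have hJ : Clq g J' v := ⟨h2, fun a ha => h0 a (h1 ha), fun a ha b hb => h a (h1 ha) b (h1 hb)⟩
  obtain ⟨n, hn⟩ := H.str hJ
  have hbig := H.big
  obtain ⟨c1, m1, c2, m2, h12⟩ := Finset.one_lt_card.mp (show 1 < J'.card by omega)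
  have hv : ∀ b ∈ J', g Y b = v := fun b hb => h Y hY b (h1 hb) (fun e => hY' (e ▸ hb))
  have k1 := H.replace hJ hn hY' (h0 Y hY) m1 (fun b hb _ => hv b hb)
  have k2 := H.replace hJ hn hY' (h0 Y hY) m2 (fun b hb _ => hv b hb)
  classical
  have hinj : Set.InjOn (fun b : Lv α N => ry b n)
      ((insert Y J' : Finset (Lv α N)) : Set (Lv α N)) := by
    have hne : ∀ b ∈ J', ry Y n ≠ ry b n := by
      intro b hb
      by_cases e : b = c1
      · exact (k2 b hb (e ▸ h12)).2
      · exact (k1 b hb e).2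
    intro x hx y hy e
    by_contra hxy
    rcases Finset.mem_insert.mp hx with e1 | hx' <;> rcases Finset.mem_insert.mp hy with e2 | hy'
    · exact hxy (e1.trans e2.symm)
    · exact hne y hy' (e1 ▸ e)
    · exact hne x hx' (e2 ▸ e.symm)
    · exact hn.ne x hx' y hy' hxy e
  have := Finset.card_le_card_of_injOn (t := Finset.univ) _ (fun _ _ => Finset.mem_univ _) hinj
  rw [Finset.card_insert_of_notMem hY', Finset.card_univ] at this
  omega

lemma Met.first (H : Met M k K o g) (hk : 1 ≤ k) (hK : 1 ≤ K) (hN : k + 1 ≤ N)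
    (hs : (Fintype.card α - 1) ^ K < Fintype.card α ^ k) :
    ∃ X n v, X 0 = default ∧ 0 < n ∧ n ≤ k ∧ Copy g X n v := by
  classical
  obtain ⟨I, h1, h2, h3⟩ := exists_reps (N := N) (fun _ => (default : α)) (n := 1) (a := k)
    (by omega)
  have hbig := H.big
  have h0 : ∀ x ∈ I, ry x 0 = default := fun x hx => h2 x hx 0 (by omega)
  have hI : 1 < I.card := by rw [h1]; exact Nat.one_lt_pow (by omega) (by omega)
  obtain ⟨⟨a, b⟩, hab, hmin⟩ := Finset.exists_min_image I.offDiag (fun p => g p.1 p.2) (by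
    obtain ⟨a, ha, b, hb, hab⟩ := Finset.one_lt_card.mp hI
    exact ⟨(a, b), Finset.mem_offDiag.mpr ⟨ha, hb, hab⟩⟩)
  rw [Finset.mem_offDiag] at hab
  by_contra hc
  have := ultra_card g H.sym H.ult K (g a b) (fun _ => Fintype.card α - 1) I (by
    intro x hx y hy hxy
    refine ⟨hmin (x, y) (Finset.mem_offDiag.mpr ⟨hx, hy, hxy⟩), ?_⟩
    obtain ⟨z, hz, hz'⟩ : ∃ z ∈ I, g x z ≤ g a b := by
      rcases H.ult a x b with h | h
      · exact ⟨a, hab.1, by rw [H.sym]; exact h⟩
      · exact ⟨b, hab.2.1, h⟩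
    by_cases e : z = y
    · subst e; omega
    · have := H.vup hk hN (h0 x hx) (h0 y hy) (h0 z hz) (fun h => hxy (h3 x hx y hy h))
        (fun h => e (h3 z hz y hy h))
      omega) (by
    intro i J hJ hm
    have k1 := H.small (fun x hx => h0 x (hJ hx)) hm
    by_contra hc2
    have hq : Clq g J (g a b + i) := ⟨by omega, fun x hx => h0 x (hJ hx), hm⟩
    obtain ⟨n, hn⟩ := H.str hq
    obtain ⟨x, hx, y, hy, hxy⟩ := Finset.one_lt_card.mp (show 1 < J.card by omega)
    refine hc ⟨ry x, n, _, h0 x (hJ hx), hn.pos, ?_, H.copy hq hn hx⟩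
    by_contra hc3
    exact hxy (h3 x (hJ hx) y (hJ hy) ((hn.agr x hx y hy).mono (by omega))))
  rw [Finset.prod_const, Finset.card_range] at this
  omega

lemma Met.defect (H : Met M k K o g) {X : ℕ → α} {n v : ℕ} (hX : Copy g X n v)
    (h0 : X 0 = default) (hn : 0 < n) (hc : ¬ Copy g X (n + 1) (v + 1)) (a : ℕ)
    (hN : n + 1 + (a + 1) ≤ N) : ∃ x y : Lv α N, Agr (ry x) X (n + 1) ∧ Agr (ry y) X (n + 1) ∧
      ¬ Agr (ry x) (ry y) (n + 1 + (a + 1)) ∧ v + (a + 1) + 1 ≤ g x y := by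
  obtain ⟨I, h1, h2, h3⟩ := exists_reps (N := N) X hN
  have hbig := H.big
  have hr : ∀ x ∈ I, ry x 0 = default := fun x hx => (h2 x hx 0 (by omega)).trans h0
  have hlow : ∀ x y : Lv α N, Agr (ry x) X (n + 1) → Agr (ry y) X (n + 1) → x ≠ y → v < g x y :=
    fun x y k1 k2 k3 => (hX x y (k1.mono (by omega)) (k2.mono (by omega)) k3).2
      ((k1 n (by omega)).trans (k2 n (by omega)).symm)
  by_contra hc2
  push Not at hc2
  have := ultra_card g H.sym H.ult (a + 1) (v + 1)
    (fun i => if i = 0 then Fintype.card α - 1 else Fintype.card α) I (by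
    intro x hx y hy hxy
    have := hc2 x y (h2 x hx) (h2 y hy) (fun h => hxy (h3 x hx y hy h))
    exact ⟨hlow x y (h2 x hx) (h2 y hy) hxy, by omega⟩) (by
    intro i J hJ hm
    have k1 := H.small (fun x hx => hr x (hJ hx)) hm
    split_ifs with hi
    · subst hi
      by_contra hc3
      have hq : Clq g J (v + 1) := ⟨by omega, fun x hx => hr x (hJ hx), hm⟩
      obtain ⟨m, hm'⟩ := H.str hq
      obtain ⟨x, hx, y, hy, hxy⟩ := Finset.one_lt_card.mp (show 1 < J.card by omega)
      have k2 : n + 1 ≤ m := ((h2 x (hJ hx)).trans (h2 y (hJ hy)).symm).le (hm'.ne x hx y hy hxy)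
      obtain ⟨c, c1, -⟩ := exists_avoid H.big (ry x (n + 1)) (ry x (n + 1))
      have y1 := (lv_agr (N := N) (ry x) c (n := n + 1) (by omega)).trans (h2 x (hJ hx))
      have y2 := lv_at (N := N) (ry x) c (n := n + 1) (by omega)
      have k3 := H.below hq hm' ((y1 0 (by omega)).trans h0)
        (fun b hb hne => hlow _ b y1 (h2 b (hJ hb)) hne) x hx
      have k4 := k3.le (m := n + 1) (by rw [y2]; exact c1)
      obtain rfl : m = n + 1 := by omega
      exact hc ((H.copy hq hm' hx).congr (h2 x (hJ hx)))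
    · exact k1)
  rw [Finset.prod_range_succ'] at this
  simp only [Nat.add_eq_zero_iff, one_ne_zero, and_false, if_false, if_true, Finset.prod_const,
    Finset.card_range] at this
  rw [h1, pow_succ] at this
  have h4 := Nat.le_of_mul_le_mul_left this (by positivity)
  omega

lemma Met.child (H : Met M k (k + 1) o g) (hk : 3 ≤ k) {X : ℕ → α} {n v : ℕ} (hX : Copy g X n v)
    (h0 : X 0 = default) (hn : 0 < n) (hN : n + k ≤ N) :
    ∃ X', Agr X X' n ∧ Copy g X' (n + 1) (v + 1) := by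
  classical
  by_contra hc
  push Not at hc
  obtain ⟨c, c1, -⟩ := exists_avoid H.big (X n) (X n)
  have a1 : Agr X (Function.update X n c) n := fun i hi => (Function.update_of_ne (by omega) _ _).symm
  obtain ⟨x, y, x1, x2, x3, x4⟩ := H.defect hX h0 hn (hc X (Agr.refl _ _)) 0 (by omega)
  obtain ⟨z, w, z1, z2, z3, z4⟩ := H.defect (hX.congr a1) ((a1 0 hn).symm.trans h0) hn (hc _ a1)
    (k - 3) (by omega)
  have e1 : ry x n ≠ ry z n := by
    rw [x1 n (by omega), z1 n (by omega), Function.update_self]; exact c1.symm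
  have e2 : ry y n ≠ ry w n := by
    rw [x2 n (by omega), z2 n (by omega), Function.update_self]; exact c1.symm
  have b1 : Agr (ry z) X n := (z1.mono (by omega)).trans a1.symm
  have b2 : Agr (ry w) X n := (z2.mono (by omega)).trans a1.symm
  have k1 := (hX x z (x1.mono (by omega)) b1 (by rintro rfl; exact e1 rfl)).1 e1
  have k2 := (hX y w (x2.mono (by omega)) b2 (by rintro rfl; exact e2 rfl)).1 e2
  have := H.hup (a := 0 + 1) (b := k - 3 + 1) (by omega) hN (x1.trans x2.symm) (z1.trans z2.symm)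
    ((x1.mono (by omega)).trans b1.symm) e1 x3 z3
  omega

theorem Met.path (H : Met M k (k + 1) o g) (hk : 3 ≤ k) (r : ℕ) (hN : 2 * k + r + 1 ≤ N)
    (hs : (Fintype.card α - 1) ^ (k + 1) < Fintype.card α ^ k) :
    ∃ (b : Lv α N) (n v : ℕ), ry b 0 = default ∧ 0 < n ∧ n ≤ k ∧
      ∀ l ≤ r, Copy g (ry b) (n + l) (v + l) := by
  obtain ⟨X, n, v, h0, h1, h2, h3⟩ := H.first (by omega) (by omega) (by omega) hs
  have key : ∀ r', r' ≤ r → ∃ X' : ℕ → α, X' 0 = default ∧ ∀ l ≤ r', Copy g X' (n + l) (v + l) := by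
    intro r'
    induction r' with
    | zero =>
      intro _
      refine ⟨X, h0, fun l hl => ?_⟩
      obtain rfl : l = 0 := by omega
      exact h3
    | succ r' ih =>
      intro hr
      obtain ⟨X', k1, k2⟩ := ih (by omega)
      obtain ⟨X'', k3, k4⟩ := H.child hk (k2 r' le_rfl) k1 (by omega) (by omega)
      refine ⟨X'', (k3 0 (by omega)).symm.trans k1, fun l hl => ?_⟩
      rcases Nat.lt_succ_iff_lt_or_eq.mp (Nat.lt_succ_of_le hl) with h | rfl
      · exact (k2 l (by omega)).congr (k3.mono (by omega))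
      · exact k4
  obtain ⟨X', k1, k2⟩ := key r le_rfl
  have a1 := lv_agr (N := N) X' (n := n + r) default (by omega)
  exact ⟨lv N X' (n + r) default, n, v, (a1 0 (by omega)).trans k1, h1, h2,
    fun l hl => (k2 l hl).congr (a1.symm.mono (by omega))⟩

end Pool.Agent.P.MP_ebe746_co.Dg
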