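import Pool.Agent.P.MP_ebe746_co.Defs

set_option autoImplicit false

namespace Pool.Agent.P.MP_ebe746_co

open SimpleGraph

lemma fQU : ∀ X i, Ad (iQ X) (iU X i) := by decide +kernel
lemma fUU : ∀ X i j, i ≠ j → Na (iU X i) (iU X j) := by decide +kernel
lemma fPQ : ∀ X Y, X ≠ Y → Ad (iP X Y) (iQ X) := by decide +kernel

end Pool.Agent.P.MP_ebe746_co
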