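import Pool.Agent.P.MP_ebe746_co.Defs

set_option autoImplicit false

namespace Pool.Agent.P.MP_ebe746_co

open SimpleGraph

lemma fPU : ∀ X Y i, X ≠ Y → Ad (iP X Y) (iU X i) := by decide +kernel
lemma fQR : ∀ X Y W, X ≠ Y → X ≠ W → Y ≠ W → Na (iQ X) (iP Y W) := by decide +kernel
lemma fPP : ∀ X Y W, X ≠ Y → X ≠ W → Y ≠ W → Ad (iP X Y) (iP Y W) := by decide +kernel
lemma fW : Ad (iP 0 9) (iP 1 8) ∧ Ad (iP 0 8) (iP 1 9) ∧ Ad (iP 2 9) (iP 3 8) ∧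
    Ad (iP 2 8) (iP 3 9) ∧ Ad (iP 4 9) (iP 5 8) ∧ Ad (iP 4 8) (iP 5 9) ∧
    Ad (iP 6 9) (iP 7 8) ∧ Ad (iP 6 8) (iP 7 9) ∧ Ad (iP 0 4) (iP 1 6) ∧
    Ad (iP 0 6) (iP 1 4) ∧ Ad (iP 2 4) (iP 3 6) ∧ Ad (iP 2 6) (iP 3 4) := by decide +kernel
lemma fN : Na (iP 0 2) (iP 1 3) ∧ Na (iP 4 6) (iP 5 7) ∧ Na (iP 0 9) (iP 2 8) ∧
    Na (iP 4 9) (iP 6 8) ∧ Na (iP 0 4) (iP 2 6) := by decide +kernel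


end Pool.Agent.P.MP_ebe746_co
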