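import Pool.Agent.P.MP_ebe746_co.Core

set_option autoImplicit false

namespace Pool.Agent.P.MP_ebe746_co

open SimpleGraph

lemma ultra_contra (h : Fin 10 → Fin 10 → ℕ) (hs : ∀ i j, h i j = h j i)
    (hu : ∀ i j k, h i j ≤ h i k ∨ h j k ≤ h i k)
    (l1 : h 0 9 + 4 ≤ h 0 1) (l2 : h 2 9 + 4 ≤ h 2 3)
    (l3 : h 4 9 + 4 ≤ h 4 5) (l4 : h 6 9 + 4 ≤ h 6 7)
    (l5 : h 0 4 + h 1 6 + 4 ≤ h 0 1 + h 4 6) (l6 : h 2 4 + h 3 6 + 4 ≤ h 2 3 + h 4 6)
    (u1 : h 0 1 + h 2 3 ≤ h 0 2 + h 1 3 + 3) (u2 : h 4 5 + h 6 7 ≤ h 4 6 + h 5 7 + 3)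
    (u3 : h 0 2 ≤ h 0 9 + 3) (u4 : h 4 6 ≤ h 4 9 + 3)
    (u5 : h 0 2 + h 4 6 ≤ h 0 4 + h 2 6 + 3) : False := by
  have a1 : h 0 1 ≤ h 0 2 + 1 ∨ h 2 3 ≤ h 0 2 + 1 := by
    have := hu 0 1 2; have := hu 1 3 2; have := hs 3 2
    omega
  have a2 : h 4 5 ≤ h 4 6 + 1 ∨ h 6 7 ≤ h 4 6 + 1 := by
    have := hu 4 5 6; have := hu 5 7 6; have := hs 7 6
    omega
  have a3 : h 0 2 = h 0 9 + 3 ∧ h 2 9 = h 0 9 := by
    have := hu 0 2 9; have := hu 2 0 9; have := hs 2 0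
    omega
  have a4 : h 4 6 = h 4 9 + 3 ∧ h 6 9 = h 4 9 := by
    have := hu 4 6 9; have := hu 6 4 9; have := hs 6 4
    omega
  have a5 : h 0 9 = h 4 9 := by
    have := hu 0 4 9; have := hu 4 0 9; have := hs 4 0
    have := hu 2 6 9; have := hu 6 2 9; have := hs 6 2
    omega
  have a6 : h 0 9 + 2 ≤ h 0 4 := by
    have := hu 0 2 4; have := hu 2 6 4; have := hs 6 4
    omega
  have a7 : h 0 9 + 2 ≤ h 0 6 := by
    have := hu 0 4 6
    omega
  have a8 : h 0 9 + 2 ≤ h 2 4 := by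
    have := hu 2 0 4; have := hs 2 0
    omega
  have a9 : h 0 9 + 2 ≤ h 2 6 := by
    have := hu 2 4 6
    omega
  have := hu 1 0 6; have := hs 1 0; have := hu 3 2 6; have := hs 3 2
  omega

variable {V : Type} {T : SimpleGraph V}

theorem core [Finite V] (hT : T.IsTree) (P : Fin 10 → Fin 10 → Set V) (Q : Fin 10 → Set V)
    (U : Fin 10 → Fin 13 → Set V) (hsym : ∀ X Y, P X Y = P Y X)
    (cP : ∀ X Y, Cvx T (P X Y)) (lP : ∀ X Y, Col T (P X Y))
    (cQ : ∀ X, Cvx T (Q X)) (lQ : ∀ X, Col T (Q X)) (cU : ∀ X i, Cvx T (U X i))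
    (hQU : ∀ X i, Win T (Q X) (U X i)) (hUU : ∀ X i j, i ≠ j → ¬ Win T (U X i) (U X j))
    (hPQ : ∀ X Y, X ≠ Y → Win T (P X Y) (Q X))
    (hPU : ∀ X Y i, X ≠ Y → Win T (P X Y) (U X i))
    (hQR : ∀ X Y W, X ≠ Y → X ≠ W → Y ≠ W → ¬ Win T (Q X) (P Y W))
    (hPP : ∀ X Y W, X ≠ Y → X ≠ W → Y ≠ W → Win T (P X Y) (P Y W))
    (w1 : Win T (P 0 9) (P 1 8)) (w1' : Win T (P 0 8) (P 1 9))
    (w2 : Win T (P 2 9) (P 3 8)) (w2' : Win T (P 2 8) (P 3 9))
    (w3 : Win T (P 4 9) (P 5 8)) (w3' : Win T (P 4 8) (P 5 9))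
    (w4 : Win T (P 6 9) (P 7 8)) (w4' : Win T (P 6 8) (P 7 9))
    (w5 : Win T (P 0 4) (P 1 6)) (w5' : Win T (P 0 6) (P 1 4))
    (w6 : Win T (P 2 4) (P 3 6)) (w6' : Win T (P 2 6) (P 3 4))
    (n1 : ¬ Win T (P 0 2) (P 1 3)) (n2 : ¬ Win T (P 4 6) (P 5 7))
    (n3 : ¬ Win T (P 0 9) (P 2 8)) (n4 : ¬ Win T (P 4 9) (P 6 8))
    (n5 : ¬ Win T (P 0 4) (P 2 6)) : False := by
  have hex : ∀ X, ∃ p, (∀ Y, X ≠ Y → p ∈ P X Y) ∧
      ∀ Y W, X ≠ Y → X ≠ W → Y ≠ W → p ∉ P Y W := by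
    intro X
    obtain ⟨u, p, v, hu, hp, hv, h1, h2, h3, h4⟩ :=
      gadget hT (Q X) (U X) (cQ X) (lQ X) (cU X) (hQU X) (hUU X)
    have h5 : ∀ Y, X ≠ Y → u ∈ P X Y ∧ p ∈ P X Y ∧ v ∈ P X Y := fun Y hY =>
      h4 _ (cP X Y) (hPQ X Y hY) (fun i => hPU X Y i hY)
    refine ⟨p, fun Y hY => (h5 Y hY).2.1, fun Y W hY hW hYW => ?_⟩
    exact privacy hT (lP X Y) (cQ X) (cP Y W) hu hp hv h1 h2 h3 (h5 Y hY).1 (h5 Y hY).2.2
      (hPP X Y W hY hW hYW) (hQR X Y W hY hW hYW)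
  choose p hp1 hp2 using hex
  have hp1' : ∀ X Y, X ≠ Y → p Y ∈ P X Y := fun X Y h => hsym X Y ▸ hp1 Y X h.symm
  -- a common point of two long paths with four distinct ends lies between the private points
  have hbtw : ∀ X Y Z W, X ≠ Y → X ≠ Z → X ≠ W → Y ≠ Z → Y ≠ W → Z ≠ W →
      ∀ o, o ∈ P X Z → o ∈ P Y W → Btw T (p X) o (p Z) := by
    intro X Y Z W h1 h2 h3 h4 h5 h6 o ho1 ho2
    rcases lP X Z (p X) o (p Z) (hp1 X Z h2) ho1 (hp1' X Z h2) with h | h | h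
    · exact h
    · exfalso
      rcases btw_split hT (p W) h with h' | h'
      · exact hp2 X Y W h1 h3 h5 (cP Y W _ _ _ ho2 (hp1' Y W h5) h')
      · exact hp2 X W Z h3 h2 h6.symm (cP W Z _ _ _ (hp1 W Z h6.symm) (hp1' W Z h6.symm) h')
    · exfalso
      rcases btw_split hT (p W) h with h' | h'
      · exact hp2 Z X W h2.symm h6 h3 (cP X W _ _ _ (hp1 X W h3) (hp1' X W h3) h')
      · exact hp2 Z Y W h4.symm h6 h5 (cP Y W _ _ _ (hp1' Y W h5) ho2 h')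
  have hlow : ∀ X Y Z W, X ≠ Y → X ≠ Z → X ≠ W → Y ≠ Z → Y ≠ W → Z ≠ W →
      Win T (P X Z) (P Y W) →
      T.dist (p X) (p Y) + T.dist (p Z) (p W) + 8 ≤ T.dist (p X) (p Z) + T.dist (p Y) (p W) ∨
      T.dist (p X) (p W) + T.dist (p Y) (p Z) + 8 ≤ T.dist (p X) (p Z) + T.dist (p Y) (p W) := by
    rintro X Y Z W h1 h2 h3 h4 h5 h6 ⟨y, z, k1, k2, k3, k4, k5⟩
    exact lower hT (hbtw X Y Z W h1 h2 h3 h4 h5 h6 y k1 k2) (hbtw X Y Z W h1 h2 h3 h4 h5 h6 z k3 k4)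
      (hbtw Y X W Z h1.symm h5 h4 h3 h2 h6.symm y k2 k1)
      (hbtw Y X W Z h1.symm h5 h4 h3 h2 h6.symm z k4 k3) k5
  have hlow2 : ∀ X Y Z W, X ≠ Y → X ≠ Z → X ≠ W → Y ≠ Z → Y ≠ W → Z ≠ W →
      Win T (P X Z) (P Y W) → Win T (P X W) (P Y Z) →
      T.dist (p X) (p Y) + T.dist (p Z) (p W) + 8 ≤ T.dist (p X) (p Z) + T.dist (p Y) (p W) := by
    intro X Y Z W h1 h2 h3 h4 h5 h6 k1 k2
    have a1 := hlow X Y Z W h1 h2 h3 h4 h5 h6 k1
    have a2 := hlow X Y W Z h1 h3 h2 h5 h4 h6.symm k2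
    have s1 : T.dist (p W) (p Z) = T.dist (p Z) (p W) := dist_comm
    omega
  have hupp : ∀ X Y Z W, X ≠ Z → Y ≠ W → ¬ Win T (P X Z) (P Y W) →
      T.dist (p X) (p Z) + T.dist (p Y) (p W) ≤ T.dist (p X) (p Y) + T.dist (p Z) (p W) + 7 :=
    fun X Y Z W h1 h2 hn => upper hT (cP X Z) (cP Y W) (hp1 X Z h1) (hp1' X Z h1) (hp1 Y W h2)
      (hp1' Y W h2) hn
  have hh : ∀ i j, ∃ k, T.dist (p 8) (p i) + T.dist (p 8) (p j) = T.dist (p i) (p j) + 2 * k := by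
    intro i j
    obtain ⟨m, m1, m2, m3⟩ := exists_median hT (p 8) (p i) (p j)
    have s1 : T.dist (p i) m = T.dist m (p i) := dist_comm
    exact ⟨T.dist (p 8) m, by unfold Btw at *; omega⟩
  choose h hh using hh
  have hc : ∀ i j, T.dist (p i) (p j) = T.dist (p j) (p i) := fun i j => dist_comm
  refine ultra_contra h ?_ ?_ ?_ ?_ ?_ ?_ ?_ ?_ ?_ ?_ ?_ ?_ ?_
  · intro i j
    have := hh i j; have := hh j i; have := hc i j
    omega
  · intro i j k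
    have := four_point hT (p i) (p k) (p j) (p 8)
    have := hh i j; have := hh i k; have := hh j k
    have := hc j 8; have := hc k 8; have := hc i 8; have := hc k j
    omega
  · have := hlow2 0 1 9 8 (by decide) (by decide) (by decide) (by decide) (by decide) (by decide)
      w1 w1'
    have := hh 0 9; have := hh 0 1; have := hc 9 8; have := hc 1 8
    omega
  · have := hlow2 2 3 9 8 (by decide) (by decide) (by decide) (by decide) (by decide) (by decide)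
      w2 w2'
    have := hh 2 9; have := hh 2 3; have := hc 9 8; have := hc 3 8
    omega
  · have := hlow2 4 5 9 8 (by decide) (by decide) (by decide) (by decide) (by decide) (by decide)
      w3 w3'
    have := hh 4 9; have := hh 4 5; have := hc 9 8; have := hc 5 8
    omega
  · have := hlow2 6 7 9 8 (by decide) (by decide) (by decide) (by decide) (by decide) (by decide)
      w4 w4'
    have := hh 6 9; have := hh 6 7; have := hc 9 8; have := hc 7 8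
    omega
  · have := hlow2 0 1 4 6 (by decide) (by decide) (by decide) (by decide) (by decide) (by decide)
      w5 w5'
    have := hh 0 4; have := hh 1 6; have := hh 0 1; have := hh 4 6
    omega
  · have := hlow2 2 3 4 6 (by decide) (by decide) (by decide) (by decide) (by decide) (by decide)
      w6 w6'
    have := hh 2 4; have := hh 3 6; have := hh 2 3; have := hh 4 6
    omega
  · have := hupp 0 1 2 3 (by decide) (by decide) n1
    have := hh 0 2; have := hh 1 3; have := hh 0 1; have := hh 2 3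
    omega
  · have := hupp 4 5 6 7 (by decide) (by decide) n2
    have := hh 4 6; have := hh 5 7; have := hh 4 5; have := hh 6 7
    omega
  · have := hupp 0 2 9 8 (by decide) (by decide) n3
    have := hh 0 9; have := hh 0 2; have := hc 9 8; have := hc 2 8
    omega
  · have := hupp 4 6 9 8 (by decide) (by decide) n4
    have := hh 4 9; have := hh 4 6; have := hc 9 8; have := hc 6 8
    omega
  · have := hupp 0 2 4 6 (by decide) (by decide) n5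
    have := hh 0 4; have := hh 2 6; have := hh 0 2; have := hh 4 6
    omega

end Pool.Agent.P.MP_ebe746_co
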