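import Pool.Agent.P.MP_ebe746_co.Defs

set_option autoImplicit false

namespace Pool.Agent.P.MP_ebe746_co

open SimpleGraph

lemma par_lt : ∀ w : Fin 168, w.val ≠ 0 → par w < w := by decide +kernel

lemma nb_spec : ∀ w x : Fin 168, w ≠ x → (par w = x ∨ par x = w) → x.val ∈ nb w := by
  decide +kernel

lemma nb_len : ∀ w : Fin 168, (nb w).length ≤ 3 := by decide +kernel

lemma nb_sub : ∀ v : Fin 240, ∀ w : Fin 168, (mask v).testBit w = true →
    ((nb w).filter (fun x => (mask v).testBit x)).length ≤ 2 := by decide +kernel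

lemma top_spec : ∀ v : Fin 240, top v < 168 ∧ (mask v).testBit (top v) = true := by
  decide +kernel

lemma par_sub : ∀ v : Fin 240, ∀ w : Fin 168, (mask v).testBit w = true → w.val ≠ top v →
    w.val ≠ 0 ∧ (mask v).testBit (par w) = true := by decide +kernel

lemma connected_of_par (S : Set (Fin 168)) (r : Fin 168) (hr : r ∈ S)
    (h : ∀ w ∈ S, w ≠ r → w.val ≠ 0 ∧ ∀ x : Fin 168, x.val = par w → x ∈ S) :
    (host.induce S).Connected := by
  have key : ∀ k, ∀ w : Fin 168, w.val = k → ∀ hw : w ∈ S,
      (host.induce S).Reachable ⟨w, hw⟩ ⟨r, hr⟩ := by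
    intro k
    induction k using Nat.strong_induction_on with
    | _ k ih =>
      intro w hk hw
      by_cases hwr : w = r
      · subst hwr; rfl
      obtain ⟨h0, h1⟩ := h w hw hwr
      have hlt := par_lt w h0
      let x : Fin 168 := ⟨par w, lt_trans hlt w.2⟩
      have hx : x ∈ S := h1 x rfl
      have hadj : (host.induce S).Adj ⟨w, hw⟩ ⟨x, hx⟩ := by
        refine ⟨?_, Or.inl rfl⟩
        intro he
        have : w.val = par w := congrArg Fin.val he
        omega
      exact hadj.reachable.trans (ih (par w) (by omega) x rfl hx)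
  have : Nonempty S := ⟨⟨r, hr⟩⟩
  exact ⟨fun a b => (key _ a.1 rfl a.2).trans (key _ b.1 rfl b.2).symm⟩

lemma host_connected : host.Connected := by
  have h := connected_of_par Set.univ 0 (Set.mem_univ _) (by
    intro w _ hw
    exact ⟨fun h0 => hw (Fin.ext h0), fun _ _ => Set.mem_univ _⟩)
  exact (induceUnivIso host).connected_iff.mp h

lemma host_isTree : host.IsTree := by
  rw [isTree_iff_connected_and_card]
  refine ⟨host_connected, ?_⟩
  let f : Fin 167 → Sym2 (Fin 168) := fun i =>
    s(i.succ, ⟨par i.succ, lt_trans (par_lt i.succ (by simp)) i.succ.2⟩)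
  have hinj : Function.Injective f := by
    intro i j hij
    have hi := par_lt i.succ (by simp)
    have hj := par_lt j.succ (by simp)
    simp only [f, Sym2.eq_iff] at hij
    rcases hij with ⟨h1, -⟩ | ⟨h1, h2⟩
    · exact Fin.succ_injective _ h1
    · have a1 : (i.succ).val = par j.succ := congrArg Fin.val h1
      have a2 : par i.succ = (j.succ).val := congrArg Fin.val h2
      omega
  have hr : host.edgeSet = Set.range f := by
    ext e
    induction e using Sym2.ind with
    | _ a b =>
      simp only [mem_edgeSet, Set.mem_range]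
      constructor
      · rintro ⟨hne, h | h⟩
        · have ha : a ≠ 0 := by
            rintro rfl
            exact hne (Fin.ext h)
          obtain ⟨i, rfl⟩ := Fin.exists_succ_eq.mpr ha
          exact ⟨i, by simp only [f]; congr 1; exact Fin.ext h⟩
        · have hb : b ≠ 0 := by
            rintro rfl
            exact hne (Fin.ext h).symm
          obtain ⟨i, rfl⟩ := Fin.exists_succ_eq.mpr hb
          exact ⟨i, by
            simp only [f]; rw [Sym2.eq_swap]; congr 1; exact Fin.ext h⟩
      · rintro ⟨i, hi⟩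
        have hlt := par_lt i.succ (by simp)
        have hadj : host.Adj i.succ ⟨par i.succ, lt_trans hlt i.succ.2⟩ := by
          refine ⟨?_, Or.inl rfl⟩
          intro he
          have : (i.succ).val = par i.succ := congrArg Fin.val he
          omega
        have : f i ∈ host.edgeSet := hadj
        rw [hi] at this
        exact this
  rw [hr, Nat.card_range_of_injective hinj]
  simp

lemma ncard_le_of_list (A : Set (Fin 168)) (L : List ℕ) (h : ∀ x ∈ A, x.val ∈ L) :
    A.ncard ≤ L.length := by
  have h1 : A.ncard ≤ (L.toFinset : Set ℕ).ncard :=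
    Set.ncard_le_ncard_of_injOn Fin.val (fun x hx => by simpa using h x hx)
      Fin.val_injective.injOn
  rw [Set.ncard_coe_finset] at h1
  exact h1.trans (List.toFinset_card_le L)

lemma host_deg (w : Fin 168) : (host.neighborSet w).ncard ≤ 3 :=
  (ncard_le_of_list _ (nb w) (fun x hx => nb_spec w x hx.1 hx.2)).trans (nb_len w)

lemma sub_deg (v : Fin 240) (w : Fin 168) (hw : w ∈ sub v) :
    (host.neighborSet w ∩ sub v).ncard ≤ 2 := by
  refine (ncard_le_of_list _ _ (fun x hx => ?_)).trans (nb_sub v w hw)
  rw [List.mem_filter]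
  exact ⟨nb_spec w x hx.1.1 hx.1.2, hx.2⟩

lemma sub_conn (v : Fin 240) : (sub v).Nonempty ∧ (host.induce (sub v)).Connected := by
  obtain ⟨h1, h2⟩ := top_spec v
  refine ⟨⟨⟨top v, h1⟩, h2⟩, connected_of_par _ ⟨top v, h1⟩ h2 ?_⟩
  intro w hw hne
  obtain ⟨h3, h4⟩ := par_sub v w hw (fun h => hne (Fin.ext h))
  refine ⟨h3, fun x hx => ?_⟩
  change (mask v).testBit x = true
  rw [hx]; exact h4


end Pool.Agent.P.MP_ebe746_co
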